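import Pool.Agent.R59.SP.Defs

/-!
# Linear algebra pieces LA1 and LA2 (MP_dc5c84_pr)
-/

set_option autoImplicit false

open Matrix
open scoped ComplexOrder

namespace R961.SPLA

variable {N : ℕ}

theorem quad (A P : Matrix (Fin N) (Fin N) ℂ) (i j : Fin N) :
    (Pᴴ * A * P) i j =
      dotProduct (star (fun a => P a i)) (A.mulVec (fun a => P a j)) := by
  rw [Matrix.mul_assoc, Matrix.mul_apply]
  rfl

theorem spec (A : Matrix (Fin N) (Fin N) ℂ) (hA : A.IsHermitian) :
    ∃ (U : Matrix (Fin N) (Fin N) ℂ) (μ : Fin N → ℝ), Uᴴ * U = 1 ∧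
      Uᴴ * A * U = Matrix.diagonal (fun i => (μ i : ℂ)) := by
  refine ⟨hA.eigenvectorUnitary, hA.eigenvalues, ?_, ?_⟩
  · exact Unitary.coe_star_mul_self hA.eigenvectorUnitary
  · have h := hA.conjStarAlgAut_star_eigenvectorUnitary
    rw [Unitary.conjStarAlgAut_star_apply] at h
    exact h

theorem one_sub_sum_le (s : Finset (Fin N)) (μ : Fin N → ℝ) (h0 : ∀ i, 0 ≤ μ i)
    (h1 : ∀ i, μ i ≤ 1) : 1 - ∑ i ∈ s, μ i ≤ ∏ i ∈ s, (1 - μ i) := by
  induction s using Finset.induction_on with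
  | empty => simp
  | insert a s ha ih =>
    rw [Finset.sum_insert ha, Finset.prod_insert ha]
    have h2 : ∏ i ∈ s, (1 - μ i) ≤ 1 :=
      Finset.prod_le_one (fun i _ => sub_nonneg.2 (h1 i)) fun i _ => by linarith [h0 i]
    nlinarith [h0 a, h1 a]

theorem la1 : R59.SP.S_LA1 := by
  intro N B C τ hB hC hBC hp
  -- a matrix with `P₀ᴴ B P₀ = 1`
  obtain ⟨U, b, hU, hb⟩ := spec B hB.isHermitian
  have hbpos : ∀ i, 0 < b i := by
    intro i
    have h1 := hB.dotProduct_mulVec_pos (x := fun a => U a i) (by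
      intro h0
      have h2 := congrFun (congrFun hU i) i
      rw [Matrix.mul_apply] at h2
      have h3 : ∀ a, U a i = 0 := fun a => congrFun h0 a
      simp [h3] at h2)
    rw [← quad, hb, Matrix.diagonal_apply_eq] at h1
    exact_mod_cast h1
  set D : Matrix (Fin N) (Fin N) ℂ := Matrix.diagonal (fun i => (((√(b i))⁻¹ : ℝ) : ℂ)) with hD
  have hDH : Dᴴ = D := by
    rw [hD, Matrix.diagonal_conjTranspose]
    congr 1
    funext i
    simp
  have h1 : (U * D)ᴴ * B * (U * D) = 1 := by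
    have : (U * D)ᴴ * B * (U * D) = Dᴴ * (Uᴴ * B * U) * D := by
      simp only [Matrix.conjTranspose_mul, Matrix.mul_assoc]
    rw [this, hb, hDH, hD, Matrix.diagonal_mul_diagonal, Matrix.diagonal_mul_diagonal,
      ← Matrix.diagonal_one]
    congr 1
    funext i
    have h2 : √(b i) * √(b i) = b i := Real.mul_self_sqrt (hbpos i).le
    have h3 : √(b i) ≠ 0 := (Real.sqrt_pos.2 (hbpos i)).ne'
    rw [← Complex.ofReal_mul, ← Complex.ofReal_mul]
    norm_cast
    field_simp
    rw [sq, h2]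
  set P₀ := U * D with hP₀
  have hC0 : (P₀ᴴ * C * P₀).IsHermitian := (hC.conjTranspose_mul_mul_same P₀).isHermitian
  obtain ⟨V, μ, hV, hμ⟩ := spec _ hC0
  set P := P₀ * V with hP
  have hPB : Pᴴ * B * P = 1 := by
    have : Pᴴ * B * P = Vᴴ * (P₀ᴴ * B * P₀) * V := by
      simp only [hP, Matrix.conjTranspose_mul, Matrix.mul_assoc]
    rw [this, h1, Matrix.mul_one, hV]
  have hPC : Pᴴ * C * P = Matrix.diagonal (fun i => (μ i : ℂ)) := by
    rw [← hμ]
    simp only [hP, Matrix.conjTranspose_mul, Matrix.mul_assoc]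
  have hPBC : Pᴴ * (B - C) * P = Matrix.diagonal (fun i => ((1 - μ i : ℝ) : ℂ)) := by
    rw [Matrix.mul_sub, Matrix.sub_mul, hPB, hPC, ← Matrix.diagonal_one, Matrix.diagonal_sub]
    congr 1
    funext i
    push_cast
    rfl
  have hμ0 : ∀ i, 0 ≤ μ i := by
    intro i
    have h2 := hC.dotProduct_mulVec_nonneg (fun a => P a i)
    rw [← quad, hPC, Matrix.diagonal_apply_eq] at h2
    exact_mod_cast h2
  have hμ1 : ∀ i, μ i ≤ 1 := by
    intro i
    have h2 := hBC.dotProduct_mulVec_nonneg (fun a => P a i)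
    rw [← quad, hPBC, Matrix.diagonal_apply_eq] at h2
    have h3 : (0 : ℝ) ≤ 1 - μ i := by exact_mod_cast h2
    linarith
  have hsum : ∑ i, μ i ≤ τ := by
    have h2 := hp (fun i a => P a i) (by
      intro i j
      rw [← quad, hPB, Matrix.one_apply])
    refine le_trans (le_of_eq ?_) h2
    refine Finset.sum_congr rfl fun i _ => ?_
    rw [← quad, hPC, Matrix.diagonal_apply_eq, Complex.ofReal_re]
  -- determinants
  have hd1 : (Pᴴ).det * B.det * P.det = 1 := by
    rw [← Matrix.det_mul, ← Matrix.det_mul, hPB, Matrix.det_one]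
  have hd2 : (Pᴴ).det * (B - C).det * P.det = ((∏ i, (1 - μ i) : ℝ) : ℂ) := by
    rw [← Matrix.det_mul, ← Matrix.det_mul, hPBC, Matrix.det_diagonal]
    push_cast
    rfl
  have hBp := hB.det_pos
  have hBre : (((B.det).re : ℝ) : ℂ) = B.det := by
    apply Complex.ext
    · simp
    · simpa using (Complex.pos_iff.1 hBp).2
  have hBrp : 0 < (B.det).re := (Complex.pos_iff.1 hBp).1
  have hBC' : (B - C).det = B.det * ((∏ i, (1 - μ i) : ℝ) : ℂ) := by
    rw [← hd2]
    linear_combination (-(B - C).det) * hd1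
  rw [hBC', ← hBre, ← Complex.ofReal_mul, Complex.ofReal_re, Complex.ofReal_re]
  have h4 := one_sub_sum_le Finset.univ μ hμ0 hμ1
  have h5 : 1 - τ ≤ ∏ i, (1 - μ i) := by linarith
  nlinarith

theorem la2 : R59.SP.S_LA2 := by
  intro N A δ hδ hA hq
  obtain ⟨U, a, hU, ha⟩ := spec A hA.isHermitian
  have h0 : ∀ i, 0 ≤ a i := by
    intro i
    have h2 := hA.dotProduct_mulVec_nonneg (fun k => U k i)
    rw [← quad, ha, Matrix.diagonal_apply_eq] at h2
    exact_mod_cast h2
  have h1 : ∀ i, a i ≤ 1 - δ := by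
    intro i
    have h2 := hq (fun k => U k i)
    rw [← quad, ha, Matrix.diagonal_apply_eq, Complex.ofReal_re] at h2
    have h3 : ∑ k, ‖U k i‖ ^ 2 = 1 := by
      have h4 := congrFun (congrFun hU i) i
      rw [Matrix.mul_apply, Matrix.one_apply_eq] at h4
      have h5 : ∀ k, Uᴴ i k * U k i = ((‖U k i‖ ^ 2 : ℝ) : ℂ) := by
        intro k
        rw [Matrix.conjTranspose_apply, mul_comm]
        simpa using Complex.mul_conj' (U k i)
      rw [Finset.sum_congr rfl fun k _ => h5 k, ← Complex.ofReal_sum] at h4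
      exact_mod_cast h4
    rw [h3, mul_one] at h2
    exact h2
  have hdet : (1 - A).det = ((∏ i, (1 - a i) : ℝ) : ℂ) := by
    have h2 : Uᴴ * (1 - A) * U = Matrix.diagonal (fun i => ((1 - a i : ℝ) : ℂ)) := by
      rw [Matrix.mul_sub, Matrix.sub_mul, ha, Matrix.mul_one, hU, ← Matrix.diagonal_one,
        Matrix.diagonal_sub]
      congr 1
      funext i
      push_cast
      rfl
    have h3 : (Uᴴ).det * U.det = 1 := by
      rw [← Matrix.det_mul, hU, Matrix.det_one]
    have h4 : (Uᴴ).det * (1 - A).det * U.det = ((∏ i, (1 - a i) : ℝ) : ℂ) := by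
      rw [← Matrix.det_mul, ← Matrix.det_mul, h2, Matrix.det_diagonal]
      push_cast
      rfl
    rw [← h4]
    linear_combination (-(1 - A).det) * h3
  have htr : A.trace = ((∑ i, a i : ℝ) : ℂ) := by
    have hU' : U * Uᴴ = 1 := mul_eq_one_comm.1 hU
    have h2 : (Uᴴ * A * U).trace = A.trace := by
      rw [Matrix.trace_mul_comm, ← Matrix.mul_assoc, hU', Matrix.one_mul]
    rw [← h2, ha, Matrix.trace_diagonal]
    push_cast
    rfl
  rw [hdet, htr, Complex.ofReal_re, Complex.ofReal_re]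
  have h6 : Real.exp (-(∑ i, a i) / δ) = ∏ i, Real.exp (-(a i) / δ) := by
    rw [← Real.exp_sum, ← Finset.sum_div, Finset.sum_neg_distrib]
  rw [h6]
  refine Finset.prod_le_prod (fun i _ => (Real.exp_pos _).le) fun i _ => ?_
  have h7 : δ ≤ 1 - a i := by linarith [h1 i]
  have h8 : 0 < 1 - a i := lt_of_lt_of_le hδ h7
  -- exp(-a/δ) ≤ exp(-a/(1-a)) ≤ 1 - a
  have h9 : Real.exp (-(a i) / δ) ≤ Real.exp (-(a i) / (1 - a i)) := by
    apply Real.exp_le_exp.2
    rw [neg_div, neg_div, neg_le_neg_iff]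
    exact div_le_div_of_nonneg_left (h0 i) hδ h7
  refine h9.trans ?_
  rw [← Real.le_log_iff_exp_le h8]
  have h10 := Real.one_sub_inv_le_log_of_pos h8
  refine le_trans (le_of_eq ?_) h10
  field_simp
  ring

end R961.SPLA
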