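import Pool.Agent.R974.AT.Defs

/-!
# AT-MJOINT (MP_097655_pr): joint measurability of `h ∈ Sp`
-/

set_option autoImplicit false

open MeasureTheory ProbabilityTheory Filter Topology Set
open scoped ENNReal NNReal

universe u

namespace R961.AT_MJOINT

open R974.AT
open Pool.Agent.R974.Span (GBM dq mx dense_dq)

theorem mem_iff {w : ℝ≥0 → ℝ} (hw : Continuous w) (t : ℝ≥0) (h : ℝ) :
    h ∈ Sp w t ↔ (0 ≤ h ∧ h ≤ t) ∧ ∀ k : ℕ, ∃ n : ℕ,
      |w (min (dq n) (t - h.toNNReal) + h.toNNReal) - w (min (dq n) (t - h.toNNReal))| <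
        1 / ((k : ℝ) + 1) := by
  constructor
  · rintro ⟨s, u, h1, h2, h3, h4⟩
    have h1' : (s : ℝ) ≤ u := by exact_mod_cast h1
    have h2' : (u : ℝ) ≤ t := by exact_mod_cast h2
    have hs0 : (0 : ℝ) ≤ s := s.2
    have h0 : 0 ≤ h := by rw [h4]; linarith
    refine ⟨⟨h0, by rw [h4]; linarith⟩, ?_⟩
    have hh : s + h.toNNReal = u := by
      rw [← NNReal.coe_inj, NNReal.coe_add, Real.coe_toNNReal _ h0, h4]
      ring
    have hs : s ≤ t - h.toNNReal := by
      apply le_tsub_of_add_le_right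
      rw [hh]
      exact h2
    intro k
    have hc : Continuous (fun z : ℝ≥0 =>
        |w (min z (t - h.toNNReal) + h.toNNReal) - w (min z (t - h.toNNReal))|) := by
      have hm : Continuous (fun z : ℝ≥0 => min z (t - h.toNNReal)) :=
        continuous_id.min continuous_const
      exact ((hw.comp (hm.add continuous_const)).sub (hw.comp hm)).abs
    have hopen : IsOpen {z : ℝ≥0 |
        |w (min z (t - h.toNNReal) + h.toNNReal) - w (min z (t - h.toNNReal))| <
          1 / ((k : ℝ) + 1)} := isOpen_lt hc continuous_const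
    have hne : s ∈ {z : ℝ≥0 |
        |w (min z (t - h.toNNReal) + h.toNNReal) - w (min z (t - h.toNNReal))| <
          1 / ((k : ℝ) + 1)} := by
      show |w (min s (t - h.toNNReal) + h.toNNReal) - w (min s (t - h.toNNReal))| <
          1 / ((k : ℝ) + 1)
      rw [min_eq_left hs, hh, h3, sub_self, abs_zero]
      positivity
    obtain ⟨n, hn⟩ := dense_dq.exists_mem_open hopen ⟨s, hne⟩
    exact ⟨n, hn⟩
  · rintro ⟨⟨h0, h1⟩, h2⟩
    have hc : Continuous (fun z : ℝ≥0 => |w (z + h.toNNReal) - w z|) :=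
      ((hw.comp (continuous_id.add continuous_const)).sub hw).abs
    obtain ⟨s, hs, hmin⟩ := (isCompact_Icc (a := (0 : ℝ≥0)) (b := t - h.toNNReal)).exists_isMinOn
      ⟨0, ⟨le_rfl, zero_le⟩⟩ hc.continuousOn
    have hle : |w (s + h.toNNReal) - w s| ≤ 0 := by
      apply le_of_forall_pos_lt_add
      intro ε hε
      obtain ⟨k, hk⟩ := exists_nat_one_div_lt hε
      obtain ⟨n, hn⟩ := h2 k
      have h3 : min (dq n) (t - h.toNNReal) ∈ Icc (0 : ℝ≥0) (t - h.toNNReal) :=
        ⟨zero_le, min_le_right _ _⟩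
      have h4 := (isMinOn_iff.1 hmin) _ h3
      linarith
    have heq : w (s + h.toNNReal) = w s := by
      have := abs_eq_zero.1 (le_antisymm hle (abs_nonneg _))
      linarith
    have hht : h.toNNReal ≤ t := by
      rw [Real.toNNReal_le_iff_le_coe]
      exact h1
    refine ⟨s, s + h.toNNReal, le_self_add, ?_, heq.symm, ?_⟩
    · calc s + h.toNNReal ≤ (t - h.toNNReal) + h.toNNReal := by gcongr; exact hs.2
        _ = t := tsub_add_cancel_of_le hht
    · rw [NNReal.coe_add, Real.coe_toNNReal _ h0]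
      ring

theorem mjoint : S_MJOINT.{u} := by
  intro Ω _ B hBm hBc t
  have hset : {q : ℝ × Ω | q.1 ∈ Sp (fun s => B s q.2) t} =
      {q : ℝ × Ω | 0 ≤ q.1} ∩ {q : ℝ × Ω | q.1 ≤ t} ∩ ⋂ k : ℕ, ⋃ n : ℕ,
        {q : ℝ × Ω | |B (min (dq n) (t - q.1.toNNReal) + q.1.toNNReal) q.2 -
          B (min (dq n) (t - q.1.toNNReal)) q.2| < 1 / ((k : ℝ) + 1)} := by
    ext q
    have h1 := mem_iff (hBc q.2) t q.1
    simp only [Set.mem_inter_iff, Set.mem_iInter, Set.mem_iUnion, Set.mem_ofPred_eq]
    exact h1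
  rw [hset]
  have hB : Measurable (Function.uncurry B) :=
    measurable_uncurry_of_continuous_of_measurable hBc hBm
  refine ((measurableSet_le measurable_const measurable_fst).inter
    (measurableSet_le measurable_fst measurable_const)).inter ?_
  refine MeasurableSet.iInter fun k => MeasurableSet.iUnion fun n => ?_
  have hg : Measurable (fun q : ℝ × Ω => min (dq n) (t - q.1.toNNReal)) := by
    have h1 : Continuous (fun x : ℝ => min (dq n) (t - x.toNNReal)) :=
      continuous_const.min (continuous_const.sub continuous_real_toNNReal)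
    exact h1.measurable.comp measurable_fst
  have hg2 : Measurable (fun q : ℝ × Ω => min (dq n) (t - q.1.toNNReal) + q.1.toNNReal) :=
    hg.add (measurable_real_toNNReal.comp measurable_fst)
  have hf1 : Measurable (fun q : ℝ × Ω => B (min (dq n) (t - q.1.toNNReal)) q.2) :=
    hB.comp (hg.prodMk measurable_snd)
  have hf2 : Measurable (fun q : ℝ × Ω =>
      B (min (dq n) (t - q.1.toNNReal) + q.1.toNNReal) q.2) :=
    hB.comp (hg2.prodMk measurable_snd)
  exact measurableSet_lt (hf2.sub hf1).abs measurable_const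

end R961.AT_MJOINT
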