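import Pool.Agent.R974.AT.Defs

/-!
# AT-SCL (MP_097655_pr): Brownian scaling of the span set functionals
-/

set_option autoImplicit false

open MeasureTheory ProbabilityTheory Filter Topology Set
open scoped ENNReal NNReal Pointwise

universe u

namespace R961.AT_SCL

open R974.AT
open Pool.Agent.R974.Span (GBM dq mx)

theorem scl_eq_iff {a : ℝ≥0} (ha : 0 < a) (w : ℝ≥0 → ℝ) (s u : ℝ≥0) :
    scl a w s = scl a w u ↔ w (a * s) = w (a * u) := by
  have h1 : (√(a : ℝ))⁻¹ ≠ 0 := inv_ne_zero (Real.sqrt_pos.2 (by exact_mod_cast ha)).ne'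
  unfold scl
  exact mul_right_inj' h1

theorem Sp_scl {a : ℝ≥0} (ha : 0 < a) (w : ℝ≥0 → ℝ) (t : ℝ≥0) (h : ℝ) :
    h ∈ Sp (scl a w) t ↔ (a : ℝ) * h ∈ Sp w (a * t) := by
  have haR : (a : ℝ) ≠ 0 := by exact_mod_cast ha.ne'
  constructor
  · rintro ⟨s, u, h1, h2, h3, h4⟩
    refine ⟨a * s, a * u, mul_le_mul_right h1 a, mul_le_mul_right h2 a,
      (scl_eq_iff ha w s u).1 h3, ?_⟩
    rw [h4]
    push_cast
    ring
  · rintro ⟨s, u, h1, h2, h3, h4⟩
    have e1 : a * (s / a) = s := mul_div_cancel₀ s ha.ne'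
    have e2 : a * (u / a) = u := mul_div_cancel₀ u ha.ne'
    refine ⟨s / a, u / a, ?_, ?_, ?_, ?_⟩
    · gcongr
    · rw [div_le_iff₀ ha, mul_comm]
      exact h2
    · rw [scl_eq_iff ha, e1, e2]
      exact h3
    · push_cast
      field_simp
      linarith

theorem Exc_scl {a : ℝ≥0} (ha : 0 < a) (w : ℝ≥0 → ℝ) (t : ℝ≥0) (l : ℝ) :
    l ∈ Exc (scl a w) t ↔ (a : ℝ) * l ∈ Exc w (a * t) := by
  have haR : (a : ℝ) ≠ 0 := by exact_mod_cast ha.ne'
  have hc : ∀ x : ℝ≥0, a * (x / a) = x := fun x => mul_div_cancel₀ x ha.ne'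
  constructor
  · rintro ⟨p, q, h1, h2, h3, h4, h5⟩
    refine ⟨a * p, a * q, (mul_lt_mul_iff_right₀ ha).2 h1, mul_le_mul_right h2 a,
      (scl_eq_iff ha w p q).1 h3, ?_, ?_⟩
    · intro u hu1 hu2 heq
      refine h4 (u / a) ?_ ?_ ?_
      · rw [lt_div_iff₀ ha, mul_comm]
        exact hu1
      · rw [div_lt_iff₀ ha, mul_comm]
        exact hu2
      · rw [scl_eq_iff ha, hc]
        exact heq
    · rw [h5]
      push_cast
      ring
  · rintro ⟨p, q, h1, h2, h3, h4, h5⟩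
    refine ⟨p / a, q / a, ?_, ?_, ?_, ?_, ?_⟩
    · rw [div_lt_div_iff_of_pos_right ha]
      exact h1
    · rw [div_le_iff₀ ha, mul_comm]
      exact h2
    · rw [scl_eq_iff ha, hc, hc]
      exact h3
    · intro u hu1 hu2 heq
      rw [scl_eq_iff ha, hc] at heq
      refine h4 (a * u) ?_ ?_ heq
      · rw [div_lt_iff₀ ha, mul_comm] at hu1
        exact hu1
      · rw [lt_div_iff₀ ha, mul_comm] at hu2
        exact hu2
    · push_cast
      field_simp
      linarith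

theorem pre_eq {a : ℝ} (ha : 0 < a) (S T : Set ℝ) (h : ∀ x, x ∈ S ↔ a * x ∈ T) :
    S = a⁻¹ • T := by
  ext x
  rw [h x, Set.mem_smul_set_iff_inv_smul_mem₀ (inv_ne_zero ha.ne'), inv_inv, smul_eq_mul]

theorem scl_main : S_SCL.{u} := by
  refine ⟨?_, ?_⟩
  · intro Ω _ P B hB a ha
    refine ⟨hB.pre.smul ha.ne', ?_, ?_, ?_⟩
    · intro t
      exact (hB.meas (a * t)).const_mul _
    · intro ω
      show Continuous (fun t => (√(a : ℝ))⁻¹ * B (a * t) ω)
      exact continuous_const.mul ((hB.cont ω).comp (continuous_const.mul continuous_id))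
    · intro ω
      show (√(a : ℝ))⁻¹ * B (a * 0) ω = 0
      rw [mul_zero, hB.zero, mul_zero]
  · intro w a t ha
    have haR : (0 : ℝ) < a := by exact_mod_cast ha
    have hinv : (0 : ℝ) ≤ (a : ℝ)⁻¹ := (inv_pos.2 haR).le
    refine ⟨?_, ?_, ?_⟩
    · have h1 : Sp (scl a w) t = (fun x => (a : ℝ) * x) ⁻¹' Sp w (a * t) := by
        ext h
        exact Sp_scl ha w t h
      unfold SS
      rw [h1, Real.volume_preimage_mul_left haR.ne', ENNReal.toReal_mul,
        ENNReal.toReal_ofReal (abs_nonneg _), abs_of_nonneg hinv, div_eq_inv_mul]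
    · have h1 : {h : ℝ | 0 < h ∧ h ∉ Sp (scl a w) t} =
          (a : ℝ)⁻¹ • {h : ℝ | 0 < h ∧ h ∉ Sp w (a * t)} := by
        apply pre_eq haR
        intro x
        show (0 < x ∧ x ∉ Sp (scl a w) t) ↔ (0 < (a : ℝ) * x ∧ (a : ℝ) * x ∉ Sp w (a * t))
        rw [Sp_scl ha w t x, mul_pos_iff_of_pos_left haR]
      unfold TT
      rw [h1, Real.sInf_smul_of_nonneg hinv, smul_eq_mul, div_eq_inv_mul]
    · have h1 : Exc (scl a w) t = (a : ℝ)⁻¹ • Exc w (a * t) := by
        apply pre_eq haR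
        intro x
        exact Exc_scl ha w t x
      unfold RR
      rw [h1, Real.sSup_smul_of_nonneg hinv, smul_eq_mul, div_eq_inv_mul]

end R961.AT_SCL
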