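import Mathlib

/-!
# A parity form of planar duality in a rectangle

Edges of the grid are indexed by `(i, j, true)` (horizontal, from `(i, j)` to `(i + 1, j)`) and
`(i, j, false)` (vertical, from `(i, j)` to `(i, j + 1)`). If a set `S` of vertices contains `(0, 0)`
and avoids the right side of the rectangle `[0, l] × [0, H]`, then a self-avoiding chain of edges
of the boundary of `S`, consecutive ones sharing a unit square, joins the bottom side to the left
side or to the top side.
-/

set_option autoImplicit false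

namespace Pool.Agent.R961

/-- Index type of the edges. -/
abbrev Ed := ℕ × ℕ × Bool

/-- The edge `e` belongs to the unit square with lower left corner `(i, j)`. -/
def inP (i j : ℕ) (e : Ed) : Prop :=
  e = (i, j, true) ∨ e = (i, j + 1, true) ∨ e = (i, j, false) ∨ e = (i + 1, j, false)

/-- The at most six edges sharing a unit square with `e`. -/
def nbrs : Ed → Finset Ed
  | (i, j, true) => {(i, j + 1, true), (i, j, false), (i + 1, j, false), (i, j - 1, true),
      (i, j - 1, false), (i + 1, j - 1, false)}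
  | (i, j, false) => {(i, j, true), (i, j + 1, true), (i + 1, j, false), (i - 1, j, true),
      (i - 1, j + 1, true), (i - 1, j, false)}

theorem card_nbrs (e : Ed) : (nbrs e).card ≤ 6 := by
  obtain ⟨i, j, b⟩ := e
  cases b
  · exact Finset.card_le_six
  · exact Finset.card_le_six

theorem mem_nbrs {e e' : Ed} (hne : e ≠ e') (h : ∃ i j, inP i j e ∧ inP i j e') :
    e' ∈ nbrs e := by
  obtain ⟨i, j, h1, h2⟩ := h
  rcases h1 with rfl | rfl | rfl | rfl <;> rcases h2 with rfl | rfl | rfl | rfl <;>
    first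
    | exact absurd rfl hne
    | simp [nbrs]

theorem nbrs_close {e e' : Ed} (h : ∃ i j, inP i j e ∧ inP i j e') :
    e.1 ≤ e'.1 + 1 ∧ e'.2.1 ≤ e.2.1 + 1 := by
  obtain ⟨i, j, h1, h2⟩ := h
  rcases h1 with rfl | rfl | rfl | rfl <;> rcases h2 with rfl | rfl | rfl | rfl <;>
    constructor <;> simp <;> omega

/-- Chains of edges of length `m + 1` starting from `e`. -/
def chains : Ed → ℕ → Finset (List Ed)
  | e, 0 => {[e]}
  | e, m + 1 => (nbrs e).biUnion fun e' => (chains e' m).image (List.cons e)

theorem card_chains (e : Ed) (m : ℕ) : (chains e m).card ≤ 6 ^ m := by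
  induction m generalizing e with
  | zero => simp [chains]
  | succ m ih =>
    rw [chains]
    refine Finset.card_biUnion_le.trans ?_
    calc ∑ e' ∈ nbrs e, ((chains e' m).image (List.cons e)).card
        ≤ ∑ _e' ∈ nbrs e, 6 ^ m := Finset.sum_le_sum fun e' _ => Finset.card_image_le.trans (ih e')
      _ = (nbrs e).card * 6 ^ m := by simp
      _ ≤ 6 * 6 ^ m := Nat.mul_le_mul_right _ (card_nbrs e)
      _ = 6 ^ (m + 1) := by ring

theorem length_chains {e : Ed} {m : ℕ} {l : List Ed} (h : l ∈ chains e m) : l.length = m + 1 := by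
  induction m generalizing e l with
  | zero =>
    simp only [chains, Finset.mem_singleton] at h
    subst h; rfl
  | succ m ih =>
    simp only [chains, Finset.mem_biUnion, Finset.mem_image] at h
    obtain ⟨e', _, l', hl', rfl⟩ := h
    rw [List.length_cons, ih hl']

section Rect

variable (l H : ℕ)

/-- The edges of the rectangle `[0, l] × [0, H]`, those of the right side excluded. -/
def InR : Ed → Prop
  | (i, j, true) => i < l ∧ j ≤ H
  | (i, j, false) => i < l ∧ j < H

variable (S : ℕ → ℕ → Prop)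

/-- The edges of the boundary of `S` in the rectangle. -/
def Dl : Ed → Prop
  | (i, j, true) => (i < l ∧ j ≤ H) ∧ ¬ (S i j ↔ S (i + 1) j)
  | (i, j, false) => (i < l ∧ j < H) ∧ ¬ (S i j ↔ S i (j + 1))

/-- Two boundary edges are adjacent when they share a unit square. -/
def Ga : SimpleGraph Ed where
  Adj e e' := e ≠ e' ∧ (∃ i j, inP i j e ∧ inP i j e') ∧ Dl l H S e ∧ Dl l H S e'
  symm := ⟨fun _ _ h => ⟨h.1.symm, (by obtain ⟨i, j, h1, h2⟩ := h.2.1; exact ⟨i, j, h2, h1⟩),
    h.2.2.2, h.2.2.1⟩⟩
  loopless := ⟨fun _ h => h.1 rfl⟩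

/-- The boundary edges joined to the bottom side. -/
def Bp (e : Ed) : Prop :=
  Dl l H S e ∧ ∃ i, i < l ∧ Dl l H S (i, 0, true) ∧ (Ga l H S).Reachable (i, 0, true) e

theorem Bp_of_share {e e' : Ed} (h : ∃ i j, inP i j e ∧ inP i j e') (he : Bp l H S e)
    (hd : Dl l H S e') : Bp l H S e' := by
  by_cases hne : e = e'
  · rw [← hne]; exact he
  · obtain ⟨hd', i, hi, hi', hr⟩ := he
    exact ⟨hd, i, hi, hi', hr.trans (SimpleGraph.Adj.reachable ⟨hne, h, hd', hd⟩)⟩

open Classical in
/-- Indicator in `ZMod 2`. -/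
noncomputable def ind (P : Prop) : ZMod 2 := if P then 1 else 0

theorem ind_not_iff (P Q : Prop) : ind (¬ (P ↔ Q)) = ind P + ind Q := by
  unfold ind
  by_cases hP : P <;> by_cases hQ : Q <;> simp [hP, hQ] <;> decide

theorem ind_false {P : Prop} (h : ¬ P) : ind P = 0 := by
  unfold ind; rw [if_neg h]

theorem ind_true {P : Prop} (h : P) : ind P = 1 := by
  unfold ind; rw [if_pos h]

theorem two_zero (x : ZMod 2) : x + x = 0 := by
  have : ∀ x : ZMod 2, x + x = 0 := by decide
  exact this x

theorem tele (f : ℕ → ZMod 2) (n : ℕ) :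
    ∑ j ∈ Finset.range n, (f j + f (j + 1)) = f 0 + f n := by
  induction n with
  | zero => simp [two_zero]
  | succ n ih =>
    rw [Finset.sum_range_succ, ih]
    calc f 0 + f n + (f n + f (n + 1)) = f 0 + (f n + f n) + f (n + 1) := by ring
      _ = f 0 + f (n + 1) := by rw [two_zero]; ring

variable {l H S}

theorem plaq_zero (hR : ∀ j, j ≤ H → ¬ S l j) {i j : ℕ} (hi : i < l) (hj : j < H) :
    ind (Bp l H S (i, j, true)) + ind (Bp l H S (i, j + 1, true)) +
      (ind (Bp l H S (i, j, false)) + ind (Bp l H S (i + 1, j, false))) = 0 := by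
  by_cases hex : ∃ e, inP i j e ∧ Bp l H S e
  · obtain ⟨e, he, hB⟩ := hex
    have key : ∀ e', inP i j e' → (Bp l H S e' ↔ Dl l H S e') := fun e' he' =>
      ⟨fun h => h.1, fun h => Bp_of_share l H S ⟨i, j, he, he'⟩ hB h⟩
    rw [key _ (Or.inl rfl), key _ (Or.inr (Or.inl rfl)), key _ (Or.inr (Or.inr (Or.inl rfl))),
      key _ (Or.inr (Or.inr (Or.inr rfl)))]
    have e1 : ind (Dl l H S (i, j, true)) = ind (S i j) + ind (S (i + 1) j) := by
      rw [← ind_not_iff]
      congr 1
      exact propext ⟨fun h => h.2, fun h => ⟨⟨hi, hj.le⟩, h⟩⟩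
    have e2 : ind (Dl l H S (i, j + 1, true)) = ind (S i (j + 1)) + ind (S (i + 1) (j + 1)) := by
      rw [← ind_not_iff]
      congr 1
      exact propext ⟨fun h => h.2, fun h => ⟨⟨hi, hj⟩, h⟩⟩
    have e3 : ind (Dl l H S (i, j, false)) = ind (S i j) + ind (S i (j + 1)) := by
      rw [← ind_not_iff]
      congr 1
      exact propext ⟨fun h => h.2, fun h => ⟨⟨hi, hj⟩, h⟩⟩
    have e4 : ind (Dl l H S (i + 1, j, false)) = ind (S (i + 1) j) + ind (S (i + 1) (j + 1)) := by
      rcases Nat.lt_or_ge (i + 1) l with h | h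
      · rw [← ind_not_iff]
        congr 1
        exact propext ⟨fun h => h.2, fun h' => ⟨⟨h, hj⟩, h'⟩⟩
      · have hl : i + 1 = l := by omega
        rw [hl, ind_false (hR j hj.le), ind_false (hR (j + 1) hj), ind_false, add_zero]
        intro h'
        exact absurd h'.1.1 (lt_irrefl _)
    rw [e1, e2, e3, e4]
    generalize ind (S i j) = a
    generalize ind (S (i + 1) j) = b
    generalize ind (S i (j + 1)) = c
    generalize ind (S (i + 1) (j + 1)) = d
    revert a b c d
    decide
  · have hn : ∀ e, inP i j e → ind (Bp l H S e) = 0 := fun e he =>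
      ind_false fun h => hex ⟨e, he, h⟩
    rw [hn _ (Or.inl rfl), hn _ (Or.inr (Or.inl rfl)), hn _ (Or.inr (Or.inr (Or.inl rfl))),
      hn _ (Or.inr (Or.inr (Or.inr rfl)))]
    simp

theorem exists_end (h0 : S 0 0) (hR : ∀ j, j ≤ H → ¬ S l j) :
    (∃ j, Bp l H S (0, j, false)) ∨ (∃ i, Bp l H S (i, H, true)) := by
  by_contra hcon
  push Not at hcon
  obtain ⟨hL, hT⟩ := hcon
  have h1 : ∑ i ∈ Finset.range l, ∑ j ∈ Finset.range H,
      (ind (Bp l H S (i, j, true)) + ind (Bp l H S (i, j + 1, true)) +
      (ind (Bp l H S (i, j, false)) + ind (Bp l H S (i + 1, j, false)))) = 0 := by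
    refine Finset.sum_eq_zero fun i hi => Finset.sum_eq_zero fun j hj => ?_
    exact plaq_zero hR (Finset.mem_range.1 hi) (Finset.mem_range.1 hj)
  have h2 : ∑ i ∈ Finset.range l, ∑ j ∈ Finset.range H,
      (ind (Bp l H S (i, j, true)) + ind (Bp l H S (i, j + 1, true))) =
      ∑ i ∈ Finset.range l, ind (Bp l H S (i, 0, true)) := by
    refine Finset.sum_congr rfl fun i _ => ?_
    rw [tele (fun j => ind (Bp l H S (i, j, true))), ind_false (hT i), add_zero]
  have h3 : ∑ i ∈ Finset.range l, ∑ j ∈ Finset.range H,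
      (ind (Bp l H S (i, j, false)) + ind (Bp l H S (i + 1, j, false))) = 0 := by
    rw [Finset.sum_comm]
    refine Finset.sum_eq_zero fun j _ => ?_
    rw [tele (fun i => ind (Bp l H S (i, j, false))), ind_false (hL j), zero_add]
    exact ind_false fun h => absurd h.1.1.1 (lt_irrefl _)
  have h4 : ∑ i ∈ Finset.range l, ind (Bp l H S (i, 0, true)) = 1 := by
    have : ∀ i ∈ Finset.range l, ind (Bp l H S (i, 0, true)) = ind (S i 0) + ind (S (i + 1) 0) := by
      intro i hi
      rw [← ind_not_iff]
      congr 1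
      refine propext ⟨fun h => h.1.2, fun h => ?_⟩
      have hd : Dl l H S (i, 0, true) := ⟨⟨Finset.mem_range.1 hi, Nat.zero_le _⟩, h⟩
      exact ⟨hd, i, Finset.mem_range.1 hi, hd, SimpleGraph.Reachable.refl _⟩
    rw [Finset.sum_congr rfl this, tele (fun i => ind (S i 0)), ind_true h0,
      ind_false (hR 0 (Nat.zero_le _)), add_zero]
  have h5 : (1 : ZMod 2) = 0 := by
    calc (1 : ZMod 2) = 1 + 0 := by ring
      _ = _ := by rw [← h4, ← h2, ← h3, ← Finset.sum_add_distrib]
      _ = ∑ i ∈ Finset.range l, ∑ j ∈ Finset.range H,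
      (ind (Bp l H S (i, j, true)) + ind (Bp l H S (i, j + 1, true)) +
      (ind (Bp l H S (i, j, false)) + ind (Bp l H S (i + 1, j, false)))) := by
            refine Finset.sum_congr rfl fun i _ => ?_
            rw [← Finset.sum_add_distrib]
      _ = 0 := h1
  exact absurd h5 (by decide)

theorem walk_close {u v : Ed} (w : (Ga l H S).Walk u v) :
    u.1 ≤ v.1 + w.length ∧ v.2.1 ≤ u.2.1 + w.length := by
  induction w with
  | nil => simp
  | cons h w ih =>
    rw [SimpleGraph.Walk.length_cons]
    have := nbrs_close h.2.1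
    omega

theorem walk_take {u v : Ed} (w : (Ga l H S).Walk u v) {m : ℕ} (hm : m ≤ w.length) :
    w.support.take (m + 1) ∈ chains u m := by
  induction w generalizing m with
  | nil =>
    have : m = 0 := by simpa using hm
    subst this
    simp [chains]
  | @cons a b c h w ih =>
    cases m with
    | zero => simp [chains]
    | succ m =>
      rw [SimpleGraph.Walk.length_cons] at hm
      rw [SimpleGraph.Walk.support_cons, List.take_succ_cons, chains, Finset.mem_biUnion]
      exact ⟨b, mem_nbrs h.1 h.2.1, Finset.mem_image.2 ⟨_, ih (by omega), rfl⟩⟩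

theorem walk_Dl {u v : Ed} (hu : Dl l H S u) (w : (Ga l H S).Walk u v) :
    ∀ e ∈ w.support, Dl l H S e := by
  induction w with
  | nil =>
    intro e he
    rw [SimpleGraph.Walk.support_nil, List.mem_singleton] at he
    rw [he]; exact hu
  | cons h w ih =>
    intro e he
    rw [SimpleGraph.Walk.support_cons, List.mem_cons] at he
    rcases he with rfl | he
    · exact hu
    · exact ih h.2.2.2 e he

/-- Duality: a self-avoiding chain of boundary edges starting at the bottom side. -/
theorem exists_chain (h0 : S 0 0) (hR : ∀ j, j ≤ H → ¬ S l j) :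
    ∃ i, i < l ∧ ∃ L ∈ chains (i, 0, true) (min i H), L.Nodup ∧ ∀ e ∈ L, Dl l H S e := by
  obtain ⟨e, i, hi, hd, hr, hlen⟩ : ∃ e : Ed, ∃ i, i < l ∧ Dl l H S (i, 0, true) ∧
      (Ga l H S).Reachable (i, 0, true) e ∧
      (∀ w : (Ga l H S).Walk (i, 0, true) e, min i H ≤ w.length) := by
    rcases exists_end h0 hR with ⟨j, hB⟩ | ⟨k, hB⟩
    · obtain ⟨_, i, hi, hd, hr⟩ := hB
      refine ⟨_, i, hi, hd, hr, fun w => ?_⟩
      have := (walk_close w).1
      simp only at this
      omega
    · obtain ⟨_, i, hi, hd, hr⟩ := hB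
      refine ⟨_, i, hi, hd, hr, fun w => ?_⟩
      have := (walk_close w).2
      simp only at this
      omega
  classical
  obtain ⟨w⟩ := hr
  refine ⟨i, hi, w.toPath.1.support.take (min i H + 1), walk_take _ (hlen _), ?_, ?_⟩
  · exact w.toPath.2.support_nodup.sublist (List.take_sublist _ _)
  · intro e' he'
    exact walk_Dl hd _ e' (List.mem_of_mem_take he')

end Rect

end Pool.Agent.R961
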