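import Pool.Agent.R961.Prob
import Pool.Agent.R961.Dual

/-!
# Paths in the cylinder `ℤ × ZMod b`

A configuration is `ω : ℤ → ZMod b → Bool → Bool`; `ω i y true` is the state of the edge from
`(i, y)` to `(i + 1, y)` and `ω i y false` that of the edge from `(i, y)` to `(i, y + 1)`.
-/

set_option autoImplicit false

namespace Pool.Agent.R961

open Relation

variable {b : ℕ}

/-- Configurations of the cylinder. -/
abbrev Cfg (b : ℕ) := ℤ → ZMod b → Bool → Bool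

/-- One step along an open edge with index `i` in `[s, t)`. -/
def Step (ω : Cfg b) (s t : ℤ) (u v : ℤ × ZMod b) : Prop :=
  ∃ i y, s ≤ i ∧ i < t ∧
    ((ω i y true = true ∧ ((u = (i, y) ∧ v = (i + 1, y)) ∨ (v = (i, y) ∧ u = (i + 1, y)))) ∨
     (ω i y false = true ∧ ((u = (i, y) ∧ v = (i, y + 1)) ∨ (v = (i, y) ∧ u = (i, y + 1)))))

/-- Open connection with edges of index in `[s, t)`. -/
def Rch (ω : Cfg b) (s t : ℤ) : ℤ × ZMod b → ℤ × ZMod b → Prop := ReflTransGen (Step ω s t)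

theorem Step.symm {ω : Cfg b} {s t : ℤ} {u v : ℤ × ZMod b} (h : Step ω s t u v) :
    Step ω s t v u := by
  obtain ⟨i, y, h1, h2, h3⟩ := h
  refine ⟨i, y, h1, h2, ?_⟩
  rcases h3 with ⟨h3, h4⟩ | ⟨h3, h4⟩
  · exact Or.inl ⟨h3, h4.symm⟩
  · exact Or.inr ⟨h3, h4.symm⟩

theorem Rch.symm {ω : Cfg b} {s t : ℤ} {u v : ℤ × ZMod b} (h : Rch ω s t u v) :
    Rch ω s t v u := by
  induction h with
  | refl => exact ReflTransGen.refl
  | tail _ h2 ih => exact ReflTransGen.head h2.symm ih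

theorem Rch.trans {ω : Cfg b} {s t : ℤ} {u v w : ℤ × ZMod b} (h : Rch ω s t u v)
    (h' : Rch ω s t v w) : Rch ω s t u w := ReflTransGen.trans h h'

theorem Step.mono {ω : Cfg b} {s t s' t' : ℤ} (hs : s' ≤ s) (ht : t ≤ t') {u v : ℤ × ZMod b}
    (h : Step ω s t u v) : Step ω s' t' u v := by
  obtain ⟨i, y, h1, h2, h3⟩ := h
  exact ⟨i, y, by omega, by omega, h3⟩

theorem Rch.mono {ω : Cfg b} {s t s' t' : ℤ} (hs : s' ≤ s) (ht : t ≤ t') {u v : ℤ × ZMod b}
    (h : Rch ω s t u v) : Rch ω s' t' u v := by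
  induction h with
  | refl => exact ReflTransGen.refl
  | tail _ h2 ih => exact ih.tail (h2.mono hs ht)

theorem Step.close {ω : Cfg b} {s t : ℤ} {u v : ℤ × ZMod b} (h : Step ω s t u v) :
    v.1 ≤ u.1 + 1 := by
  obtain ⟨i, y, -, -, h3⟩ := h
  rcases h3 with ⟨-, ⟨rfl, rfl⟩ | ⟨rfl, rfl⟩⟩ | ⟨-, ⟨rfl, rfl⟩ | ⟨rfl, rfl⟩⟩ <;> simp <;> omega

/-- Discrete intermediate value theorem. -/
theorem Rch.ivt {ω : Cfg b} {s t : ℤ} {u v : ℤ × ZMod b} (h : Rch ω s t u v) {j : ℤ}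
    (h1 : u.1 ≤ j) (h2 : j ≤ v.1) : ∃ y, Rch ω s t u (j, y) ∧ Rch ω s t (j, y) v := by
  induction h with
  | refl =>
    have : u = (j, u.2) := by ext; exacts [le_antisymm h1 h2, rfl]
    refine ⟨u.2, ?_⟩
    rw [← this]
    exact ⟨ReflTransGen.refl, ReflTransGen.refl⟩
  | @tail v w h3 h4 ih =>
    rcases le_or_gt j v.1 with h5 | h5
    · obtain ⟨y, h6, h7⟩ := ih h5
      exact ⟨y, h6, h7.tail h4⟩
    · have := h4.close
      have : w = (j, w.2) := by ext; exacts [by simp only; omega, rfl]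
      refine ⟨w.2, ?_⟩
      rw [← this]
      exact ⟨h3.tail h4, ReflTransGen.refl⟩

/-- Open crossing of the slab `[s, t)`. -/
def Cross (ω : Cfg b) (s t : ℤ) : Prop := ∃ y y', Rch ω s t (s, y) (t, y')

/-- The layer `j` is fully open. -/
def Full (ω : Cfg b) (j : ℤ) : Prop := ∀ y, ω j y false = true

theorem Full.rch [NeZero b] {ω : Cfg b} {j s t : ℤ} (h : Full ω j) (hs : s ≤ j) (ht : j < t)
    (y y' : ZMod b) : Rch ω s t (j, y) (j, y') := by
  have key : ∀ n : ℕ, Rch ω s t (j, y) (j, y + n) := by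
    intro n
    induction n with
    | zero =>
      rw [Nat.cast_zero, add_zero]
      exact ReflTransGen.refl
    | succ n ih =>
      refine ih.tail ⟨j, y + n, hs, ht, Or.inr ⟨h _, Or.inl ⟨rfl, ?_⟩⟩⟩
      push_cast
      rw [add_assoc]
  have h2 := key (y' - y).val
  rw [ZMod.natCast_val, ZMod.cast_id', id, add_sub_cancel] at h2
  exact h2

/-- Gluing through a fully open layer. -/
theorem glue [NeZero b] {ω : Cfg b} {s s2 t1 t2 j : ℤ} {y y' : ZMod b}
    (h1 : Rch ω s t1 (s, y) (t1, y')) (hs : s ≤ s2) (hs2 : s2 ≤ j) (hj : j < t1) (ht : t1 ≤ t2)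
    (hf : Full ω j) (h2 : Cross ω s2 t2) : ∃ y'', Rch ω s t2 (s, y) (t2, y'') := by
  obtain ⟨y1, h3, -⟩ := h1.ivt (j := j) (by simp only; omega) (by simp only; omega)
  obtain ⟨y2, y3, h4⟩ := h2
  obtain ⟨y5, -, h5⟩ := h4.ivt (j := j) (by simp only; omega) (by simp only; omega)
  refine ⟨y3, ?_⟩
  exact (h3.mono le_rfl ht).trans ((hf.rch (by omega) (by omega) y1 y5).trans
    (h5.mono hs le_rfl))

/-- A long path crosses the slabs in between. -/
theorem cross_of_rch {ω : Cfg b} {s t s' t' : ℤ} {u v : ℤ × ZMod b} (h : Rch ω s t u v)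
    (hu : u.1 ≤ s') (hst : s' < t') (hv : t' ≤ v.1) : Cross ω s' t' := by
  have key : ∀ w : ℤ × ZMod b, Rch ω s t u w →
      Cross ω s' t' ∨ w.1 ≤ s' ∨ (s' ≤ w.1 ∧ w.1 < t' ∧ ∃ z, Rch ω s' t' (s', z) w) := by
    intro w hw
    induction hw with
    | refl => exact Or.inr (Or.inl hu)
    | @tail v w h3 h4 ih =>
      have h5 : ∀ v w : ℤ × ZMod b, Step ω s t v w → s' ≤ v.1 → v.1 < t' →
          (∃ z, Rch ω s' t' (s', z) v) →
          Cross ω s' t' ∨ w.1 ≤ s' ∨ (s' ≤ w.1 ∧ w.1 < t' ∧ ∃ z, Rch ω s' t' (s', z) w) := by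
        clear h4 ih h3 v w
        intro v w h4 hv hv' hz
        obtain ⟨z, hz⟩ := hz
        rcases le_or_gt w.1 s' with h6 | h6
        · exact Or.inr (Or.inl h6)
        · have h7 : Step ω s' t' v w := by
            obtain ⟨i, x, hi1, hi2, hi3⟩ := h4
            refine ⟨i, x, ?_, ?_, hi3⟩
            · rcases hi3 with ⟨-, ⟨rfl, rfl⟩ | ⟨rfl, rfl⟩⟩ | ⟨-, ⟨rfl, rfl⟩ | ⟨rfl, rfl⟩⟩ <;>
                simp only at hv hv' h6 <;> omega
            · rcases hi3 with ⟨-, ⟨rfl, rfl⟩ | ⟨rfl, rfl⟩⟩ | ⟨-, ⟨rfl, rfl⟩ | ⟨rfl, rfl⟩⟩ <;>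
                simp only at hv hv' h6 <;> omega
          have h8 := h7.close
          rcases lt_or_ge w.1 t' with h9 | h9
          · exact Or.inr (Or.inr ⟨h6.le, h9, z, hz.tail h7⟩)
          · have : w = (t', w.2) := by ext; exacts [by simp only; omega, rfl]
            refine Or.inl ⟨z, w.2, ?_⟩
            rw [← this]
            exact hz.tail h7
      rcases ih with h6 | h6 | ⟨h6, h7, h8⟩
      · exact Or.inl h6
      · rcases lt_or_eq_of_le h6 with h7 | h7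
        · have := h4.close
          exact Or.inr (Or.inl (by omega))
        · refine h5 v w h4 h7.ge (by omega) ⟨v.2, ?_⟩
          have : v = (s', v.2) := by ext; exacts [h7, rfl]
          rw [← this]
          exact ReflTransGen.refl
      · exact h5 v w h4 h6 h7 h8
  rcases key _ h with h1 | h1 | ⟨h1, h2, -⟩
  · exact h1
  · omega
  · omega

theorem Cross.mono {ω : Cfg b} {s t s' t' : ℤ} (h : Cross ω s t) (hs : s ≤ s') (hst : s' < t')
    (ht : t' ≤ t) : Cross ω s' t' := by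
  obtain ⟨y, y', h⟩ := h
  exact cross_of_rch h hs hst ht

theorem Step.congr {ω ω' : Cfg b} {s t : ℤ} (hω : ∀ i, s ≤ i → i < t → ω i = ω' i)
    {u v : ℤ × ZMod b} (h : Step ω s t u v) : Step ω' s t u v := by
  obtain ⟨i, y, h1, h2, h3⟩ := h
  refine ⟨i, y, h1, h2, ?_⟩
  rw [← hω i h1 h2]
  exact h3

theorem Rch.congr {ω ω' : Cfg b} {s t : ℤ} (hω : ∀ i, s ≤ i → i < t → ω i = ω' i)
    {u v : ℤ × ZMod b} (h : Rch ω s t u v) : Rch ω' s t u v := by
  induction h with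
  | refl => exact ReflTransGen.refl
  | tail _ h2 ih => exact ih.tail (h2.congr hω)

theorem Rch.shift {ω ω' : Cfg b} {s t s' t' c : ℤ} (hω : ∀ i, s ≤ i → i < t → ω' (i + c) = ω i)
    (hs : s' ≤ s + c) (ht : t + c ≤ t')
    {u v : ℤ × ZMod b} (h : Rch ω s t u v) : Rch ω' s' t' (u.1 + c, u.2) (v.1 + c, v.2) := by
  induction h with
  | refl => exact ReflTransGen.refl
  | @tail v w _ h2 ih =>
    refine ih.tail ?_
    obtain ⟨i, y, h1, h2, h3⟩ := h2
    refine ⟨i + c, y, by omega, by omega, ?_⟩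
    rw [hω i h1 h2]
    rcases h3 with ⟨h3, ⟨rfl, rfl⟩ | ⟨rfl, rfl⟩⟩ | ⟨h3, ⟨rfl, rfl⟩ | ⟨rfl, rfl⟩⟩
    · exact Or.inl ⟨h3, Or.inl ⟨rfl, by simp only; ring_nf⟩⟩
    · exact Or.inl ⟨h3, Or.inr ⟨rfl, by simp only; ring_nf⟩⟩
    · exact Or.inr ⟨h3, Or.inl ⟨rfl, rfl⟩⟩
    · exact Or.inr ⟨h3, Or.inr ⟨rfl, rfl⟩⟩

/-- Crossing a slab needs an open horizontal edge at each position. -/
theorem Cross.horiz {ω : Cfg b} {s t : ℤ} (h : Cross ω s t) {i : ℤ} (hs : s ≤ i) (ht : i < t) :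
    ∃ y, ω i y true = true := by
  obtain ⟨y, y', h⟩ := h.mono hs (lt_add_one i) ht
  by_contra hcon
  push Not at hcon
  have key : ∀ w, Rch ω i (i + 1) (i, y) w → w.1 = i := by
    intro w hw
    induction hw with
    | refl => rfl
    | @tail v w _ h2 ih =>
      obtain ⟨j, z, h1, h2, h3⟩ := h2
      have hj : j = i := by omega
      subst hj
      rcases h3 with ⟨h3, -⟩ | ⟨h3, ⟨rfl, rfl⟩ | ⟨rfl, rfl⟩⟩
      · exact absurd h3 (hcon z)
      · rfl
      · rfl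
  have := key _ h
  simp only at this
  omega

end Pool.Agent.R961
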