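import Pool.Agent.R961.Graph

/-!
# The two estimates for the long torus
-/

set_option autoImplicit false

namespace Pool.Agent.R961

open Relation Finset Filter Topology

section Det

variable {a b : ℕ}

theorem step_reach {ω : ZMod a × ZMod b × Bool → Bool} {s t : ℤ} {u v : ℤ × ZMod b}
    (h : Step (lift ω) s t u v) :
    (opn ed ω).Reachable ((u.1 : ZMod a), u.2) ((v.1 : ZMod a), v.2) := by
  obtain ⟨i, y, -, -, h3⟩ := h
  by_cases heq : (((u.1 : ZMod a), u.2) : ZMod a × ZMod b) = ((v.1 : ZMod a), v.2)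
  · rw [heq]
  · refine SimpleGraph.Adj.reachable ?_
    unfold opn
    rw [SimpleGraph.fromEdgeSet_adj]
    refine ⟨?_, heq⟩
    rcases h3 with ⟨h3, ⟨rfl, rfl⟩ | ⟨rfl, rfl⟩⟩ | ⟨h3, ⟨rfl, rfl⟩ | ⟨rfl, rfl⟩⟩
    · refine ⟨((i : ZMod a), y, true), h3, ?_⟩
      unfold ed
      simp
    · refine ⟨((i : ZMod a), y, true), h3, ?_⟩
      unfold ed
      simp [Sym2.eq_swap]
    · refine ⟨((i : ZMod a), y, false), h3, ?_⟩
      unfold ed
      simp
    · refine ⟨((i : ZMod a), y, false), h3, ?_⟩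
      unfold ed
      simp [Sym2.eq_swap]

theorem rch_reach {ω : ZMod a × ZMod b × Bool → Bool} {s t : ℤ} {u v : ℤ × ZMod b}
    (h : Rch (lift ω) s t u v) :
    (opn ed ω).Reachable ((u.1 : ZMod a), u.2) ((v.1 : ZMod a), v.2) := by
  induction h with
  | refl => exact SimpleGraph.Reachable.refl _
  | tail _ h2 ih => exact ih.trans (step_reach h2)

theorem reach_rch {ω : ZMod a × ZMod b × Bool → Bool} {v w : ZMod a × ZMod b}
    (h : (opn ed ω).Reachable v w) (x : ℤ) (hx : (x : ZMod a) = v.1) :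
    ∃ x' s t : ℤ, (x' : ZMod a) = w.1 ∧ Rch (lift ω) s t (x, v.2) (x', w.2) := by
  obtain ⟨q⟩ := h
  induction q generalizing x with
  | nil => exact ⟨x, 0, 0, hx, ReflTransGen.refl⟩
  | @cons v w z hadj q ih =>
    have hst : ∃ x1 : ℤ, (x1 : ZMod a) = w.1 ∧ Step (lift ω) (x - 1) (x + 1) (x, v.2) (x1, w.2) := by
      unfold opn at hadj
      rw [SimpleGraph.fromEdgeSet_adj] at hadj
      obtain ⟨⟨⟨x0, y, d⟩, ho, he⟩, -⟩ := hadj
      obtain ⟨v1, v2⟩ := v
      obtain ⟨w1, w2⟩ := w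
      simp only at hx
      have ho' : ω (x0, y, d) = true := ho
      unfold ed at he
      cases d
      · simp only [Bool.false_eq_true, if_false, Sym2.eq_iff, Prod.mk.injEq] at he
        rcases he with ⟨⟨rfl, rfl⟩, rfl, rfl⟩ | ⟨⟨rfl, rfl⟩, rfl, rfl⟩
        · exact ⟨x, hx, x, y, by omega, by omega, Or.inr ⟨by rw [lift, hx]; exact ho',
            Or.inl ⟨rfl, rfl⟩⟩⟩
        · exact ⟨x, hx, x, y, by omega, by omega, Or.inr ⟨by rw [lift, hx]; exact ho',
            Or.inr ⟨rfl, rfl⟩⟩⟩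
      · simp only [if_true, Sym2.eq_iff, Prod.mk.injEq] at he
        rcases he with ⟨⟨rfl, rfl⟩, rfl, rfl⟩ | ⟨⟨rfl, rfl⟩, rfl, rfl⟩
        · exact ⟨x + 1, by push_cast; rw [hx], x, y, by omega, by omega,
            Or.inl ⟨by rw [lift, hx]; exact ho', Or.inl ⟨rfl, rfl⟩⟩⟩
        · refine ⟨x - 1, by push_cast; rw [hx]; simp, x - 1, y, by omega, by omega,
            Or.inl ⟨?_, Or.inr ⟨rfl, by simp⟩⟩⟩
          rw [lift]
          push_cast
          rw [hx, add_sub_cancel_right]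
          exact ho'
    obtain ⟨x1, hx1, hs1⟩ := hst
    obtain ⟨x', s, t, hx', hr⟩ := ih x1 hx1
    refine ⟨x', min s (x - 1), max t (x + 1), hx', ?_⟩
    exact ReflTransGen.head (hs1.mono (min_le_right _ _) (le_max_right _ _))
      (hr.mono (min_le_left _ _) (le_max_left _ _))

theorem lift_periodic (ω : ZMod a × ZMod b × Bool → Bool) (i n : ℤ) :
    lift ω (i + n * a) = lift ω i := by
  funext y d
  unfold lift
  push_cast
  rw [ZMod.natCast_self, mul_zero, add_zero]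

theorem cross_periodic {ω : ZMod a × ZMod b × Bool → Bool} {s t n : ℤ}
    (h : Cross (lift ω) (s + n * a) (t + n * a)) : Cross (lift ω) s t := by
  obtain ⟨y, y', h⟩ := h
  have := h.shift (ω' := lift ω) (c := -(n * a)) (s' := s) (t' := t)
    (fun i _ _ => by
      have e : i + -(n * a) = i + (-n) * a := by ring
      rw [e, lift_periodic]) (by omega) (by omega)
  refine ⟨y, y', ?_⟩
  simpa using this

/-- Between two integers far enough from each other there is an arc. -/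
theorem exists_arc {a K l : ℕ} (hl : 0 < l) (hK : 0 < K) (hKl : K * l ≤ a) (x x' : ℤ)
    (h : x + (2 * l + (a - K * l) : ℕ) ≤ x') :
    ∃ (k : Fin K) (n : ℤ), x ≤ ((k : ℕ) * l : ℕ) + n * a ∧ ((k : ℕ) * l : ℕ) + l + n * a ≤ x' := by
  have ha : 0 < a := lt_of_lt_of_le (Nat.mul_pos hK hl) hKl
  have hr0 : 0 ≤ x % a := Int.emod_nonneg _ (by omega)
  have hr1 : x % a < a := Int.emod_lt_of_pos _ (by omega)
  have hx : x = x % a + (x / a) * a := by
    have := Int.emod_add_mul_ediv x a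
    linarith
  obtain ⟨r, hr⟩ := Int.eq_ofNat_of_zero_le hr0
  obtain ⟨K', rfl⟩ : ∃ K', K = K' + 1 := ⟨K - 1, by omega⟩
  have hKe : (K' + 1) * l = K' * l + l := by ring
  rcases le_or_gt r (K' * l) with hcase | hcase
  · have hk : (r + l - 1) / l < K' + 1 := by
      rw [Nat.div_lt_iff_lt_mul hl, hKe]
      omega
    refine ⟨⟨(r + l - 1) / l, hk⟩, x / a, ?_, ?_⟩
    · simp only
      have h1 : r ≤ (r + l - 1) / l * l := by
        have := Nat.div_add_mod (r + l - 1) l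
        have h2 := Nat.mod_lt (r + l - 1) hl
        have h3 : l * ((r + l - 1) / l) = (r + l - 1) / l * l := by ring
        omega
      have h1' : (r : ℤ) ≤ (((r + l - 1) / l * l : ℕ) : ℤ) := by exact_mod_cast h1
      linarith [hx, hr]
    · simp only
      have h1 : (r + l - 1) / l * l ≤ r + l - 1 := Nat.div_mul_le_self _ _
      have h1' : (((r + l - 1) / l * l : ℕ) : ℤ) ≤ (r : ℤ) + l := by
        have : (r + l - 1) / l * l ≤ r + l := by omega
        exact_mod_cast this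
      have h2 : ((2 * l + (a - (K' + 1) * l) : ℕ) : ℤ) ≥ 2 * l := by
        push_cast
        omega
      linarith [hx, hr]
  · refine ⟨⟨0, by omega⟩, x / a + 1, ?_, ?_⟩
    · simp only [zero_mul, Nat.cast_zero, zero_add]
      have : (x / a + 1) * (a : ℤ) = (x / a) * a + a := by ring
      rw [this]
      linarith [hx]
    · simp only [zero_mul, Nat.cast_zero, zero_add]
      have e1 : (x / a + 1) * (a : ℤ) = (x / a) * a + a := by ring
      rw [e1]
      have e2 : ((2 * l + (a - (K' + 1) * l) : ℕ) : ℤ) = 2 * l + (a - (K' * l + l : ℕ)) := by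
        rw [Nat.cast_add, Nat.cast_sub hKl, hKe]
        push_cast
        ring
      have e3 : ((K' * l : ℕ) : ℤ) < (r : ℤ) := by exact_mod_cast hcase
      rw [e2] at h
      push_cast at h e3
      linarith [hx, hr]

theorem not_far {K l : ℕ} (hl : 0 < l) (hK : 0 < K) (hKl : K * l ≤ a)
    {ω : ZMod a × ZMod b × Bool → Bool}
    (h : ∀ k : Fin K, ¬ Cross (lift ω) ((k : ℕ) * l : ℕ) (((k : ℕ) * l : ℕ) + l))
    {s t x x' : ℤ} {y y' : ZMod b} (hr : Rch (lift ω) s t (x, y) (x', y')) :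
    x' < x + (2 * l + (a - K * l) : ℕ) := by
  by_contra hcon
  push Not at hcon
  obtain ⟨k, n, h1, h2⟩ := exists_arc hl hK hKl x x' hcon
  have h3 := cross_of_rch hr (s' := ((k : ℕ) * l : ℕ) + n * a)
    (t' := ((k : ℕ) * l : ℕ) + l + n * a) h1 (by omega) h2
  exact h k (cross_periodic h3)

theorem cluster_card [NeZero a] [NeZero b] {K l : ℕ} (hl : 0 < l) (hK : 0 < K) (hKl : K * l ≤ a)
    {ω : ZMod a × ZMod b × Bool → Bool}
    (h : ∀ k : Fin K, ¬ Cross (lift ω) ((k : ℕ) * l : ℕ) (((k : ℕ) * l : ℕ) + l))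
    (v : ZMod a × ZMod b) :
    {w | (opn ed ω).Reachable v w}.ncard ≤ 2 * (2 * l + (a - K * l)) * b := by
  classical
  set D := 2 * l + (a - K * l) with hD
  obtain ⟨v1, v2⟩ := v
  set x : ℤ := (v1.val : ℤ) with hx
  have hxv : (x : ZMod a) = v1 := by rw [hx]; simp
  have hsub : {w | (opn ed ω).Reachable (v1, v2) w} ⊆
      (((Finset.Ioo (x - D) (x + D) ×ˢ (univ : Finset (ZMod b))).image
        (fun q : ℤ × ZMod b => ((q.1 : ZMod a), q.2)) : Finset (ZMod a × ZMod b)) :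
        Set (ZMod a × ZMod b)) := by
    rintro ⟨w1, w2⟩ hw
    obtain ⟨x', s, t, hx', hr⟩ := reach_rch hw x hxv
    have h1 := not_far hl hK hKl h hr
    have h2 := not_far hl hK hKl h hr.symm
    rw [Finset.mem_coe, Finset.mem_image]
    refine ⟨(x', w2), ?_, ?_⟩
    · rw [Finset.mem_product, Finset.mem_Ioo]
      exact ⟨⟨by omega, by omega⟩, Finset.mem_univ _⟩
    · simp only at hx' ⊢
      rw [hx']
  refine (Set.ncard_le_ncard hsub (Finset.finite_toSet _)).trans ?_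
  rw [Set.ncard_coe_finset]
  refine Finset.card_image_le.trans ?_
  rw [Finset.card_product, Int.card_Ioo, Finset.card_univ, ZMod.card]
  refine Nat.mul_le_mul_right _ ?_
  omega

end Det

/-- The failure probability of the fully open layer. -/
noncomputable def sb (b : ℕ) : ℝ := (1 - p0 ^ b) ^ (2 ^ b)

theorem sb_tendsto : Tendsto sb atTop (𝓝 0) := by
  have h1 : Tendsto (fun b : ℕ => (2 * p0) ^ b) atTop atTop :=
    tendsto_pow_atTop_atTop_of_one_lt (by unfold p0; norm_num)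
  have h2 := Real.tendsto_exp_neg_atTop_nhds_zero.comp h1
  refine squeeze_zero (fun b => ?_) (fun b => ?_) h2
  · unfold sb
    have : p0 ^ b ≤ 1 := pow_le_one₀ p0_nonneg p0_le
    have : 0 ≤ 1 - p0 ^ b := by linarith
    positivity
  · unfold sb
    have h3 : p0 ^ b ≤ 1 := pow_le_one₀ p0_nonneg p0_le
    have h4 : 1 - p0 ^ b ≤ Real.exp (-(p0 ^ b)) := Real.one_sub_le_exp_neg _
    calc (1 - p0 ^ b) ^ (2 ^ b) ≤ (Real.exp (-(p0 ^ b))) ^ (2 ^ b) :=
          pow_le_pow_left₀ (by linarith) h4 _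
      _ = Real.exp (-((2 * p0) ^ b)) := by
          rw [← Real.exp_nat_mul, mul_pow]
          congr 1
          push_cast
          ring

section Est

variable {b m : ℕ} [NeZero b] [NeZero (3 * m)]

/-- Every vertex is connected far away with probability bounded below. -/
theorem far_prob (hb : 3 ≤ b) (hm : 4 ^ b ≤ m) (hu : 1 / 2 ≤ u p0 b m) (hs : sb b ≤ 1 / 10)
    (v : ZMod (3 * m) × ZMod b) :
    3 / 10 ≤ Pr p0 (fun ω : ZMod (3 * m) × ZMod b × Bool → Bool =>
      ∃ w : ZMod (3 * m) × ZMod b, (opn ed ω).Reachable v w ∧ m ≤ (TG (3 * m) b).dist v w) := by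
  obtain ⟨v1, v2⟩ := v
  have hLm : 2 ^ b ≤ m := le_trans (Nat.pow_le_pow_left (by norm_num) b) hm
  have hpos : 0 < 2 ^ b := by positivity
  have hbb : b < 2 ^ b := Nat.lt_two_pow_self
  set s : ℤ := (v1.val : ℤ) with hs'
  have hsv : (s : ZMod (3 * m)) = v1 := by rw [hs']; simp
  have hE3 := vconn (a := 3 * m) (b := b) p0_nonneg p0_le (l := 2 ^ b) (H := b - 1)
    (by omega) (by omega) s v2
  have hE3' := peierls_sum (b := b) (l := 2 ^ b) (by omega)
    (Nat.pow_le_pow_left (by norm_num) b)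
  have hF := torus_full (a := 3 * m) (b := b) p0 (L := 2 ^ b) (by omega) s
  have hC := torus_cross (a := 3 * m) (b := b) p0 (l := m) (by omega) s
  have hsub : ∀ ω : ZMod (3 * m) × ZMod b × Bool → Bool,
      (¬ ∃ w : ZMod (3 * m) × ZMod b, (opn ed ω).Reachable (v1, v2) w ∧
        m ≤ (TG (3 * m) b).dist (v1, v2) w) →
      (¬ ∃ y', Rch (lift ω) s (s + (2 ^ b : ℕ)) (s, v2) (s + (2 ^ b : ℕ), y')) ∨
      ((∀ k : Fin (2 ^ b), ¬ Full (lift ω) (s + (k : ℕ))) ∨ ¬ Cross (lift ω) s (s + m)) := by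
    intro ω hω
    by_contra hcon
    push Not at hcon
    obtain ⟨⟨y', h1⟩, ⟨k, h2⟩, h3⟩ := hcon
    obtain ⟨y'', h4⟩ := glue h1 (s2 := s) (j := s + (k : ℕ)) le_rfl (by omega)
      (by have := k.2; omega) (by
        have h5 : ((2 ^ b : ℕ) : ℤ) ≤ (m : ℤ) := by exact_mod_cast hLm
        linarith) h2 h3
    apply hω
    refine ⟨(((s + m : ℤ) : ZMod (3 * m)), y''), ?_, ?_⟩
    · have := rch_reach h4
      simp only at this
      rw [hsv] at this
      exact this
    · have := le_dist (a := 3 * m) (b := b) (by omega) hb (m := m) (by omega) s v2 y''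
      rw [hsv] at this
      exact this
  have h1 := Pr_mono p0_nonneg p0_le hsub
  rw [Pr_not] at h1
  have h2 := h1.trans ((Pr_or_le p0_nonneg p0_le _ _).trans
    (add_le_add le_rfl (Pr_or_le p0_nonneg p0_le _ _)))
  have hC' : Pr p0 (fun ω : ZMod (3 * m) × ZMod b × Bool → Bool =>
      ¬ Cross (lift ω) s (s + m)) = 1 - u p0 b m := by rw [Pr_not, hC]
  rw [hF, hC'] at h2
  have hs2 : (1 - p0 ^ b) ^ (2 ^ b) ≤ 1 / 10 := hs
  have h3 := hE3.trans hE3'
  linarith

omit [NeZero (3 * m)] in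
/-- The probability that a slab of length `m / J` is not crossed. -/
theorem cut_prob {J : ℕ} (hJ : 0 < J) (hm : 2 * J * (2 ^ b + 1) ≤ m)
    (hu : u p0 b (m + 1) < 1 / 2) (hs : sb b ≤ 1 / (8 * J)) :
    1 / (8 * (J : ℝ)) ≤ 1 - u p0 b (m / J) := by
  set l := m / J with hl
  set L := 2 ^ b with hL
  have hJl : J * l ≤ m := Nat.mul_div_le m J
  have hJl2 : m < J * l + J := by
    have := Nat.div_add_mod m J
    rw [← hl] at this
    have h2 := Nat.mod_lt m hJ
    omega
  have hlL : L ≤ l := by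
    rw [hl, Nat.le_div_iff_mul_le hJ]
    calc L * J ≤ 2 * J * (L + 1) := by nlinarith
      _ ≤ m := hm
  have hLpos : 0 < L := by positivity
  have hlpos : 0 < l := by omega
  obtain ⟨D, hD⟩ : ∃ D, D + L = l := ⟨l - L, by omega⟩
  have h1 := glue_ineq (b := b) p0_nonneg p0_le hlpos hD (2 * J - 1)
  have h2 : m + 1 ≤ (2 * J - 1) * D + l := by
    obtain ⟨J', rfl⟩ : ∃ J', J = J' + 1 := ⟨J - 1, by omega⟩
    have e : 2 * (J' + 1) - 1 = 2 * J' + 1 := by omega
    rw [e]
    have e2 : (2 * J' + 1) * D + (2 * J' + 1) * L = (2 * J' + 1) * l := by rw [← hD]; ring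
    nlinarith
  have h3 := u_mono (b := b) p0_nonneg p0_le (by omega : 0 < m + 1) h2
  have hcast : ((2 * J - 1 : ℕ) : ℝ) = 2 * J - 1 := by
    rw [Nat.cast_sub (by omega)]
    push_cast
    ring
  rw [hcast] at h1
  have hs2 : (1 - p0 ^ b) ^ L ≤ 1 / (8 * J) := hs
  have hJ' : (1 : ℝ) ≤ J := by exact_mod_cast hJ
  have h4 : (2 * (J : ℝ) - 1) * (1 - p0 ^ b) ^ L ≤ 1 / 4 := by
    have h5 : (2 * (J : ℝ) - 1) * (1 - p0 ^ b) ^ L ≤ (2 * J) * (1 / (8 * J)) := by
      refine mul_le_mul (by linarith) hs2 ?_ (by linarith)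
      have : p0 ^ b ≤ 1 := pow_le_one₀ p0_nonneg p0_le
      have : 0 ≤ 1 - p0 ^ b := by linarith
      positivity
    refine h5.trans (le_of_eq ?_)
    field_simp
    norm_num
  have h6 : 1 / 4 ≤ (2 * (J : ℝ)) * (1 - u p0 b l) := by
    have : (2 * (J : ℝ) - 1 + 1) * (1 - u p0 b l) = (2 * (J : ℝ)) * (1 - u p0 b l) := by ring
    linarith
  rw [div_le_iff₀ (by positivity)]
  nlinarith

theorem large_prob {C : ℝ} {J : ℕ} (hJ : 0 < J) (hJC : 4 / C ≤ J) (hC : 0 < C)
    (hm : 2 * J * (2 ^ b + 1) ≤ m) (hm2 : 6 * J < 2 * C * m)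
    (hu : u p0 b (m + 1) < 1 / 2) (hs : sb b ≤ 1 / (8 * J)) :
    Pr p0 (fun ω : ZMod (3 * m) × ZMod b × Bool → Bool =>
      ∃ v : ZMod (3 * m) × ZMod b, C * (Fintype.card (ZMod (3 * m) × ZMod b) : ℝ) ≤
        ({w | (opn ed ω).Reachable v w}.ncard : ℝ)) ≤ 1 - (1 / (8 * (J : ℝ))) ^ (3 * J) := by
  have hJl : J * (m / J) ≤ m := Nat.mul_div_le m J
  have hcut := cut_prob (b := b) hJ hm hu hs
  have harcs := torus_arcs (a := 3 * m) (b := b) p0 (K := 3 * J) (l := m / J) (by nlinarith)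
  have hlpos : 0 < m / J := by
    refine Nat.div_pos ?_ hJ
    have : J * 1 ≤ 2 * J * (2 ^ b + 1) := by nlinarith [Nat.zero_le (2 ^ b)]
    omega
  have hmpos : 0 < m := lt_of_lt_of_le hlpos (Nat.div_le_self m J)
  have hsub : ∀ ω : ZMod (3 * m) × ZMod b × Bool → Bool,
      (∃ v : ZMod (3 * m) × ZMod b, C * (Fintype.card (ZMod (3 * m) × ZMod b) : ℝ) ≤
        ({w | (opn ed ω).Reachable v w}.ncard : ℝ)) →
      ¬ ∀ k : Fin (3 * J), ¬ Cross (lift ω) ((k : ℕ) * (m / J) : ℕ)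
        (((k : ℕ) * (m / J) : ℕ) + (m / J : ℕ)) := by
    rintro ω ⟨v, hv⟩ hall
    have h1 := cluster_card (a := 3 * m) (b := b) hlpos (by omega : 0 < 3 * J) (by nlinarith)
      hall v
    rw [Fintype.card_prod, ZMod.card, ZMod.card] at hv
    have h2 : ({w | (opn ed ω).Reachable v w}.ncard : ℝ) ≤
        2 * (2 * ((m / J : ℕ) : ℝ) + 3 * J) * b := by
      have h3 : 2 * (2 * (m / J) + (3 * m - 3 * J * (m / J))) * b ≤
          2 * (2 * (m / J) + 3 * J) * b := by
        refine Nat.mul_le_mul_right _ (Nat.mul_le_mul_left _ (Nat.add_le_add_left ?_ _))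
        have h4 := Nat.div_add_mod m J
        have h5 := Nat.mod_lt m hJ
        have h6 : 3 * J * (m / J) = 3 * (J * (m / J)) := by ring
        omega
      exact_mod_cast h1.trans h3
    have h3 : ((m / J : ℕ) : ℝ) ≤ (m : ℝ) / J := Nat.cast_div_le
    have hbpos : (0 : ℝ) < b := by exact_mod_cast Nat.pos_of_ne_zero (NeZero.ne b)
    have hJr : (0 : ℝ) < J := by exact_mod_cast hJ
    have h4 : 4 * ((m : ℝ) / J) ≤ C * m := by
      rw [div_le_iff₀ hC] at hJC
      rw [mul_div_assoc', div_le_iff₀ hJr]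
      have : (0 : ℝ) ≤ m := by positivity
      nlinarith
    have h5 : 2 * (2 * ((m / J : ℕ) : ℝ) + 3 * J) < C * (3 * m) := by nlinarith
    have h6 : C * ((3 * m * b : ℕ) : ℝ) = C * (3 * m) * b := by push_cast; ring
    rw [h6] at hv
    have h7 := hv.trans h2
    have h8 := mul_lt_mul_of_pos_right h5 hbpos
    linarith
  refine (Pr_mono p0_nonneg p0_le hsub).trans ?_
  rw [Pr_not, harcs]
  have h9 : (1 / (8 * (J : ℝ))) ^ (3 * J) ≤ (1 - u p0 b (m / J)) ^ (3 * J) :=
    pow_le_pow_left₀ (by positivity) hcut _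
  linarith

end Est

end Pool.Agent.R961
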