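import Pool.Agent.R961.Torus

/-!
# Gluing inequality and choice of the length of the torus
-/

set_option autoImplicit false

namespace Pool.Agent.R961

open Relation Finset

theorem chain_glue {b : ℕ} [NeZero b] {ω : Cfg b} {l L D : ℕ} (hD : D + L = l) (n : ℕ)
    (h1 : ∀ k : ℕ, k ≤ n → Cross ω ((k * D : ℕ) : ℤ) ((k * D : ℕ) + (l : ℤ)))
    (h2 : ∀ k : ℕ, k < n → ∃ j : ℤ, (((k + 1) * D : ℕ) : ℤ) ≤ j ∧ j < ((k + 1) * D : ℕ) + (L : ℤ) ∧
      Full ω j) :
    ∃ y y', Rch ω 0 ((n * D : ℕ) + (l : ℤ)) (0, y) ((n * D : ℕ) + (l : ℤ), y') := by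
  induction n with
  | zero =>
    obtain ⟨y, y', h⟩ := h1 0 le_rfl
    refine ⟨y, y', ?_⟩
    simpa using h
  | succ n ih =>
    obtain ⟨y, y', h⟩ := ih (fun k hk => h1 k (by omega)) (fun k hk => h2 k (by omega))
    obtain ⟨j, hj1, hj2, hf⟩ := h2 n (by omega)
    have h3 := h1 (n + 1) le_rfl
    have e : ((n + 1) * D : ℕ) = n * D + D := by ring
    obtain ⟨y'', h4⟩ := glue h (s2 := (((n + 1) * D : ℕ) : ℤ)) (j := j) (by omega) hj1
      (by rw [e] at hj2; push_cast at hj2 ⊢; omega) (by rw [e]; push_cast; omega) hf h3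
    exact ⟨y, y'', h4⟩

variable {b : ℕ} [NeZero b]

theorem glue_ineq {p : ℝ} (h0 : 0 ≤ p) (h1 : p ≤ 1) {l L D : ℕ} (hl : 0 < l) (hD : D + L = l)
    (n : ℕ) :
    1 - u p b (n * D + l) ≤ (n + 1) * (1 - u p b l) + n * (1 - p ^ b) ^ L := by
  have : NeZero (n * D + l) := ⟨by omega⟩
  have e0 := torus_cross (a := n * D + l) (b := b) p (le_refl (n * D + l)) 0
  rw [← e0, ← Pr_not]
  have hsub : ∀ ω : ZMod (n * D + l) × ZMod b × Bool → Bool,
      ¬ Cross (lift ω) 0 (0 + (n * D + l : ℕ)) →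
      (∃ k ∈ Finset.range (n + 1), ¬ Cross (lift ω) ((k * D : ℕ) : ℤ) ((k * D : ℕ) + (l : ℤ))) ∨
      (∃ k ∈ Finset.range n, ∀ j : Fin L, ¬ Full (lift ω) ((((k + 1) * D : ℕ) : ℤ) + (j : ℕ))) := by
    intro ω hω
    by_contra hcon
    push Not at hcon
    obtain ⟨h3, h4⟩ := hcon
    obtain ⟨y, y', h5⟩ := chain_glue (ω := lift ω) hD n
      (fun k hk => h3 k (Finset.mem_range.2 (by omega)))
      (fun k hk => by
        obtain ⟨j, hj⟩ := h4 k (Finset.mem_range.2 hk)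
        exact ⟨_, by omega, by have := j.2; omega, hj⟩)
    apply hω
    refine ⟨y, y', ?_⟩
    rw [zero_add]
    push_cast at h5 ⊢
    exact h5
  refine (Pr_mono h0 h1 hsub).trans ((Pr_or_le h0 h1 _ _).trans (add_le_add ?_ ?_))
  · refine (Pr_exists_le h0 h1 _ _).trans ?_
    refine (Finset.sum_le_card_nsmul _ _ (1 - u p b l) fun k hk => ?_).trans ?_
    · rw [Pr_not, torus_cross (a := n * D + l) (b := b) p (by omega)]
    · rw [Finset.card_range, nsmul_eq_mul]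
      push_cast
      exact le_rfl
  · refine (Pr_exists_le h0 h1 _ _).trans ?_
    refine (Finset.sum_le_card_nsmul _ _ ((1 - p ^ b) ^ L) fun k hk => ?_).trans ?_
    · rw [torus_full (a := n * D + l) (b := b) p (by omega)]
    · rw [Finset.card_range, nsmul_eq_mul]

theorem u_mono {p : ℝ} (h0 : 0 ≤ p) (h1 : p ≤ 1) {l l' : ℕ} (hl : 0 < l) (hl' : l ≤ l') :
    u p b l' ≤ u p b l := by
  have : NeZero l' := ⟨by omega⟩
  rw [← torus_cross (a := l') (b := b) p (le_refl l') 0, ← torus_cross (a := l') (b := b) p hl' 0]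
  refine Pr_mono h0 h1 fun ω hω => ?_
  exact hω.mono le_rfl (by omega) (by omega)

theorem u_ge {p : ℝ} (h0 : 0 ≤ p) (h1 : p ≤ 1) {l H : ℕ} (hl : 0 < l) (hH : H < b) :
    1 - ∑ i ∈ range l, 6 ^ (min i H) * (1 - p) ^ (min i H + 1) ≤ u p b l := by
  have : NeZero l := ⟨by omega⟩
  have h := vconn (a := l) (b := b) h0 h1 (le_refl l) hH 0 0
  rw [Pr_not] at h
  rw [← torus_cross (a := l) (b := b) p (le_refl l) 0]
  have h2 : Pr p (fun ω : ZMod l × ZMod b × Bool → Bool =>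
      ∃ y', Rch (lift ω) 0 (0 + l) (0, 0) (0 + l, y')) ≤
      Pr p (fun ω : ZMod l × ZMod b × Bool → Bool => Cross (lift ω) 0 (0 + l)) := by
    refine Pr_mono h0 h1 ?_
    rintro ω ⟨y', h⟩
    exact ⟨0, y', h⟩
  linarith

/-- The retention probability used for the counterexample. -/
noncomputable def p0 : ℝ := 47 / 48

theorem p0_nonneg : 0 ≤ p0 := by unfold p0; norm_num

theorem p0_le : p0 ≤ 1 := by unfold p0; norm_num

theorem peierls_sum {b l : ℕ} (hb : 2 ≤ b) (hl : l ≤ 4 ^ b) :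
    ∑ i ∈ range l, (6 : ℝ) ^ (min i (b - 1)) * (1 - p0) ^ (min i (b - 1) + 1) ≤ 1 / 10 := by
  have hterm : ∀ i ∈ range l, (6 : ℝ) ^ (min i (b - 1)) * (1 - p0) ^ (min i (b - 1) + 1) ≤
      (1 / 48) * (1 / 8) ^ i + (1 / 48) * (1 / 8) ^ (b - 1) := by
    intro i _
    have e : (6 : ℝ) ^ (min i (b - 1)) * (1 - p0) ^ (min i (b - 1) + 1) =
        (1 / 48) * (1 / 8) ^ (min i (b - 1)) := by
      have : (1 - p0) = 1 / 48 := by unfold p0; norm_num
      rw [this, pow_succ, ← mul_assoc, ← mul_pow]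
      norm_num
      ring
    rw [e]
    rcases le_total i (b - 1) with h | h
    · rw [min_eq_left h]
      have : (0 : ℝ) ≤ (1 / 48) * (1 / 8) ^ (b - 1) := by positivity
      linarith
    · rw [min_eq_right h]
      have : (0 : ℝ) ≤ (1 / 48) * (1 / 8) ^ i := by positivity
      linarith
  refine (Finset.sum_le_sum hterm).trans ?_
  rw [Finset.sum_add_distrib, ← Finset.mul_sum, Finset.sum_const, card_range, nsmul_eq_mul]
  have h1 : ∑ i ∈ range l, (1 / 8 : ℝ) ^ i ≤ 8 / 7 := by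
    rw [geom_sum_eq (by norm_num)]
    have : (0 : ℝ) ≤ (1 / 8) ^ l := by positivity
    have h2 : ((1 / 8 : ℝ) ^ l - 1) / (1 / 8 - 1) = (8 / 7) * (1 - (1 / 8) ^ l) := by
      field_simp
      ring
    rw [h2]
    nlinarith
  have h2 : (l : ℝ) * ((1 / 48) * (1 / 8) ^ (b - 1)) ≤ 1 / 24 := by
    have h3 : (l : ℝ) ≤ 4 ^ b := by exact_mod_cast hl
    have h4 : (1 / 8 : ℝ) ^ (b - 1) = 8 * (1 / 8) ^ b := by
      obtain ⟨c, rfl⟩ : ∃ c, b = c + 1 := ⟨b - 1, by omega⟩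
      rw [Nat.add_sub_cancel, pow_succ]
      ring
    rw [h4]
    have h5 : (4 : ℝ) ^ b * (1 / 8) ^ b = (1 / 2) ^ b := by
      rw [← mul_pow]; norm_num
    have h6 : (1 / 2 : ℝ) ^ b ≤ (1 / 2) ^ 2 := pow_le_pow_of_le_one (by norm_num) (by norm_num) hb
    have h7 : (0 : ℝ) ≤ (1 / 8) ^ b := by positivity
    nlinarith
  nlinarith

theorem u_four_pow (hb : 2 ≤ b) {l : ℕ} (hl0 : 0 < l) (hl : l ≤ 4 ^ b) : 9 / 10 ≤ u p0 b l := by
  have h := u_ge (b := b) p0_nonneg p0_le (l := l) (H := b - 1) hl0 (by omega)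
  have h2 := peierls_sum hb hl
  linarith

/-- Choice of the length. -/
theorem exists_len (hb : 2 ≤ b) : ∃ m : ℕ, 4 ^ b ≤ m ∧ 1 / 2 ≤ u p0 b m ∧ u p0 b (m + 1) < 1 / 2 := by
  have hex : ∃ n : ℕ, u p0 b (4 ^ b + n) < 1 / 2 := by
    have hlt : (1 - (1 - p0) ^ b) < 1 := by
      have : 0 < (1 - p0) ^ b := by
        have : (0 : ℝ) < 1 - p0 := by unfold p0; norm_num
        positivity
      linarith
    have hnn : 0 ≤ (1 - (1 - p0) ^ b) := by
      have : (1 - p0) ^ b ≤ 1 := pow_le_one₀ (by unfold p0; norm_num) (by unfold p0; norm_num)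
      linarith
    obtain ⟨n, hn⟩ := exists_pow_lt_of_lt_one (by norm_num : (0 : ℝ) < 1 / 2) hlt
    refine ⟨n, (u_le p0_nonneg p0_le _).trans_lt (lt_of_le_of_lt ?_ hn)⟩
    exact pow_le_pow_of_le_one hnn hlt.le (Nat.le_add_left _ _)
  classical
  have h1 := Nat.find_spec hex
  have h2 : Nat.find hex ≠ 0 := by
    intro h
    rw [h, add_zero] at h1
    have := u_four_pow (b := b) hb (l := 4 ^ b) (by positivity) le_rfl
    linarith
  obtain ⟨k, hk⟩ := Nat.exists_eq_succ_of_ne_zero h2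
  have h3 : ¬ u p0 b (4 ^ b + k) < 1 / 2 := Nat.find_min hex (by omega)
  refine ⟨4 ^ b + k, by omega, not_lt.1 h3, ?_⟩
  rw [hk] at h1
  exact h1

end Pool.Agent.R961
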