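import Mathlib

/-!
# Bernoulli bond percolation on a finite graph
-/

set_option autoImplicit false

namespace Pool.Agent.R961

open Classical in
/-- Bernoulli bond percolation on a finite graph `G`: the probability of the event `A` for the
random spanning subgraph `H` of `G` in which every edge of `G` is kept independently with
probability `p` and deleted otherwise. It is the sum, over the sets `S` of edges of `G` such that
the graph with edge set `S` has property `A`, of `p ^ |S| (1 - p) ^ (|E(G)| - |S|)`. -/
noncomputable def percProb {V : Type} [Fintype V] (G : SimpleGraph V) (p : ℝ)
    (A : SimpleGraph V → Prop) : ℝ :=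
  ∑ S ∈ G.edgeFinset.powerset.filter
      (fun S : Finset (Sym2 V) => A (SimpleGraph.fromEdgeSet (S : Set (Sym2 V)))),
    p ^ S.card * (1 - p) ^ (G.edgeFinset.card - S.card)

end Pool.Agent.R961
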