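import Pool.Agent.R961.Glue
import Pool.Agent.R961.PercDef

/-!
# The torus graph
-/

set_option autoImplicit false

namespace Pool.Agent.R961

open Relation Finset

section Bridge

variable {V I : Type} [Fintype V] [Fintype I]

/-- The graph of open edges. -/
def opn (ed : I → Sym2 V) (ω : I → Bool) : SimpleGraph V :=
  SimpleGraph.fromEdgeSet (ed '' {i | ω i = true})

theorem wt_eq [DecidableEq I] (p : ℝ) (ω : I → Bool) :
    wt p ω = p ^ (univ.filter fun i => ω i = true).card *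
      (1 - p) ^ (Fintype.card I - (univ.filter fun i => ω i = true).card) := by
  unfold wt
  rw [Finset.prod_ite, Finset.prod_const, Finset.prod_const]
  congr 2
  have := Finset.card_filter_add_card_filter_not (s := (univ : Finset I)) (fun i => ω i = true)
  rw [Finset.card_univ] at this
  omega

theorem percProb_eq (G : SimpleGraph V) (p : ℝ) (A : SimpleGraph V → Prop) (ed : I → Sym2 V)
    (hinj : Function.Injective ed) (hr : Set.range ed = G.edgeSet) :
    percProb G p A = Pr p (fun ω : I → Bool => A (opn ed ω)) := by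
  classical
  have hcard : G.edgeFinset.card = Fintype.card I := by
    have : G.edgeFinset = univ.image ed := by
      ext e
      simp only [SimpleGraph.mem_edgeFinset, mem_image, mem_univ, true_and]
      rw [← hr]
      rfl
    rw [this, Finset.card_image_of_injective _ hinj, Finset.card_univ]
  unfold percProb Pr
  rw [Finset.sum_filter]
  symm
  refine Finset.sum_bij' (fun ω _ => (univ.filter fun i => ω i = true).image ed)
    (fun S _ i => decide (ed i ∈ S)) ?_ ?_ ?_ ?_ ?_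
  · intro ω _
    rw [Finset.mem_powerset]
    intro e he
    obtain ⟨i, _, rfl⟩ := Finset.mem_image.1 he
    rw [SimpleGraph.mem_edgeFinset, ← hr]
    exact ⟨i, rfl⟩
  · intro S _
    exact Finset.mem_univ _
  · intro ω _
    funext i
    have : (ed i ∈ (univ.filter fun i => ω i = true).image ed) ↔ ω i = true := by
      rw [Finset.mem_image]
      constructor
      · rintro ⟨j, hj, hji⟩
        rw [← hinj hji]
        exact (Finset.mem_filter.1 hj).2
      · intro h
        exact ⟨i, Finset.mem_filter.2 ⟨Finset.mem_univ _, h⟩, rfl⟩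
    by_cases h : ω i = true
    · simp only [this, h, decide_true]
    · simp only [this]
      rw [Bool.not_eq_true] at h
      simp [h]
  · intro S hS
    ext e
    simp only [mem_image, mem_filter, mem_univ, true_and, decide_eq_true_eq]
    constructor
    · rintro ⟨i, hi, rfl⟩
      exact hi
    · intro he
      have h1 := Finset.mem_powerset.1 hS he
      rw [SimpleGraph.mem_edgeFinset, ← hr] at h1
      obtain ⟨i, rfl⟩ := h1
      exact ⟨i, he, rfl⟩
  · intro ω _
    have h1 : SimpleGraph.fromEdgeSet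
        (((univ.filter fun i => ω i = true).image ed : Finset (Sym2 V)) : Set (Sym2 V)) =
        opn ed ω := by
      unfold opn
      congr 1
      ext e
      simp
    have h2 : ((univ.filter fun i => ω i = true).image ed).card =
        (univ.filter fun i => ω i = true).card := Finset.card_image_of_injective _ hinj
    rw [h1, h2, hcard, wt_eq]

end Bridge

section Torus

variable {a b : ℕ}

/-- The edge of the torus with index `(x, y, d)`. -/
def ed (i : ZMod a × ZMod b × Bool) : Sym2 (ZMod a × ZMod b) :=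
  if i.2.2 = true then s((i.1, i.2.1), (i.1 + 1, i.2.1)) else s((i.1, i.2.1), (i.1, i.2.1 + 1))

/-- The torus graph. -/
def TG (a b : ℕ) : SimpleGraph (ZMod a × ZMod b) := SimpleGraph.fromEdgeSet (Set.range ed)

theorem one_ne {n : ℕ} (hn : 3 ≤ n) : (1 : ZMod n) ≠ 0 := by
  have : Fact (1 < n) := ⟨by omega⟩
  exact one_ne_zero

theorem two_ne {n : ℕ} (hn : 3 ≤ n) : (1 : ZMod n) + 1 ≠ 0 := by
  intro h
  have h2 : ((2 : ℕ) : ZMod n) = 0 := by
    push_cast
    rw [← h]
    norm_num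
  rw [ZMod.natCast_eq_zero_iff] at h2
  have := Nat.le_of_dvd (by norm_num) h2
  omega

theorem TG_adj {a b : ℕ} (ha : 3 ≤ a) (hb : 3 ≤ b) (u v : ZMod a × ZMod b) :
    (TG a b).Adj u v ↔ (u.2 = v.2 ∧ (v.1 = u.1 + 1 ∨ u.1 = v.1 + 1)) ∨
      (u.1 = v.1 ∧ (v.2 = u.2 + 1 ∨ u.2 = v.2 + 1)) := by
  obtain ⟨x, y⟩ := u
  obtain ⟨x', y'⟩ := v
  have h1 := one_ne ha
  have h2 := one_ne hb
  unfold TG
  rw [SimpleGraph.fromEdgeSet_adj]
  constructor
  · rintro ⟨⟨⟨i, j, d⟩, h⟩, hne⟩
    unfold ed at h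
    cases d
    · simp only [Bool.false_eq_true, if_false, Sym2.eq_iff, Prod.mk.injEq] at h
      rcases h with ⟨⟨rfl, rfl⟩, rfl, rfl⟩ | ⟨⟨rfl, rfl⟩, rfl, rfl⟩
      · exact Or.inr ⟨rfl, Or.inl rfl⟩
      · exact Or.inr ⟨rfl, Or.inr rfl⟩
    · simp only [if_true, Sym2.eq_iff, Prod.mk.injEq] at h
      rcases h with ⟨⟨rfl, rfl⟩, rfl, rfl⟩ | ⟨⟨rfl, rfl⟩, rfl, rfl⟩
      · exact Or.inl ⟨rfl, Or.inl rfl⟩
      · exact Or.inl ⟨rfl, Or.inr rfl⟩
  · rintro (⟨h3, h4 | h4⟩ | ⟨h3, h4 | h4⟩)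
    · simp only at h3 h4
      subst h3 h4
      exact ⟨⟨(x, y, true), rfl⟩, by simp [h1]⟩
    · simp only at h3 h4
      subst h3 h4
      refine ⟨⟨(x', y, true), ?_⟩, by simp [h1]⟩
      unfold ed
      simp [Sym2.eq_swap]
    · simp only at h3 h4
      subst h3 h4
      exact ⟨⟨(x, y, false), rfl⟩, by simp [h2]⟩
    · simp only at h3 h4
      subst h3 h4
      refine ⟨⟨(x, y', false), ?_⟩, by simp [h2]⟩
      unfold ed
      simp [Sym2.eq_swap]

theorem ed_inj {a b : ℕ} (ha : 3 ≤ a) (hb : 3 ≤ b) :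
    Function.Injective (ed : ZMod a × ZMod b × Bool → _) := by
  have h1 := one_ne ha
  have h2 := one_ne hb
  have h3 := two_ne ha
  have h4 := two_ne hb
  rintro ⟨x, y, d⟩ ⟨x', y', d'⟩ h
  unfold ed at h
  cases d <;> cases d'
  · simp only [Bool.false_eq_true, if_false, Sym2.eq_iff, Prod.mk.injEq] at h
    rcases h with ⟨⟨rfl, rfl⟩, -, -⟩ | ⟨⟨rfl, h5⟩, -, h6⟩
    · rfl
    · exfalso
      apply h4
      rw [h5, add_assoc] at h6
      exact add_left_cancel (h6.trans (add_zero _).symm)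
  · simp only [Bool.false_eq_true, if_false, if_true, Sym2.eq_iff, Prod.mk.injEq] at h
    rcases h with ⟨⟨rfl, rfl⟩, h5, -⟩ | ⟨⟨h5, h6⟩, h7, -⟩
    · exact absurd (add_left_cancel (h5.symm.trans (add_zero _).symm)) h1
    · exfalso
      rw [h5] at h7
      exact absurd (add_left_cancel (h7.trans (add_zero _).symm)) h1
  · simp only [Bool.false_eq_true, if_false, if_true, Sym2.eq_iff, Prod.mk.injEq] at h
    rcases h with ⟨⟨rfl, rfl⟩, h5, -⟩ | ⟨⟨h5, h6⟩, h7, -⟩
    · exact absurd (add_left_cancel (h5.trans (add_zero _).symm)) h1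
    · exfalso
      rw [h5] at h7
      exact absurd (add_left_cancel (h7.trans (add_zero _).symm)) h1
  · simp only [if_true, Sym2.eq_iff, Prod.mk.injEq] at h
    rcases h with ⟨⟨rfl, rfl⟩, -, -⟩ | ⟨⟨h5, rfl⟩, h6, -⟩
    · rfl
    · exfalso
      apply h3
      rw [h5, add_assoc] at h6
      exact add_left_cancel (h6.trans (add_zero _).symm)

theorem range_ed {a b : ℕ} (ha : 3 ≤ a) (hb : 3 ≤ b) :
    Set.range (ed : ZMod a × ZMod b × Bool → _) = (TG a b).edgeSet := by
  have h1 := one_ne ha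
  have h2 := one_ne hb
  unfold TG
  rw [SimpleGraph.edgeSet_fromEdgeSet]
  symm
  rw [sdiff_eq_left, Set.disjoint_left]
  rintro _ ⟨⟨x, y, d⟩, rfl⟩ h
  unfold ed at h
  cases d
  · simp [h2] at h
  · simp [h1] at h

theorem TG_degree {a b : ℕ} (ha : 3 ≤ a) (hb : 3 ≤ b) (v : ZMod a × ZMod b) :
    {w | (TG a b).Adj v w}.ncard = 4 := by
  have h1 := one_ne ha
  have h2 := one_ne hb
  have h3 := two_ne ha
  have h4 := two_ne hb
  obtain ⟨x, y⟩ := v
  have e : {w | (TG a b).Adj (x, y) w} =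
      ((({(x + 1, y), (x - 1, y), (x, y + 1), (x, y - 1)} : Finset (ZMod a × ZMod b))) :
        Set (ZMod a × ZMod b)) := by
    ext ⟨x', y'⟩
    simp only [Set.mem_ofPred_eq, TG_adj ha hb, coe_insert, coe_singleton, Set.mem_insert_iff,
      Set.mem_singleton_iff, Prod.mk.injEq]
    constructor
    · rintro (⟨h5, h6 | h6⟩ | ⟨h5, h6 | h6⟩)
      · exact Or.inl ⟨h6, h5.symm⟩
      · exact Or.inr (Or.inl ⟨by rw [h6]; ring, h5.symm⟩)
      · exact Or.inr (Or.inr (Or.inl ⟨h5.symm, h6⟩))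
      · exact Or.inr (Or.inr (Or.inr ⟨h5.symm, by rw [h6]; ring⟩))
    · rintro (⟨h5, h6⟩ | ⟨h5, h6⟩ | ⟨h5, h6⟩ | ⟨h5, h6⟩)
      · exact Or.inl ⟨h6.symm, Or.inl h5⟩
      · exact Or.inl ⟨h6.symm, Or.inr (by rw [h5]; ring)⟩
      · exact Or.inr ⟨h5.symm, Or.inl h6⟩
      · exact Or.inr ⟨h5.symm, Or.inr (by rw [h6]; ring)⟩
  rw [e, Set.ncard_coe_finset]
  have k1 : ∀ {n : ℕ} (_ : (1 : ZMod n) + 1 ≠ 0) (z : ZMod n), z + 1 ≠ z - 1 := by
    intro n hn z h
    apply hn
    have : z + 1 - (z - 1) = 0 := by rw [h, sub_self]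
    rw [← this]; ring
  have k2 : ∀ {n : ℕ} (_ : (1 : ZMod n) ≠ 0) (z : ZMod n), z + 1 ≠ z := by
    intro n hn z h
    exact hn (add_left_cancel (h.trans (add_zero _).symm))
  have k3 : ∀ {n : ℕ} (_ : (1 : ZMod n) ≠ 0) (z : ZMod n), z - 1 ≠ z := by
    intro n hn z h
    apply hn
    have : z - (z - 1) = 0 := by rw [h, sub_self]
    rw [← this]; ring
  rw [Finset.card_insert_of_notMem, Finset.card_insert_of_notMem, Finset.card_insert_of_notMem,
    Finset.card_singleton]
  · simp [k1 h4]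
  · simp [k3 h1]
  · simp [k1 h3, k2 h1]

/-- Translations. -/
def trans (a b : ℕ) (c : ZMod a × ZMod b) (ha : 3 ≤ a) (hb : 3 ≤ b) : TG a b ≃g TG a b where
  toEquiv := Equiv.addRight c
  map_rel_iff' := by
    intro u v
    rw [TG_adj ha hb, TG_adj ha hb]
    simp only [Equiv.coe_addRight, Prod.fst_add, Prod.snd_add, add_left_inj]
    have e1 : ∀ {n : ℕ} (x y z : ZMod n), (y + z = x + z + 1) ↔ (y = x + 1) := by
      intro n x y z
      rw [add_right_comm, add_left_inj]
    rw [e1, e1, e1, e1]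

theorem TG_transitive {a b : ℕ} (ha : 3 ≤ a) (hb : 3 ≤ b) (u v : ZMod a × ZMod b) :
    ∃ φ : TG a b ≃g TG a b, φ u = v :=
  ⟨trans a b (v - u) ha hb, by
    show u + (v - u) = v
    abel⟩

theorem reach_h {a b : ℕ} (ha : 3 ≤ a) (hb : 3 ≤ b) (x : ZMod a) (y : ZMod b) (n : ℕ) :
    ∃ w : (TG a b).Walk (x, y) (x + n, y), w.length = n := by
  induction n with
  | zero => exact ⟨(SimpleGraph.Walk.nil : (TG a b).Walk (x, y) (x, y)).copy rfl (by simp), by simp⟩
  | succ n ih =>
    obtain ⟨w, hw⟩ := ih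
    have hadj : (TG a b).Adj (x + n, y) (x + (n + 1 : ℕ), y) := by
      rw [TG_adj ha hb]
      exact Or.inl ⟨rfl, Or.inl (by push_cast; ring)⟩
    exact ⟨w.concat hadj, by rw [SimpleGraph.Walk.length_concat, hw]⟩

theorem reach_v {a b : ℕ} (ha : 3 ≤ a) (hb : 3 ≤ b) (x : ZMod a) (y : ZMod b) (n : ℕ) :
    ∃ w : (TG a b).Walk (x, y) (x, y + n), w.length = n := by
  induction n with
  | zero => exact ⟨(SimpleGraph.Walk.nil : (TG a b).Walk (x, y) (x, y)).copy rfl (by simp), by simp⟩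
  | succ n ih =>
    obtain ⟨w, hw⟩ := ih
    have hadj : (TG a b).Adj (x, y + n) (x, y + (n + 1 : ℕ)) := by
      rw [TG_adj ha hb]
      exact Or.inr ⟨rfl, Or.inl (by push_cast; ring)⟩
    exact ⟨w.concat hadj, by rw [SimpleGraph.Walk.length_concat, hw]⟩

theorem TG_connected {a b : ℕ} [NeZero a] [NeZero b] (ha : 3 ≤ a) (hb : 3 ≤ b) :
    (TG a b).Connected := by
  rw [SimpleGraph.connected_iff]
  refine ⟨fun u v => ?_, ⟨(0, 0)⟩⟩
  obtain ⟨x, y⟩ := u
  obtain ⟨x', y'⟩ := v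
  obtain ⟨w, -⟩ := reach_h ha hb x y (x' - x).val
  obtain ⟨w', -⟩ := reach_v ha hb x' y (y' - y).val
  have e1 : x + ((x' - x).val : ℕ) = x' := by
    rw [ZMod.natCast_val, ZMod.cast_id', id]; ring
  have e2 : y + ((y' - y).val : ℕ) = y' := by
    rw [ZMod.natCast_val, ZMod.cast_id', id]; ring
  rw [e1] at w
  rw [e2] at w'
  exact ⟨w.append w'⟩

theorem dist_h {a b : ℕ} (ha : 3 ≤ a) (hb : 3 ≤ b) (x x' : ZMod a) (y : ZMod b) :
    (TG a b).dist (x, y) (x', y) ≤ (x' - x).valMinAbs.natAbs := by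
  have e : (((x' - x).valMinAbs : ℤ) : ZMod a) = x' - x := ZMod.coe_valMinAbs _
  rcases le_total 0 (x' - x).valMinAbs with h | h
  · obtain ⟨n, hn⟩ := Int.eq_ofNat_of_zero_le h
    obtain ⟨w, hw⟩ := reach_h ha hb x y n
    rw [hn] at e ⊢
    have e2 : x + (n : ZMod a) = x' := by
      have : (n : ZMod a) = x' - x := by rw [← e]; simp
      rw [this]; ring
    have := SimpleGraph.dist_le w
    rw [hw, e2] at this
    simpa using this
  · obtain ⟨n, hn⟩ := Int.eq_ofNat_of_zero_le (neg_nonneg.2 h)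
    obtain ⟨w, hw⟩ := reach_h ha hb x' y n
    have hn' : (x' - x).valMinAbs = -(n : ℤ) := by rw [← hn]; ring
    rw [hn'] at e ⊢
    have e2 : x' + (n : ZMod a) = x := by
      have : -(n : ZMod a) = x' - x := by rw [← e]; simp
      have h3 : (n : ZMod a) = x - x' := by rw [← neg_neg (n : ZMod a), this]; ring
      rw [h3]; ring
    have := SimpleGraph.dist_le w
    rw [hw, e2, SimpleGraph.dist_comm] at this
    simpa using this

theorem dist_v {a b : ℕ} (ha : 3 ≤ a) (hb : 3 ≤ b) (x : ZMod a) (y y' : ZMod b) :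
    (TG a b).dist (x, y) (x, y') ≤ (y' - y).valMinAbs.natAbs := by
  have e : (((y' - y).valMinAbs : ℤ) : ZMod b) = y' - y := ZMod.coe_valMinAbs _
  rcases le_total 0 (y' - y).valMinAbs with h | h
  · obtain ⟨n, hn⟩ := Int.eq_ofNat_of_zero_le h
    obtain ⟨w, hw⟩ := reach_v ha hb x y n
    rw [hn] at e ⊢
    have e2 : y + (n : ZMod b) = y' := by
      have : (n : ZMod b) = y' - y := by rw [← e]; simp
      rw [this]; ring
    have := SimpleGraph.dist_le w
    rw [hw, e2] at this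
    simpa using this
  · obtain ⟨n, hn⟩ := Int.eq_ofNat_of_zero_le (neg_nonneg.2 h)
    obtain ⟨w, hw⟩ := reach_v ha hb x y' n
    have hn' : (y' - y).valMinAbs = -(n : ℤ) := by rw [← hn]; ring
    rw [hn'] at e ⊢
    have e2 : y' + (n : ZMod b) = y := by
      have : -(n : ZMod b) = y' - y := by rw [← e]; simp
      have h3 : (n : ZMod b) = y - y' := by rw [← neg_neg (n : ZMod b), this]; ring
      rw [h3]; ring
    have := SimpleGraph.dist_le w
    rw [hw, e2, SimpleGraph.dist_comm] at this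
    simpa using this

theorem dist_le_half {a b : ℕ} [NeZero a] [NeZero b] (ha : 3 ≤ a) (hb : 3 ≤ b)
    (u v : ZMod a × ZMod b) : (TG a b).dist u v ≤ a / 2 + b / 2 := by
  obtain ⟨x, y⟩ := u
  obtain ⟨x', y'⟩ := v
  have h1 := dist_h ha hb x x' y
  have h2 := dist_v ha hb x' y y'
  have h3 := (TG_connected ha hb).dist_triangle (u := (x, y)) (v := (x', y)) (w := (x', y'))
  have h4 := ZMod.natAbs_valMinAbs_le (x' - x)
  have h5 := ZMod.natAbs_valMinAbs_le (y' - y)
  omega

theorem one_natAbs {n : ℕ} (hn : 3 ≤ n) : (1 : ZMod n).valMinAbs.natAbs ≤ 1 := by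
  have : NeZero n := ⟨by omega⟩
  have h := ZMod.valMinAbs_natCast_of_le_half (n := n) (a := 1) (by omega)
  rw [Nat.cast_one] at h
  rw [h]
  rfl

theorem walk_len {a b : ℕ} (ha : 3 ≤ a) (hb : 3 ≤ b) {u v : ZMod a × ZMod b}
    (w : (TG a b).Walk u v) : (v.1 - u.1).valMinAbs.natAbs ≤ w.length := by
  have : NeZero a := ⟨by omega⟩
  induction w with
  | nil => simp
  | @cons u v w h q ih =>
    rw [SimpleGraph.Walk.length_cons]
    have e : w.1 - u.1 = (w.1 - v.1) + (v.1 - u.1) := by ring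
    rw [e]
    have h1 := ZMod.natAbs_valMinAbs_add_le (w.1 - v.1) (v.1 - u.1)
    have h2 := Int.natAbs_add_le (w.1 - v.1).valMinAbs (v.1 - u.1).valMinAbs
    have h3 : (v.1 - u.1).valMinAbs.natAbs ≤ 1 := by
      rw [TG_adj ha hb] at h
      rcases h with ⟨-, h | h⟩ | ⟨h, -⟩
      · rw [h, add_sub_cancel_left]; exact one_natAbs ha
      · rw [h, sub_add_cancel_left, ZMod.natAbs_valMinAbs_neg]; exact one_natAbs ha
      · rw [h, sub_self]; simp
    omega

theorem le_dist {a b : ℕ} [NeZero a] [NeZero b] (ha : 3 ≤ a) (hb : 3 ≤ b) {m : ℕ} (hm : m ≤ a / 2)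
    (s : ℤ) (y y' : ZMod b) : m ≤ (TG a b).dist ((s : ZMod a), y) (((s + m : ℤ) : ZMod a), y') := by
  obtain ⟨w, hw⟩ := (TG_connected ha hb).exists_walk_length_eq_dist ((s : ZMod a), y)
    (((s + m : ℤ) : ZMod a), y')
  rw [← hw]
  have h := walk_len ha hb w
  simp only at h
  have e : (((s + m : ℤ) : ZMod a)) - (s : ZMod a) = ((m : ℕ) : ZMod a) := by
    push_cast; ring
  rw [e, ZMod.valMinAbs_natCast_of_le_half hm] at h
  simpa using h

end Torus

end Pool.Agent.R961
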