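import Pool.Agent.R499.HT.Stm

/-!
# HT-NLOW and HT-BENT (MP_94b6b1_an)
-/

set_option autoImplicit false

namespace Pool.Agent.R961.HTNorm

open Pool.Agent.R499.HT
open scoped ComplexConjugate

section
variable {G : Type} [Group G]

theorem sum_shift {M : Type*} [AddCommMonoid M] (K : Finset G)
    (hmul : ∀ a ∈ K, ∀ b ∈ K, a * b ∈ K) (hinv : ∀ a ∈ K, a⁻¹ ∈ K) {v : G} (hv : v ∈ K)
    (F : G → M) : ∑ w ∈ K, F (v * w) = ∑ w ∈ K, F w := by
  refine Finset.sum_nbij' (fun w => v * w) (fun w => v⁻¹ * w) ?_ ?_ ?_ ?_ ?_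
  · intro w hw
    exact hmul v hv w hw
  · intro w hw
    exact hmul _ (hinv v hv) w hw
  · intro w _
    simp
  · intro w _
    simp
  · intro w _
    rfl

theorem lam_mul (a b : G) (f : L2 G) : lam (a * b) f = lam a (lam b f) := by
  apply lp.ext
  funext y
  rw [lam_apply, lam_apply, lam_apply, mul_inv_rev, mul_assoc]

theorem lam_one (f : L2 G) : lam (1 : G) f = f := by
  apply lp.ext
  funext y
  rw [lam_apply, inv_one, one_mul]

theorem lam_norm (a : G) (f : L2 G) : ‖lam a f‖ = ‖f‖ := (lt a).norm_map f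

theorem lam_inner (a : G) (f g : L2 G) : inner ℂ (lam a f) (lam a g) = inner ℂ f g :=
  (lt a).inner_map_map f g

end

theorem t_NLOW : S_NLOW := by
  classical
  intro G _ K h1 hmul hinv S hS c hc x
  set f' : L2 G := ∑ w ∈ K, bas G w with hf'
  set f : L2 G := ∑ w ∈ K, bas G (x⁻¹ * w) with hf
  have hlf : ∀ v ∈ K, lam (v * x) f = f' := by
    intro v hv
    rw [hf, map_sum, hf']
    have : ∀ w ∈ K, lam (v * x) (bas G (x⁻¹ * w)) = bas G (v * w) := by
      intro w _
      rw [lam_bas]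
      congr 1
      group
    rw [Finset.sum_congr rfl this]
    exact sum_shift K hmul hinv hv (fun w => bas G w)
  have hnorm : ‖f‖ = ‖f'‖ := by
    have h2 := hlf 1 h1
    rw [one_mul] at h2
    rw [← h2, lam_norm]
  have hne : 0 < ‖f'‖ := by
    rw [norm_pos_iff]
    intro h0
    have h2 : inner ℂ (bas G 1) f' = (1 : ℂ) := by
      rw [hf', inner_sum, Finset.sum_eq_single (1 : G)]
      · rw [inner_self_eq_norm_sq_to_K, (bas G).orthonormal.norm_eq_one]
        norm_num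
      · intro b _ hb
        exact (bas G).orthonormal.inner_eq_zero hb.symm
      · intro h
        exact absurd h1 h
    rw [h0, inner_zero_right] at h2
    exact zero_ne_one h2
  have hA : (∑ v ∈ S, (c v : ℂ) • lam (v * x)) f = ((∑ v ∈ S, c v : ℝ) : ℂ) • f' := by
    rw [sum_apply]
    have : ∀ v ∈ S, ((c v : ℂ) • lam (v * x)) f = (c v : ℂ) • f' := by
      intro v hv
      rw [smul_apply, hlf v (hS hv)]
    rw [Finset.sum_congr rfl this, ← Finset.sum_smul]
    push_cast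
    rfl
  have h2 := (∑ v ∈ S, (c v : ℂ) • lam (v * x)).le_opNorm f
  rw [hA, norm_smul, hnorm, Complex.norm_real, Real.norm_eq_abs,
    abs_of_nonneg (Finset.sum_nonneg fun v _ => hc v)] at h2
  exact le_of_mul_le_mul_right h2 hne

theorem t_BENT : S_BENT := by
  classical
  intro G _ K ε hP x
  refine ContinuousLinearMap.opNorm_le_bound _ (Real.sqrt_nonneg _) fun f => ?_
  set h : L2 G := lam x f with hh
  have hnh : ‖h‖ = ‖f‖ := lam_norm x f
  have hT : (∑ v ∈ K, (ε v : ℂ) • lam (v * x)) f = ∑ v ∈ K, (ε v : ℂ) • lam v h := by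
    rw [sum_apply]
    refine Finset.sum_congr rfl fun v _ => ?_
    rw [smul_apply, lam_mul]
  have hin : ∀ v u : G, inner ℂ (lam v h) (lam (v * u) h) = inner ℂ h (lam u h) := by
    intro v u
    rw [lam_mul, lam_inner]
  have hsq : inner ℂ (∑ v ∈ K, (ε v : ℂ) • lam v h) (∑ v ∈ K, (ε v : ℂ) • lam v h) =
      ((K.card : ℝ) : ℂ) * inner ℂ h h := by
    rw [sum_inner]
    have e1 : ∀ v ∈ K, inner ℂ ((ε v : ℂ) • lam v h) (∑ w ∈ K, (ε w : ℂ) • lam w h) =
        ∑ u ∈ K, ((ε v * ε (v * u) : ℝ) : ℂ) * inner ℂ h (lam u h) := by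
      intro v hv
      rw [← sum_shift K hP.mul hP.inv hv (fun w => (ε w : ℂ) • lam w h), inner_sum]
      refine Finset.sum_congr rfl fun u _ => ?_
      rw [inner_smul_left, inner_smul_right, hin, Complex.conj_ofReal]
      push_cast
      ring
    rw [Finset.sum_congr rfl e1, Finset.sum_comm]
    have e2 : ∀ u ∈ K, ∑ v ∈ K, ((ε v * ε (v * u) : ℝ) : ℂ) * inner ℂ h (lam u h) =
        ((∑ v ∈ K, ε v * ε (v * u) : ℝ) : ℂ) * inner ℂ h (lam u h) := by
      intro u _
      rw [← Finset.sum_mul]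
      push_cast
      rfl
    rw [Finset.sum_congr rfl e2, Finset.sum_eq_single (1 : G)]
    · have e3 : ∑ v ∈ K, ε v * ε (v * 1) = (K.card : ℝ) := by
        have e4 : ∀ v ∈ K, ε v * ε (v * 1) = 1 := by
          intro v hv
          rw [mul_one]
          rcases hP.sgn v hv with h5 | h5 <;> rw [h5] <;> norm_num
        rw [Finset.sum_congr rfl e4]
        simp
      rw [e3, lam_one]
    · intro u hu hu1
      rw [hP.cor u hu hu1]
      simp
    · intro h5
      exact absurd hP.one h5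
  rw [hT]
  have h6 : ‖∑ v ∈ K, (ε v : ℂ) • lam v h‖ ^ 2 = (Real.sqrt K.card * ‖f‖) ^ 2 := by
    rw [mul_pow, Real.sq_sqrt (Nat.cast_nonneg _), ← hnh]
    have h7 := hsq
    rw [inner_self_eq_norm_sq_to_K, inner_self_eq_norm_sq_to_K] at h7
    have h9 := congrArg Complex.re h7
    have e5 : ∀ r : ℝ, (((r : ℝ) : ℂ) ^ 2) = ((r ^ 2 : ℝ) : ℂ) := fun r => by push_cast; rfl
    have e6 : ∀ r : ℝ, ((RCLike.ofReal r : ℂ)) = ((r : ℝ) : ℂ) := fun r => rfl
    rw [e6, e6, e5, e5, ← Complex.ofReal_mul, Complex.ofReal_re, Complex.ofReal_re] at h9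
    exact h9
  have h8 : 0 ≤ Real.sqrt K.card * ‖f‖ := mul_nonneg (Real.sqrt_nonneg _) (norm_nonneg _)
  exact le_of_eq ((sq_eq_sq₀ (norm_nonneg _) h8).1 h6)

end Pool.Agent.R961.HTNorm
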