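import Pool.Agent.R537.LR.Stm

/-!
# LR-C0 (MP_d82c50_lc): correctness of the reduction for `p = 0`
-/

set_option autoImplicit false

namespace Pool.Agent.R961.LRC0

open Pool.Agent.NPC Pool.Agent.NPC.ER Pool.Agent.NPC.R537LR

theorem rank_smul_le {I J : Type} [Fintype I] [Fintype J] [DecidableEq I] (c : ℝ)
    (B : Matrix I J ℝ) : (c • B).rank ≤ B.rank := by
  have h : c • B = (c • (1 : Matrix I I ℝ)) * B := by
    rw [Matrix.smul_mul, Matrix.one_mul]
  rw [h]
  exact Matrix.rank_mul_le_right _ _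

theorem t_C0 (h1 : S_EXA) (h2 : S_BL0) (h3 : S_LR) (h4 : S_SUM) (h5 : S_GC) : S_C0 := by
  intro S
  obtain ⟨R, hR⟩ : ∃ R, R = R0 S := ⟨_, rfl⟩
  obtain ⟨C, hC⟩ : ∃ C, C = C0 S := ⟨_, rfl⟩
  have hRl : 0 < R.length := by
    rw [hR]
    unfold R0 rowsL
    simp
  obtain ⟨T, hT⟩ : ∃ T, T = T0 R C := ⟨_, rfl⟩
  have hT1 : 9 * (R.length * C.length) ^ 4 < T := by
    rw [hT]
    unfold T0
    omega
  have hT0 : 0 < T := by omega
  have hN : 0 < unk R C * T ^ 2 + 1 := by omega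
  have hF : F0 S = (blk T f0 R C, 3, ((unk R C * T ^ 2 + 1 : ℕ) : ℚ)) := by
    unfold F0
    rw [← hR, ← hC, ← hT]
  rw [hF, (h3 RName Col T f0 R C 3 (unk R C * T ^ 2 + 1) hT0 hRl hN).1]
  obtain ⟨E, hE⟩ : ∃ E : Fin R.length → Fin C.length → Option ℝ, E = fun i j =>
      (ent (R.get i) (C.get j)).map (fun z : ℤ => (z : ℝ)) := ⟨_, rfl⟩
  have key := h2 (Fin R.length) (Fin C.length) E T
    (Matrix.of fun x y => ((f0 (R.get x.1) (C.get y.1) x.2 y.2 : ℚ) : ℝ)) (unk R C)
    (by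
      intro i j a b q hq
      rw [hE] at hq
      obtain ⟨z, hz, hzq⟩ := Option.map_eq_some_iff.1 hq
      rw [Matrix.of_apply]
      unfold f0
      simp only [hz]
      rw [← hzq]
      push_cast
      rfl)
    (by
      intro i j a b hq
      rw [hE] at hq
      have hz := Option.map_eq_none_iff.1 hq
      rw [Matrix.of_apply]
      unfold f0
      simp only [hz]
      push_cast
      rfl)
    (by
      unfold unk
      rw [h4 RName Col R C (fun r c => if ent r c = none then 1 else 0)]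
      refine Finset.sum_congr rfl fun i _ => Finset.sum_congr rfl fun j _ => ?_
      have h6 : E i j = none ↔ ent (R.get i) (C.get j) = none := by
        rw [hE]
        exact Option.map_eq_none_iff
      by_cases h7 : ent (R.get i) (C.get j) = none
      · rw [if_pos h7, if_pos (h6.2 h7)]
      · rw [if_neg h7, if_neg (fun h => h7 (h6.1 h))])
    (by
      rw [Fintype.card_fin, Fintype.card_fin]
      exact hT1)
  rw [key, (h5 S).1, ← h1 (n0 S) (G0 S) (h5 S).2]
  have hCompl : (∃ B, Compl (rowsL (n0 S)) (colsL (n0 S) (G0 S)) B) ↔ ∃ B, Compl R C B := by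
    rw [hR, hC]
    rfl
  rw [hCompl]
  constructor
  · rintro ⟨B, hB, hB2⟩
    refine ⟨(8 : ℝ) • B, (rank_smul_le 8 B).trans hB, ?_⟩
    intro i j q hq
    rw [hE] at hq
    obtain ⟨z, hz, hzq⟩ := Option.map_eq_some_iff.1 hq
    rw [Matrix.smul_apply, hB2 i j z hz, ← hzq, smul_eq_mul]
    ring
  · rintro ⟨B, hB, hB2⟩
    refine ⟨(8 : ℝ)⁻¹ • B, (rank_smul_le _ B).trans hB, ?_⟩
    intro i j z hz
    have h8 : E i j = some (z : ℝ) := by
      rw [hE]
      exact Option.map_eq_some_iff.2 ⟨z, hz, rfl⟩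
    rw [Matrix.smul_apply, hB2 i j z h8, smul_eq_mul]
    ring

end Pool.Agent.R961.LRC0
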