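import Mathlib

/-!
# Finite product Bernoulli probability

`Pr p A` is the probability of the event `A` for independent Bernoulli(`p`) variables
indexed by a finite type.
-/

set_option autoImplicit false

namespace Pool.Agent.R961

open Finset

section Basic

variable {I : Type*} [Fintype I]

/-- Bernoulli(`p`) weight of a configuration. -/
noncomputable def wt (p : ℝ) (ω : I → Bool) : ℝ :=
  ∏ i, (if ω i = true then p else 1 - p)

open Classical in
/-- Probability of an event under the product Bernoulli(`p`) law. -/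
noncomputable def Pr (p : ℝ) (A : (I → Bool) → Prop) : ℝ :=
  ∑ ω : I → Bool, if A ω then wt p ω else 0

theorem wt_nonneg {p : ℝ} (h0 : 0 ≤ p) (h1 : p ≤ 1) (ω : I → Bool) : 0 ≤ wt p ω := by
  unfold wt
  refine Finset.prod_nonneg fun i _ => ?_
  split_ifs
  · exact h0
  · linarith

open Classical in
theorem sum_wt (p : ℝ) : ∑ ω : I → Bool, wt p ω = 1 := by
  unfold wt
  have h := Finset.prod_univ_sum (fun _ : I => (Finset.univ : Finset Bool))
    (fun (_ : I) (b : Bool) => (if b = true then p else 1 - p))
  rw [Fintype.piFinset_univ] at h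
  rw [← h]
  simp

theorem Pr_true (p : ℝ) : Pr p (fun _ : I → Bool => True) = 1 := by
  classical
  unfold Pr
  simp only [if_true]
  exact (Finset.sum_congr (Finset.ext fun _ => by simp) fun _ _ => rfl).trans (sum_wt (I := I) p)

theorem Pr_mono {p : ℝ} (h0 : 0 ≤ p) (h1 : p ≤ 1) {A B : (I → Bool) → Prop}
    (h : ∀ ω, A ω → B ω) : Pr p A ≤ Pr p B := by
  classical
  unfold Pr
  refine Finset.sum_le_sum fun ω _ => ?_
  by_cases hA : A ω
  · rw [if_pos hA, if_pos (h ω hA)]
  · rw [if_neg hA]
    split_ifs
    · exact wt_nonneg h0 h1 ω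
    · exact le_rfl

theorem Pr_congr {p : ℝ} {A B : (I → Bool) → Prop} (h : ∀ ω, A ω ↔ B ω) : Pr p A = Pr p B := by
  have : A = B := by funext ω; exact propext (h ω)
  rw [this]

theorem Pr_nonneg {p : ℝ} (h0 : 0 ≤ p) (h1 : p ≤ 1) (A : (I → Bool) → Prop) : 0 ≤ Pr p A := by
  classical
  unfold Pr
  refine Finset.sum_nonneg fun ω _ => ?_
  split_ifs
  · exact wt_nonneg h0 h1 ω
  · exact le_rfl

theorem Pr_le_one {p : ℝ} (h0 : 0 ≤ p) (h1 : p ≤ 1) (A : (I → Bool) → Prop) : Pr p A ≤ 1 := by
  rw [← Pr_true (I := I) p]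
  exact Pr_mono h0 h1 fun _ _ => trivial

theorem Pr_not (p : ℝ) (A : (I → Bool) → Prop) : Pr p (fun ω => ¬ A ω) = 1 - Pr p A := by
  classical
  have h : Pr p (fun ω => ¬ A ω) + Pr p A = 1 := by
    rw [← Pr_true (I := I) p]
    unfold Pr
    rw [← Finset.sum_add_distrib]
    refine Finset.sum_congr rfl fun ω _ => ?_
    by_cases hA : A ω <;> simp [hA]
  linarith

theorem Pr_or_le {p : ℝ} (h0 : 0 ≤ p) (h1 : p ≤ 1) (A B : (I → Bool) → Prop) :
    Pr p (fun ω => A ω ∨ B ω) ≤ Pr p A + Pr p B := by
  classical
  unfold Pr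
  rw [← Finset.sum_add_distrib]
  refine Finset.sum_le_sum fun ω _ => ?_
  have := wt_nonneg h0 h1 ω
  by_cases hA : A ω <;> by_cases hB : B ω <;> simp [hA, hB, this]

theorem Pr_exists_le {p : ℝ} (h0 : 0 ≤ p) (h1 : p ≤ 1) {κ : Type*} (s : Finset κ)
    (A : κ → (I → Bool) → Prop) :
    Pr p (fun ω => ∃ k ∈ s, A k ω) ≤ ∑ k ∈ s, Pr p (A k) := by
  classical
  induction s using Finset.induction_on with
  | empty =>
    simp only [Finset.notMem_empty, false_and, exists_false, Finset.sum_empty]
    unfold Pr
    simp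
  | insert a s ha ih =>
    rw [Finset.sum_insert ha]
    refine le_trans (Pr_mono h0 h1 (B := fun ω => A a ω ∨ ∃ k ∈ s, A k ω) ?_) ?_
    · rintro ω ⟨k, hk, hA⟩
      rcases Finset.mem_insert.1 hk with rfl | hk
      · exact Or.inl hA
      · exact Or.inr ⟨k, hk, hA⟩
    · exact (Pr_or_le h0 h1 _ _).trans (add_le_add le_rfl ih)

end Basic

section Maps

variable {I J K : Type*} [Fintype I] [Fintype J] [Fintype K]

theorem Pr_equiv (p : ℝ) (e : J ≃ I) (A : (J → Bool) → Prop) :
    Pr p (fun ω : I → Bool => A (fun j => ω (e j))) = Pr p A := by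
  classical
  unfold Pr
  refine Fintype.sum_equiv (e.symm.arrowCongr (Equiv.refl Bool)) _ _ fun ω => ?_
  have h1 : (e.symm.arrowCongr (Equiv.refl Bool)) ω = fun j => ω (e j) := by
    funext j
    simp [Equiv.arrowCongr]
  have h2 : wt p ω = wt p (fun j => ω (e j)) := by
    unfold wt
    exact (Fintype.prod_equiv e (fun j => if ω (e j) = true then p else 1 - p)
      (fun i => if ω i = true then p else 1 - p) fun j => rfl).symm
  rw [h1, h2]

theorem Pr_inl (p : ℝ) (A : (J → Bool) → Prop) :
    Pr p (fun ω : J ⊕ K → Bool => A (fun j => ω (Sum.inl j))) = Pr p A := by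
  classical
  have h := Fintype.sum_equiv (Equiv.sumArrowEquivProdArrow J K Bool)
    (fun ω : J ⊕ K → Bool => if A (fun j => ω (Sum.inl j)) then wt p ω else 0)
    (fun x : (J → Bool) × (K → Bool) => (if A x.1 then wt p x.1 else 0) * wt p x.2) ?_
  · unfold Pr
    refine Eq.trans ?_ (h.trans ?_)
    · exact Finset.sum_congr (Finset.ext fun _ => by simp) fun ω _ => by
        by_cases hA : A fun j => ω (Sum.inl j) <;> simp [hA]
    rw [Fintype.sum_prod_type]
    refine Finset.sum_congr (Finset.ext fun _ => by simp) fun a _ => ?_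
    show ∑ y : K → Bool, (if A a then wt p a else 0) * wt p y = if A a then wt p a else 0
    rw [← Finset.mul_sum]
    have h5 := sum_wt (I := K) p
    have h6 : ∑ y : K → Bool, wt p y = 1 :=
      (Finset.sum_congr (Finset.ext fun _ => by simp) fun _ _ => rfl).trans h5
    rw [h6, mul_one]
  · intro ω
    have h3 : wt p ω = wt p (fun j => ω (Sum.inl j)) * wt p (fun k => ω (Sum.inr k)) := by
      unfold wt
      rw [Fintype.prod_sum_type]
    show (if A (fun j => ω (Sum.inl j)) then wt p ω else 0) =
      (if A (fun j => ω (Sum.inl j)) then wt p (fun j => ω (Sum.inl j)) else 0) *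
        wt p (fun k => ω (Sum.inr k))
    rw [h3]
    split_ifs <;> simp

/-- Marginals: the restriction of the product law along an injective map is the product law. -/
theorem Pr_comp (p : ℝ) (φ : J → I) (hφ : Function.Injective φ) (A : (J → Bool) → Prop) :
    Pr p (fun ω : I → Bool => A (fun j => ω (φ j))) = Pr p A := by
  classical
  let e : J ⊕ ((Set.range φ)ᶜ : Set I) ≃ I :=
    (Equiv.sumCongr (Equiv.ofInjective φ hφ) (Equiv.refl _)).trans
      (Equiv.Set.sumCompl (Set.range φ))
  have h1 := Pr_equiv p e (fun η : J ⊕ ((Set.range φ)ᶜ : Set I) → Bool =>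
    A (fun j => η (Sum.inl j)))
  rw [Pr_inl] at h1
  rw [← h1]
  rfl

/-- Independence of a finite family of events that depend on disjoint sets of coordinates. -/
theorem Pr_forall_prod (p : ℝ) (A : K → (J → Bool) → Prop) :
    Pr p (fun ω : K × J → Bool => ∀ k, A k (fun j => ω (k, j))) = ∏ k, Pr p (A k) := by
  classical
  have h := Fintype.sum_equiv (Equiv.curry K J Bool)
    (fun ω : K × J → Bool => if (∀ k, A k (fun j => ω (k, j))) then wt p ω else 0)
    (fun x : K → J → Bool => ∏ k, (if A k (x k) then wt p (x k) else 0)) ?_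
  · have h2 := Finset.prod_univ_sum (fun _ : K => (Finset.univ : Finset (J → Bool)))
      (fun (k : K) (η : J → Bool) => (if A k η then wt p η else 0))
    rw [Fintype.piFinset_univ] at h2
    unfold Pr
    refine Eq.trans ?_ (h.trans (h2.symm.trans ?_))
    · exact Finset.sum_congr (Finset.ext fun _ => by simp) fun ω _ => by
        by_cases hA : ∀ k, A k (fun j => ω (k, j))
        · rw [if_pos hA, if_pos hA]
        · rw [if_neg hA, if_neg hA]
    · refine Finset.prod_congr rfl fun k _ => ?_
      exact Finset.sum_congr (Finset.ext fun _ => by simp) fun ω _ => by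
        by_cases hA : A k ω <;> simp only [hA, if_true, if_false]
  · intro ω
    show _ = ∏ k, (if A k (fun j => ω (k, j)) then wt p (fun j => ω (k, j)) else 0)
    have h3 : wt p ω = ∏ k, wt p (fun j => ω (k, j)) := by
      unfold wt
      rw [Fintype.prod_prod_type]
    by_cases hA : ∀ k, A k (fun j => ω (k, j))
    · rw [if_pos hA, h3]
      exact Finset.prod_congr rfl fun k _ => by rw [if_pos (hA k)]
    · rw [if_neg hA]
      push Not at hA
      obtain ⟨k, hk⟩ := hA
      exact (Finset.prod_eq_zero (Finset.mem_univ k) (by rw [if_neg hk])).symm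

/-- Independence along an injective family of coordinates. -/
theorem Pr_forall (p : ℝ) (φ : K × J → I) (hφ : Function.Injective φ)
    (A : K → (J → Bool) → Prop) :
    Pr p (fun ω : I → Bool => ∀ k, A k (fun j => ω (φ (k, j)))) = ∏ k, Pr p (A k) := by
  rw [← Pr_forall_prod p A]
  exact Pr_comp p φ hφ (fun η : K × J → Bool => ∀ k, A k (fun j => η (k, j)))

theorem Pr_single (p : ℝ) (b : Bool) :
    Pr p (fun ω : Unit → Bool => ω () = b) = if b = true then p else 1 - p := by
  classical
  have h := Fintype.sum_equiv (Equiv.funUnique Unit Bool)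
    (fun ω : Unit → Bool => if ω () = b then wt p ω else 0)
    (fun c : Bool => if c = b then (if c = true then p else 1 - p) else 0) (fun ω => by
      simp [wt, Equiv.funUnique])
  unfold Pr
  refine Eq.trans ?_ (h.trans ?_)
  · exact Finset.sum_congr (Finset.ext fun _ => by simp) fun ω _ => by
      by_cases hA : ω () = b
      · rw [if_pos hA, if_pos hA]
      · rw [if_neg hA, if_neg hA]
  · cases b <;> simp

theorem Pr_all (p : ℝ) (b : Bool) :
    Pr p (fun ω : J → Bool => ∀ j, ω j = b) = (if b = true then p else 1 - p) ^ Fintype.card J := by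
  have h := Pr_forall (I := J) (K := J) (J := Unit) p (fun x => x.1)
    (by rintro ⟨a, _⟩ ⟨b, _⟩ h; simpa using h) (fun _ η => η () = b)
  rw [h]
  simp [Pr_single]

/-- Probability that all the coordinates in a finite set have value `b`. -/
theorem Pr_all_finset [DecidableEq I] (p : ℝ) (b : Bool) (s : Finset I) :
    Pr p (fun ω : I → Bool => ∀ i ∈ s, ω i = b) = (if b = true then p else 1 - p) ^ s.card := by
  have h := Pr_comp (I := I) (J := s) p (fun x => x.1) Subtype.val_injective
    (fun η => ∀ j, η j = b)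
  rw [Pr_all, Fintype.card_coe] at h
  rw [← h]
  refine Pr_congr fun ω => ?_
  simp

end Maps

end Pool.Agent.R961
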