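import Mathlib
import Pool.Agent.R961.SSignCert

/-! A verified search: every assignment of the nine signs to the ten edges of the complete graph on
five vertices, the first edge having sign `0`, either has a colouring with three colours or has no
colouring with four colours. -/

set_option autoImplicit false

namespace Pool.Agent.R961.SSign

/-- bit `s` of the block `4 * x + y` says that the sign `s` maps the colour `x + 1` to `y + 1` -/
def TBL : ℕ := 0xa82801e0511063800a40d1060f00600c01

/-- the signs mapping the colour `x + 1` to the colour `y + 1` -/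
def mask (x y : ℕ) : ℕ :=
  Nat.mod (Nat.shiftRight TBL (Nat.mul 9 (Nat.add (Nat.mul 4 x) y))) 512

/-- the colour (minus one) of the vertex `i` in the colouring with code `t` -/
def dig (t i : ℕ) : ℕ := Nat.mod (Nat.shiftRight t (Nat.mul 2 i)) 4

/-- the signs that an edge needs to forbid the colouring `t` -/
def needs (t : ℕ) : List ℕ :=
  [mask (dig t 0) (dig t 1), mask (dig t 0) (dig t 2), mask (dig t 1) (dig t 2),
   mask (dig t 0) (dig t 3), mask (dig t 1) (dig t 3), mask (dig t 2) (dig t 3),
   mask (dig t 0) (dig t 4), mask (dig t 1) (dig t 4), mask (dig t 2) (dig t 4),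
   mask (dig t 3) (dig t 4)]

/-- only the first three colours are used -/
def is3 (t : ℕ) : Bool :=
  (dig t 0).blt 3 && ((dig t 1).blt 3 && ((dig t 2).blt 3 && ((dig t 3).blt 3 && (dig t 4).blt 3)))

/-- the assignment `σ` forbids the colouring `t` -/
def Cov (σ : List ℕ) (t : ℕ) : Prop := ∃ p ∈ List.zip σ (needs t), Nat.testBit p.2 p.1 = true

/-- the property to be proved for all assignments -/
def P (σ : List ℕ) : Prop := (∃ t, is3 t = true ∧ ¬ Cov σ t) ∨ ∀ t, Cov σ t

/-- the assignment `σ` is allowed by the masks `al` -/
def Ok (σ al : List ℕ) : Prop := List.Forall₂ (fun s a => Nat.testBit a s = true) σ al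

/-- for all four colours -/
def all4 (f : ℕ → Bool) : Bool := f 0 && (f 1 && (f 2 && f 3))

/-- inclusion of masks -/
def sub (a m : ℕ) : Bool := Nat.beq (Nat.land a m) a

/-- no colouring with four colours whatever the choice of the signs in the masks -/
def leafOK : List ℕ → Bool
  | [a01, a02, a12, a03, a13, a23, a04, a14, a24, a34] =>
    all4 fun c0 => all4 fun c1 => sub a01 (mask c0 c1) ||
    all4 fun c2 => sub a02 (mask c0 c2) || (sub a12 (mask c1 c2) ||
    all4 fun c3 => sub a03 (mask c0 c3) || (sub a13 (mask c1 c3) || (sub a23 (mask c2 c3) ||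
    all4 fun c4 => sub a04 (mask c0 c4) || (sub a14 (mask c1 c4) || (sub a24 (mask c2 c4) ||
      sub a34 (mask c3 c4))))))
  | _ => false

/-- streams of codes -/
abbrev Strm : Type := ℕ × List ℕ

/-- read one code -/
def next : Strm → Option (ℕ × Strm)
  | (cur, rest) =>
    match Nat.beq cur 1 with
    | true =>
      match rest with
      | [] => none
      | c :: r => some (Nat.mod c 1024, (Nat.div c 1024, r))
    | false => some (Nat.mod cur 1024, (Nat.div cur 1024, rest))

/-- the loop over the edges -/
def loop (rec : List ℕ → Strm → Option Strm) :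
    List ℕ → List ℕ → List ℕ → Strm → Option Strm
  | _, [], _, s => some s
  | _, _ :: _, [], _ => none
  | pre, a :: al, n :: nd, s =>
    match Nat.beq (Nat.land a n) 0 with
    | true => loop rec (a :: pre) al nd s
    | false =>
      match rec (List.reverseAux pre (Nat.land a n :: al)) s with
      | none => none
      | some s' =>
        match Nat.beq (Nat.xor a (Nat.land a n)) 0 with
        | true => some s'
        | false => loop rec (Nat.xor a (Nat.land a n) :: pre) al nd s'

/-- the checker -/
def run : ℕ → List ℕ → Strm → Option Strm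
  | 0, _, _ => none
  | k + 1, al, s =>
    match next s with
    | none => none
    | some (t, s') =>
      match Nat.beq t 1023 with
      | true =>
        match leafOK al with
        | true => some s'
        | false => none
      | false =>
        match is3 t with
        | true => loop (run k) [] al (needs t) s'
        | false => none

theorem sub_sound {a m s : ℕ} (h : sub a m = true) (hs : Nat.testBit a s = true) :
    Nat.testBit m s = true := by
  unfold sub at h
  have h1 : a &&& m = a := Nat.eq_of_beq_eq_true h
  have h2 : Nat.testBit (a &&& m) s = true := by rw [h1]; exact hs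
  rw [Nat.testBit_and, Bool.and_eq_true] at h2
  exact h2.2

theorem all4_sound {f : ℕ → Bool} (h : all4 f = true) {c : ℕ} (hc : c < 4) : f c = true := by
  unfold all4 at h
  simp only [Bool.and_eq_true] at h
  obtain ⟨h0, h1, h2, h3⟩ := h
  interval_cases c <;> assumption

theorem dig_lt (t i : ℕ) : dig t i < 4 := Nat.mod_lt _ (by norm_num)

theorem leaf_sound {al σ : List ℕ} (h : leafOK al = true) (hσ : Ok σ al) (t : ℕ) : Cov σ t := by
  unfold leafOK at h
  split at h
  case h_2 => exact absurd h (by simp)
  case h_1 a01 a02 a12 a03 a13 a23 a04 a14 a24 a34 =>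
    unfold Ok at hσ
    simp only [List.forall₂_cons_right_iff, List.forall₂_nil_right_iff] at hσ
    obtain ⟨s01, σ1, h01, ⟨s02, σ2, h02, ⟨s12, σ3, h12, ⟨s03, σ4, h03, ⟨s13, σ5, h13,
      ⟨s23, σ6, h23, ⟨s04, σ7, h04, ⟨s14, σ8, h14, ⟨s24, σ9, h24, ⟨s34, σ10, h34, rfl, rfl⟩,
      rfl⟩, rfl⟩, rfl⟩, rfl⟩, rfl⟩, rfl⟩, rfl⟩, rfl⟩, rfl⟩ := hσ
    have h' := all4_sound (all4_sound h (dig_lt t 0)) (dig_lt t 1)
    unfold Cov needs
    simp only [List.zip_cons_cons, List.zip_nil_right, List.mem_cons, List.not_mem_nil, or_false,
      exists_eq_or_imp, exists_eq_left]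
    rcases Bool.or_eq_true _ _ ▸ h' with h' | h'
    · exact Or.inl (sub_sound h' h01)
    have h' := all4_sound h' (dig_lt t 2)
    rcases Bool.or_eq_true _ _ ▸ h' with h' | h'
    · exact Or.inr (Or.inl (sub_sound h' h02))
    rcases Bool.or_eq_true _ _ ▸ h' with h' | h'
    · exact Or.inr (Or.inr (Or.inl (sub_sound h' h12)))
    have h' := all4_sound h' (dig_lt t 3)
    rcases Bool.or_eq_true _ _ ▸ h' with h' | h'
    · exact Or.inr (Or.inr (Or.inr (Or.inl (sub_sound h' h03))))
    rcases Bool.or_eq_true _ _ ▸ h' with h' | h'
    · exact Or.inr (Or.inr (Or.inr (Or.inr (Or.inl (sub_sound h' h13)))))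
    rcases Bool.or_eq_true _ _ ▸ h' with h' | h'
    · exact Or.inr (Or.inr (Or.inr (Or.inr (Or.inr (Or.inl (sub_sound h' h23))))))
    have h' := all4_sound h' (dig_lt t 4)
    rcases Bool.or_eq_true _ _ ▸ h' with h' | h'
    · exact Or.inr (Or.inr (Or.inr (Or.inr (Or.inr (Or.inr (Or.inl (sub_sound h' h04)))))))
    rcases Bool.or_eq_true _ _ ▸ h' with h' | h'
    · exact Or.inr (Or.inr (Or.inr (Or.inr (Or.inr (Or.inr (Or.inr (Or.inl
        (sub_sound h' h14))))))))
    rcases Bool.or_eq_true _ _ ▸ h' with h' | h'
    · exact Or.inr (Or.inr (Or.inr (Or.inr (Or.inr (Or.inr (Or.inr (Or.inr (Or.inl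
        (sub_sound h' h24)))))))))
    · exact Or.inr (Or.inr (Or.inr (Or.inr (Or.inr (Or.inr (Or.inr (Or.inr (Or.inr
        (sub_sound h' h34)))))))))

theorem ok_reverseAux {σpre pre σ al : List ℕ} (h1 : Ok σpre pre) (h2 : Ok σ al) :
    Ok (List.reverseAux σpre σ) (List.reverseAux pre al) := by
  induction h1 generalizing σ al with
  | nil => exact h2
  | cons ha _ ih => exact ih (List.Forall₂.cons ha h2)

theorem loop_sound {rec : List ℕ → Strm → Option Strm} {Q : List ℕ → Prop}
    (hrec : ∀ al s s', rec al s = some s' → ∀ σ, Ok σ al → Q σ) :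
    ∀ (al pre nd : List ℕ) (s s' : Strm), loop rec pre al nd s = some s' →
      ∀ σpre σ, Ok σpre pre → Ok σ al → (∃ p ∈ List.zip σ nd, Nat.testBit p.2 p.1 = true) →
        Q (List.reverseAux σpre σ) := by
  intro al
  induction al with
  | nil =>
    intro pre nd s s' _ σpre σ _ hσ hex
    cases hσ
    simp at hex
  | cons a al ih =>
    intro pre nd s s' hl σpre σ hpre hσ hex
    cases hσ with
    | @cons s0 _ σ' _ hs0 hσ' =>
    cases nd with
    | nil => simp at hex
    | cons n nd =>
      simp only [List.zip_cons_cons, List.mem_cons, exists_eq_or_imp] at hex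
      rw [loop] at hl
      have hland : Nat.land a n = a &&& n := rfl
      rw [hland] at hl
      have hxor : Nat.xor a (a &&& n) = a ^^^ (a &&& n) := rfl
      rw [hxor] at hl
      split at hl
      · next h0 =>
        replace h0 : a &&& n = 0 := Nat.eq_of_beq_eq_true h0
        have hn : Nat.testBit n s0 = false := by
          by_contra hc
          have h1 : Nat.testBit (a &&& n) s0 = true := by
            rw [Nat.testBit_and, hs0]; simpa using hc
          rw [h0] at h1
          simp at h1
        rcases hex with h | h
        · rw [hn] at h; exact absurd h (by simp)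
        · exact ih (a :: pre) nd s s' hl (s0 :: σpre) σ' (List.Forall₂.cons hs0 hpre) hσ' h
      · split at hl
        · exact absurd hl (by simp)
        · next s1 hr =>
          by_cases hn : Nat.testBit n s0 = true
          · refine hrec _ _ _ hr _ (ok_reverseAux hpre (List.Forall₂.cons ?_ hσ'))
            rw [Nat.testBit_and, hs0, hn]; rfl
          · have hx : Nat.testBit (a ^^^ (a &&& n)) s0 = true := by
              have hn' : Nat.testBit n s0 = false := by simpa using hn
              rw [Nat.testBit_xor, Nat.testBit_and, hs0, hn']; rfl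
            rcases hex with h | h
            · exact absurd h hn
            · split at hl
              · next h2 =>
                rw [Nat.eq_of_beq_eq_true h2] at hx; simp at hx
              · exact ih _ nd s1 s' hl (s0 :: σpre) σ' (List.Forall₂.cons hx hpre) hσ' h

theorem run_sound : ∀ (k : ℕ) (al : List ℕ) (s s' : Strm), run k al s = some s' →
    ∀ σ, Ok σ al → P σ := by
  intro k
  induction k with
  | zero => intro al s s' h; simp [run] at h
  | succ k ih =>
    intro al s s' h σ hσ
    rw [run] at h
    split at h
    · exact absurd h (by simp)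
    · next t s1 _ =>
      split at h
      · split at h
        · next h2 => exact Or.inr fun t => leaf_sound h2 hσ t
        · exact absurd h (by simp)
      · split at h
        case h_2 => exact absurd h (by simp)
        next h3 =>
        by_cases hc : Cov σ t
        · exact loop_sound (Q := P) ih al [] (needs t) s1 s' h [] σ List.Forall₂.nil hσ hc
        · exact Or.inl ⟨t, h3, hc⟩

end Pool.Agent.R961.SSign
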