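import Mathlib
import Pool.Agent.R961.SSignCheck

/-! The search, evaluated by the kernel. -/

set_option autoImplicit false

namespace Pool.Agent.R961.SSign

theorem search_ok :
    (run 20 [1, 511, 511, 511, 511, 511, 511, 511, 511, 511] (1, certAll)).isSome = true := by
  decide +kernel

theorem search {σ : List ℕ} (h : Ok σ [1, 511, 511, 511, 511, 511, 511, 511, 511, 511]) : P σ := by
  obtain ⟨s', hs'⟩ := Option.isSome_iff_exists.1 search_ok
  exact run_sound _ _ _ _ hs' σ h

end Pool.Agent.R961.SSign
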