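import Pool.Agent.R537.TE.Stm

/-!
# TE-DIST (MP_507a1e_gt): upper bound for the distortion of `φ_z`
-/

namespace Pool.Agent.R961.TEDIST

open Pool.Agent.R537.TE
open scoped ENNReal
open Real

theorem t_DIST (h : S_PHI) : S_DIST := by
  intro n L w C hC hcl hne hF
  have hlo : ∀ x y, Metric.infDist (x - y) L ^ 2 ≤ ‖w.phi x - w.phi y‖ ^ 2 := fun x y => by
    rw [h]; exact (hF _).1
  have hhi : ∀ x y, ‖w.phi x - w.phi y‖ ^ 2 ≤ C * Metric.infDist (x - y) L ^ 2 := fun x y => by
    rw [h]; exact (hF _).2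
  have hinj : TorusInj L w.phi := by
    intro x y
    rw [hcl.mem_iff_infDist_zero hne]
    constructor
    · intro he
      have h1 := hlo x y
      rw [he, sub_self, norm_zero] at h1
      have h2 := sq_nonneg (Metric.infDist (x - y) L)
      have h3 : Metric.infDist (x - y) L ^ 2 = 0 := by nlinarith
      exact pow_eq_zero_iff (two_ne_zero) |>.1 h3
    · intro he
      have h1 := hhi x y
      rw [he] at h1
      have h2 := sq_nonneg (‖w.phi x - w.phi y‖)
      have h3 : ‖w.phi x - w.phi y‖ ^ 2 = 0 := by nlinarith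
      have h4 := pow_eq_zero_iff (two_ne_zero) |>.1 h3
      exact sub_eq_zero.1 (norm_eq_zero.1 h4)
  refine ⟨hinj, ?_⟩
  have hpos : ∀ x y, x - y ∉ L → 0 < Metric.infDist (x - y) L := by
    intro x y hxy
    rcases (Metric.infDist_nonneg (x := x - y) (s := L)).lt_or_eq with h1 | h1
    · exact h1
    · exact absurd ((hcl.mem_iff_infDist_zero hne).2 h1.symm) hxy
  have hnpos : ∀ x y, x - y ∉ L → 0 < ‖w.phi x - w.phi y‖ := by
    intro x y hxy
    rw [norm_pos_iff]
    intro h1
    exact hxy ((hinj x y).1 (sub_eq_zero.1 h1))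
  have he : expansion L w.phi ≤ ENNReal.ofReal (√C) := by
    refine iSup_le fun x => iSup_le fun y => iSup_le fun hxy => ?_
    refine ENNReal.ofReal_le_ofReal ?_
    rw [tdist, div_le_iff₀ (hpos x y hxy)]
    have h1 := Real.sqrt_le_sqrt (hhi x y)
    rwa [Real.sqrt_sq (norm_nonneg _), Real.sqrt_mul hC,
      Real.sqrt_sq (Metric.infDist_nonneg)] at h1
  have hc : contraction L w.phi ≤ 1 := by
    refine iSup_le fun x => iSup_le fun y => iSup_le fun hxy => ?_
    rw [← ENNReal.ofReal_one]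
    refine ENNReal.ofReal_le_ofReal ?_
    rw [tdist, div_le_iff₀ (hnpos x y hxy), one_mul]
    have h1 := Real.sqrt_le_sqrt (hlo x y)
    rwa [Real.sqrt_sq (norm_nonneg _), Real.sqrt_sq (Metric.infDist_nonneg)] at h1
  calc distortion L w.phi = expansion L w.phi * contraction L w.phi := rfl
    _ ≤ ENNReal.ofReal (√C) * 1 := mul_le_mul' he hc
    _ = ENNReal.ofReal (√C) := mul_one _

end Pool.Agent.R961.TEDIST
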