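import Pool.Agent.R537.TE.Stm

/-!
# TE-MAPS (MP_507a1e_gt): rescaled maps of almost least distortion
-/

namespace Pool.Agent.R961.TEMAPS

open Pool.Agent.R537.TE
open scoped ENNReal
open Real

theorem t_MAPS : S_MAPS := by
  intro n L x₁ C hcl h0 hx₁ htop hC
  have hne : L.Nonempty := ⟨0, h0⟩
  have hC0 : 0 < C := lt_of_le_of_lt (sq_nonneg _) hC
  have h1 : c2 L < ENNReal.ofReal (√C) := by
    rw [← ENNReal.ofReal_toReal htop, ENNReal.ofReal_lt_ofReal_iff (Real.sqrt_pos.2 hC0)]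
    exact Real.lt_sqrt_of_sq_lt hC
  unfold c2 at h1
  simp only [iInf_lt_iff] at h1
  obtain ⟨H, i1, i2, i3, φ, hφ, hd⟩ := h1
  have hpos : ∀ x y, x - y ∉ L → 0 < Metric.infDist (x - y) L := by
    intro x y hxy
    rcases (Metric.infDist_nonneg (x := x - y) (s := L)).lt_or_eq with h1 | h1
    · exact h1
    · exact absurd ((hcl.mem_iff_infDist_zero hne).2 h1.symm) hxy
  have hnpos : ∀ x y, x - y ∉ L → 0 < ‖φ x - φ y‖ := by
    intro x y hxy
    rw [norm_pos_iff]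
    intro h1
    exact hxy ((hφ x y).1 (sub_eq_zero.1 h1))
  have hle1 : ∀ x y, x - y ∉ L →
      ENNReal.ofReal (‖φ x - φ y‖ / Metric.infDist (x - y) L) ≤ expansion L φ := by
    intro x y hxy
    exact le_iSup_of_le x (le_iSup_of_le y (le_iSup_of_le hxy le_rfl))
  have hle2 : ∀ x y, x - y ∉ L →
      ENNReal.ofReal (Metric.infDist (x - y) L / ‖φ x - φ y‖) ≤ contraction L φ := by
    intro x y hxy
    exact le_iSup_of_le x (le_iSup_of_le y (le_iSup_of_le hxy le_rfl))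
  have hx : x₁ - 0 ∉ L := by rwa [sub_zero]
  have he0 : expansion L φ ≠ 0 := by
    intro h
    have h2 := hle1 _ _ hx
    rw [h, nonpos_iff_eq_zero, ENNReal.ofReal_eq_zero] at h2
    exact absurd h2 (not_le.2 (div_pos (hnpos _ _ hx) (hpos _ _ hx)))
  have hc0 : contraction L φ ≠ 0 := by
    intro h
    have h2 := hle2 _ _ hx
    rw [h, nonpos_iff_eq_zero, ENNReal.ofReal_eq_zero] at h2
    exact absurd h2 (not_le.2 (div_pos (hpos _ _ hx) (hnpos _ _ hx)))
  have hdt : expansion L φ * contraction L φ ≠ ⊤ := by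
    have : distortion L φ ≠ ⊤ := ne_top_of_lt hd
    exact this
  have het : expansion L φ ≠ ⊤ := by
    intro h
    rw [h, ENNReal.top_mul hc0] at hdt
    exact hdt rfl
  have hct : contraction L φ ≠ ⊤ := by
    intro h
    rw [h, ENNReal.mul_top he0] at hdt
    exact hdt rfl
  obtain ⟨e, he⟩ : ∃ e, e = (expansion L φ).toReal := ⟨_, rfl⟩
  obtain ⟨κ, hκ⟩ : ∃ κ, κ = (contraction L φ).toReal := ⟨_, rfl⟩
  have hκ0 : 0 < κ := by
    rw [hκ]
    exact ENNReal.toReal_pos hc0 hct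
  have hen : 0 ≤ e := by
    rw [he]
    exact ENNReal.toReal_nonneg
  have hke : e * κ < √C := by
    have h2 : expansion L φ * contraction L φ < ENNReal.ofReal (√C) := hd
    rw [← ENNReal.ofReal_toReal het, ← ENNReal.ofReal_toReal hct,
      ← ENNReal.ofReal_mul ENNReal.toReal_nonneg,
      ENNReal.ofReal_lt_ofReal_iff (Real.sqrt_pos.2 hC0)] at h2
    rw [he, hκ]
    exact h2
  have heq0 : ∀ x y, x - y ∈ L → φ x - φ y = 0 ∧ Metric.infDist (x - y) L = 0 := by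
    intro x y hxy
    exact ⟨sub_eq_zero.2 ((hφ x y).2 hxy), (hcl.mem_iff_infDist_zero hne).1 hxy⟩
  have hA : ∀ x y, Metric.infDist (x - y) L ≤ κ * ‖φ x - φ y‖ := by
    intro x y
    by_cases hxy : x - y ∈ L
    · obtain ⟨h2, h3⟩ := heq0 x y hxy
      rw [h2, h3, norm_zero, mul_zero]
    · have h2 := hle2 x y hxy
      rw [ENNReal.ofReal_le_iff_le_toReal hct, div_le_iff₀ (hnpos x y hxy), ← hκ] at h2
      exact h2
  have hB : ∀ x y, ‖φ x - φ y‖ ≤ e * Metric.infDist (x - y) L := by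
    intro x y
    by_cases hxy : x - y ∈ L
    · obtain ⟨h2, h3⟩ := heq0 x y hxy
      rw [h2, h3, norm_zero, mul_zero]
    · have h2 := hle1 x y hxy
      rw [ENNReal.ofReal_le_iff_le_toReal het, div_le_iff₀ (hpos x y hxy), ← he] at h2
      exact h2
  have hnorm : ∀ x y, ‖(κ : ℂ) • φ x - (κ : ℂ) • φ y‖ = κ * ‖φ x - φ y‖ := by
    intro x y
    rw [← smul_sub, norm_smul, Complex.norm_real, Real.norm_eq_abs, abs_of_pos hκ0]
  have hκC : (κ : ℂ) ≠ 0 := by
    exact_mod_cast hκ0.ne'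
  refine ⟨H, i1, i2, fun x => (κ : ℂ) • φ x, ?_, ?_⟩
  · intro x y
    rw [← hφ x y]
    constructor
    · intro h2
      exact smul_right_injective H hκC h2
    · intro h2
      show (κ : ℂ) • φ x = (κ : ℂ) • φ y
      rw [h2]
  · intro x y
    show _ ≤ ‖(κ : ℂ) • φ x - (κ : ℂ) • φ y‖ ^ 2 ∧ ‖(κ : ℂ) • φ x - (κ : ℂ) • φ y‖ ^ 2 ≤ _
    rw [hnorm]
    have hd0 : 0 ≤ Metric.infDist (x - y) L := Metric.infDist_nonneg
    refine ⟨pow_le_pow_left₀ hd0 (hA x y) 2, ?_⟩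
    have h2 : κ * ‖φ x - φ y‖ ≤ √C * Metric.infDist (x - y) L := by
      calc κ * ‖φ x - φ y‖ ≤ κ * (e * Metric.infDist (x - y) L) :=
            mul_le_mul_of_nonneg_left (hB x y) hκ0.le
        _ = (e * κ) * Metric.infDist (x - y) L := by ring
        _ ≤ √C * Metric.infDist (x - y) L := mul_le_mul_of_nonneg_right hke.le hd0
    calc (κ * ‖φ x - φ y‖) ^ 2 ≤ (√C * Metric.infDist (x - y) L) ^ 2 :=
          pow_le_pow_left₀ (mul_nonneg hκ0.le (norm_nonneg _)) h2 2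
      _ = C * Metric.infDist (x - y) L ^ 2 := by rw [mul_pow, Real.sq_sqrt hC0.le]

end Pool.Agent.R961.TEMAPS
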