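import Pool.Agent.R537.TE.Stm

/-!
# TE-PHI (MP_507a1e_gt): the norm of the differences of `φ_z`
-/

namespace Pool.Agent.R961.TEPHI

open Pool.Agent.R537.TE
open scoped ENNReal
open Real

theorem key (a b s : ℝ) : ‖((s : ℝ) : ℂ) * Complex.exp ((a : ℂ) * Complex.I) -
    ((s : ℝ) : ℂ) * Complex.exp ((b : ℂ) * Complex.I)‖ ^ 2 = 2 * (s ^ 2 * (1 - cos (a - b))) := by
  rw [← mul_sub, norm_mul, mul_pow, Complex.norm_real, Real.norm_eq_abs, sq_abs, Complex.sq_norm,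
    Complex.normSq_apply, Complex.sub_re, Complex.sub_im, Complex.exp_ofReal_mul_I_re,
    Complex.exp_ofReal_mul_I_re, Complex.exp_ofReal_mul_I_im, Complex.exp_ofReal_mul_I_im,
    Real.cos_sub]
  have h1 := Real.sin_sq_add_cos_sq a
  have h2 := Real.sin_sq_add_cos_sq b
  linear_combination (s ^ 2) * h1 + (s ^ 2) * h2

theorem t_PHI : S_PHI := by
  intro n L w x y
  have h0 := lp.norm_rpow_eq_tsum (p := 2) (by norm_num) (w.phi x - w.phi y)
  have e : (2 : ℝ≥0∞).toReal = ((2 : ℕ) : ℝ) := by norm_num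
  rw [e, Real.rpow_natCast] at h0
  rw [h0, Weight.F, ← tsum_mul_left]
  refine tsum_congr fun u => ?_
  rw [Real.rpow_natCast]
  have h1 : (w.phi x - w.phi y) u = ((√(w.z u) : ℝ) : ℂ) *
      Complex.exp (((2 * π * inner ℝ (u : E n) x : ℝ) : ℂ) * Complex.I) -
      ((√(w.z u) : ℝ) : ℂ) *
      Complex.exp (((2 * π * inner ℝ (u : E n) y : ℝ) : ℂ) * Complex.I) := rfl
  rw [h1, key, Real.sq_sqrt (w.nonneg u), inner_sub_right, mul_sub (2 * π)]

end Pool.Agent.R961.TEPHI
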