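import Pool.Agent.R961.Cyl

/-!
# Probabilities of slab events in the torus
-/

set_option autoImplicit false

namespace Pool.Agent.R961

open Relation Finset

variable {a b : ℕ}

/-- Lift of a configuration of the torus to the cylinder. -/
def lift (ω : ZMod a × ZMod b × Bool → Bool) : Cfg b := fun i y d => ω ((i : ZMod a), y, d)

/-- Extension of a slab configuration by closed edges. -/
def ext (l : ℕ) (η : Fin l × ZMod b × Bool → Bool) : Cfg b := fun i y d =>
  if h : 0 ≤ i ∧ i < l then η (⟨i.toNat, by omega⟩, y, d) else false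

/-- The configuration seen in the slab `[s, s + l)`. -/
def win (l : ℕ) (ω : Cfg b) (s : ℤ) : Fin l × ZMod b × Bool → Bool :=
  fun x => ω (s + (x.1 : ℕ)) x.2.1 x.2.2

theorem ext_win {l : ℕ} {ω : Cfg b} {s i : ℤ} (h0 : 0 ≤ i) (h1 : i < l) :
    ext l (win l ω s) i = ω (i + s) := by
  funext y d
  unfold ext win
  rw [dif_pos ⟨h0, h1⟩]
  simp only [Int.toNat_of_nonneg h0, add_comm]

theorem cross_win {l : ℕ} {ω : Cfg b} {s : ℤ} :
    Cross (ext l (win l ω s)) 0 l ↔ Cross ω s (s + l) := by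
  constructor
  · rintro ⟨y, y', h⟩
    have := h.shift (ω' := ω) (c := s) (s' := s) (t' := s + l)
      (fun i hi hi' => (ext_win hi hi').symm) (by omega) (by omega)
    simp only [zero_add] at this
    refine ⟨y, y', ?_⟩
    rw [add_comm s (l : ℤ)]
    rw [add_comm s (l : ℤ)] at this
    exact this
  · rintro ⟨y, y', h⟩
    have := h.shift (ω' := ext l (win l ω s)) (c := -s) (s' := 0) (t' := l)
      (fun i hi hi' => by rw [ext_win (by omega) (by omega)]; congr 1; ring) (by omega) (by omega)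
    simp only [add_neg_cancel] at this
    refine ⟨y, y', ?_⟩
    have e : s + (l : ℤ) + -s = l := by ring
    rw [e] at this
    exact this

theorem cast_inj {a : ℕ} [NeZero a] {s : ℤ} {k k' : ℕ} (hk : k < a) (hk' : k' < a)
    (h : ((s + k : ℤ) : ZMod a) = ((s + k' : ℤ) : ZMod a)) : k = k' := by
  push_cast at h
  have h2 : (k : ZMod a) = (k' : ZMod a) := add_left_cancel h
  have h3 := congrArg ZMod.val h2
  rwa [ZMod.val_natCast_of_lt hk, ZMod.val_natCast_of_lt hk'] at h3

variable [NeZero a] [NeZero b]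

/-- The probability of an open crossing of a slab of length `l`. -/
noncomputable def u (p : ℝ) (b l : ℕ) [NeZero b] : ℝ :=
  Pr p (fun η : Fin l × ZMod b × Bool → Bool => Cross (ext l η) 0 l)

theorem torus_cross (p : ℝ) {l : ℕ} (hl : l ≤ a) (s : ℤ) :
    Pr p (fun ω : ZMod a × ZMod b × Bool → Bool => Cross (lift ω) s (s + l)) = u p b l := by
  have h := Pr_comp (I := ZMod a × ZMod b × Bool) (J := Fin l × ZMod b × Bool) p
    (fun x => (((s + (x.1 : ℕ) : ℤ) : ZMod a), x.2.1, x.2.2)) ?_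
    (fun η => Cross (ext l η) 0 l)
  · unfold u
    rw [← h]
    refine Pr_congr fun ω => ?_
    rw [← cross_win]
    rfl
  · rintro ⟨k, y, d⟩ ⟨k', y', d'⟩ h
    simp only [Prod.mk.injEq] at h
    obtain ⟨h1, h2, h3⟩ := h
    have := cast_inj (lt_of_lt_of_le k.2 hl) (lt_of_lt_of_le k'.2 hl) h1
    simp only [Prod.mk.injEq]
    exact ⟨Fin.ext this, h2, h3⟩

theorem torus_arcs (p : ℝ) {K l : ℕ} (hl : K * l ≤ a) :
    Pr p (fun ω : ZMod a × ZMod b × Bool → Bool =>
      ∀ k : Fin K, ¬ Cross (lift ω) ((k : ℕ) * l : ℕ) (((k : ℕ) * l : ℕ) + l)) = (1 - u p b l) ^ K := by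
  have h := Pr_forall (I := ZMod a × ZMod b × Bool) (K := Fin K) (J := Fin l × ZMod b × Bool) p
    (fun x => (((((x.1 : ℕ) * l : ℕ) + (x.2.1 : ℕ) : ℤ) : ZMod a), x.2.2.1, x.2.2.2)) ?_
    (fun _ η => ¬ Cross (ext l η) 0 l)
  · rw [Finset.prod_const, Finset.card_univ, Fintype.card_fin, Pr_not] at h
    unfold u
    rw [← h]
    refine Pr_congr fun ω => ?_
    refine forall_congr' fun k => ?_
    rw [← cross_win]
    rfl
  · rintro ⟨k, i, y, d⟩ ⟨k', i', y', d'⟩ h
    simp only [Prod.mk.injEq] at h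
    obtain ⟨h1, h2, h3⟩ := h
    have e1 : (k : ℕ) * l + i < a := by
      have : (k : ℕ) * l + i < (k + 1) * l := by
        have := i.2
        nlinarith
      exact lt_of_lt_of_le this (le_trans (Nat.mul_le_mul_right l k.2) hl)
    have e2 : (k' : ℕ) * l + i' < a := by
      have : (k' : ℕ) * l + i' < (k' + 1) * l := by
        have := i'.2
        nlinarith
      exact lt_of_lt_of_le this (le_trans (Nat.mul_le_mul_right l k'.2) hl)
    have h4 := cast_inj (s := 0) e1 e2 (by push_cast at h1 ⊢; simpa using h1)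
    have hlpos : 0 < l := lt_of_le_of_lt (Nat.zero_le _) i.2
    have h5 : (k : ℕ) = k' := by
      have e3 : ((k : ℕ) * l + i) / l = k := by
        rw [Nat.mul_comm, Nat.mul_add_div hlpos, Nat.div_eq_of_lt i.2, add_zero]
      have e4 : ((k' : ℕ) * l + i') / l = k' := by
        rw [Nat.mul_comm, Nat.mul_add_div hlpos, Nat.div_eq_of_lt i'.2, add_zero]
      rw [← e3, ← e4, h4]
    have h6 : (i : ℕ) = i' := by
      rw [h5] at h4
      omega
    simp only [Prod.mk.injEq]
    exact ⟨Fin.ext h5, Fin.ext h6, h2, h3⟩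

theorem torus_full (p : ℝ) {L : ℕ} (hL : L ≤ a) (s : ℤ) :
    Pr p (fun ω : ZMod a × ZMod b × Bool → Bool => ∀ k : Fin L, ¬ Full (lift ω) (s + (k : ℕ))) =
      (1 - p ^ b) ^ L := by
  have h := Pr_forall (I := ZMod a × ZMod b × Bool) (K := Fin L) (J := ZMod b) p
    (fun x => (((s + (x.1 : ℕ) : ℤ) : ZMod a), x.2, false)) ?_
    (fun _ η => ¬ ∀ y, η y = true)
  · rw [Finset.prod_const, Finset.card_univ, Fintype.card_fin, Pr_not, Pr_all] at h
    simp only [if_true, ZMod.card] at h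
    rw [← h]
    exact Pr_congr fun ω => Iff.rfl
  · rintro ⟨k, y⟩ ⟨k', y'⟩ h
    simp only [Prod.mk.injEq] at h
    obtain ⟨h1, h2, -⟩ := h
    have := cast_inj (lt_of_lt_of_le k.2 hL) (lt_of_lt_of_le k'.2 hL) h1
    simp only [Prod.mk.injEq]
    exact ⟨Fin.ext this, h2⟩

theorem u_le {p : ℝ} (h0 : 0 ≤ p) (h1 : p ≤ 1) (l : ℕ) : u p b l ≤ (1 - (1 - p) ^ b) ^ l := by
  have h := Pr_forall (I := Fin l × ZMod b × Bool) (K := Fin l) (J := ZMod b) p
    (fun x => (x.1, x.2, true)) ?_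
    (fun _ η => ¬ ∀ y, η y = false)
  · rw [Finset.prod_const, Finset.card_univ, Fintype.card_fin, Pr_not, Pr_all] at h
    simp only [ZMod.card, Bool.false_eq_true, if_false] at h
    rw [← h]
    refine Pr_mono h0 h1 fun η hη k hk => ?_
    obtain ⟨y, hy⟩ := hη.horiz (i := (k : ℕ)) (by omega) (by exact_mod_cast k.2)
    unfold ext at hy
    rw [dif_pos ⟨by omega, by exact_mod_cast k.2⟩] at hy
    have := hk y
    have e : (⟨((k : ℕ) : ℤ).toNat, by simp⟩ : Fin l) = k := Fin.ext (by simp)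
    rw [e, this] at hy
    exact Bool.false_ne_true hy
  · rintro ⟨k, y⟩ ⟨k', y'⟩ h
    simpa using h

/-- Index of the torus edge corresponding to a grid edge. -/
def tix (a : ℕ) {b : ℕ} (s : ℤ) (y0 : ZMod b) (e : Ed) : ZMod a × ZMod b × Bool :=
  (((s + (e.1 : ℕ) : ℤ) : ZMod a), y0 + (e.2.1 : ℕ), e.2.2)

omit [NeZero b] in
theorem tix_inj {l H : ℕ} (hl : l ≤ a) (hH : H < b) (s : ℤ) (y0 : ZMod b) {e e' : Ed}
    (he : InR l H e) (he' : InR l H e') (h : tix a s y0 e = tix a s y0 e') : e = e' := by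
  obtain ⟨i, j, d⟩ := e
  obtain ⟨i', j', d'⟩ := e'
  simp only [tix, Prod.mk.injEq] at h
  obtain ⟨h1, h2, h3⟩ := h
  have hi : i < l := by cases d <;> exact he.1
  have hi' : i' < l := by cases d' <;> exact he'.1
  have hj : j < b := by
    cases d
    · exact lt_trans he.2 hH
    · exact lt_of_le_of_lt he.2 hH
  have hj' : j' < b := by
    cases d'
    · exact lt_trans he'.2 hH
    · exact lt_of_le_of_lt he'.2 hH
  have e1 := cast_inj (lt_of_lt_of_le hi hl) (lt_of_lt_of_le hi' hl) h1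
  have h2' : (j : ZMod b) = (j' : ZMod b) := add_left_cancel h2
  have e2 := congrArg ZMod.val h2'
  rw [ZMod.val_natCast_of_lt hj, ZMod.val_natCast_of_lt hj'] at e2
  rw [e1, e2, h3]

theorem chain_prob {p : ℝ} (h0 : 0 ≤ p) (h1 : p ≤ 1) {l H : ℕ} (hl : l ≤ a) (hH : H < b) (s : ℤ)
    (y0 : ZMod b) {e0 : Ed} {m : ℕ} {C : List Ed} (hC : C ∈ chains e0 m) :
    Pr p (fun ω : ZMod a × ZMod b × Bool → Bool =>
      C.Nodup ∧ ∀ e ∈ C, InR l H e ∧ ω (tix a s y0 e) = false) ≤ (1 - p) ^ (m + 1) := by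
  classical
  by_cases h : C.Nodup ∧ ∀ e ∈ C, InR l H e
  · obtain ⟨hnd, hin⟩ := h
    have hcard : (C.toFinset.image (tix a s y0)).card = m + 1 := by
      rw [Finset.card_image_of_injOn, List.toFinset_card_of_nodup hnd, length_chains hC]
      intro e he e' he' hee
      rw [Finset.mem_coe, List.mem_toFinset] at he he'
      exact tix_inj hl hH s y0 (hin e he) (hin e' he') hee
    have := Pr_all_finset (I := ZMod a × ZMod b × Bool) p false (C.toFinset.image (tix a s y0))
    rw [hcard] at this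
    simp only [Bool.false_eq_true, if_false] at this
    rw [← this]
    refine Pr_mono h0 h1 ?_
    rintro ω ⟨-, h2⟩ i hi
    obtain ⟨e, he, rfl⟩ := Finset.mem_image.1 hi
    exact (h2 e (List.mem_toFinset.1 he)).2
  · have : Pr p (fun ω : ZMod a × ZMod b × Bool → Bool =>
      C.Nodup ∧ ∀ e ∈ C, InR l H e ∧ ω (tix a s y0 e) = false) = 0 := by
      unfold Pr
      refine Finset.sum_eq_zero fun ω _ => ?_
      rw [if_neg]
      rintro ⟨h2, h3⟩
      exact h ⟨h2, fun e he => (h3 e he).1⟩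
    rw [this]
    have : 0 ≤ 1 - p := by linarith
    positivity

/-- Peierls bound for the connection of a vertex to a distant layer. -/
theorem vconn {p : ℝ} (h0 : 0 ≤ p) (h1 : p ≤ 1) {l H : ℕ} (hl : l ≤ a) (hH : H < b) (s : ℤ)
    (y0 : ZMod b) :
    Pr p (fun ω : ZMod a × ZMod b × Bool → Bool =>
      ¬ ∃ y', Rch (lift ω) s (s + l) (s, y0) (s + l, y')) ≤
      ∑ i ∈ range l, 6 ^ (min i H) * (1 - p) ^ (min i H + 1) := by
  classical
  have hsub : ∀ ω : ZMod a × ZMod b × Bool → Bool,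
      (¬ ∃ y', Rch (lift ω) s (s + l) (s, y0) (s + l, y')) →
      ∃ x ∈ (range l).sigma (fun i => chains (i, 0, true) (min i H)),
        (x.2.Nodup ∧ ∀ e ∈ x.2, InR l H e ∧ ω (tix a s y0 e) = false) := by
    intro ω hω
    obtain ⟨i, hi, C, hC, hnd, hD⟩ := exists_chain (l := l) (H := H)
      (S := fun i j => Rch (lift ω) s (s + l) (s, y0) (s + i, y0 + j))
      (by
        simp only [Nat.cast_zero, add_zero]
        exact ReflTransGen.refl) (fun j _ h => hω ⟨_, h⟩)
    refine ⟨⟨i, C⟩, Finset.mem_sigma.2 ⟨Finset.mem_range.2 hi, hC⟩, hnd, fun e he => ?_⟩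
    have h3 := hD e he
    obtain ⟨i, j, d⟩ := e
    cases d
    · obtain ⟨h4, h5⟩ := h3
      refine ⟨h4, ?_⟩
      by_contra h6
      rw [Bool.not_eq_false] at h6
      apply h5
      have hst : Step (lift ω) s (s + l) (s + i, y0 + j) (s + i, y0 + (j + 1 : ℕ)) := by
        refine ⟨s + i, y0 + j, by omega, by omega, Or.inr ⟨h6, Or.inl ⟨rfl, ?_⟩⟩⟩
        push_cast
        rw [add_assoc]
      exact ⟨fun h => h.tail hst, fun h => h.tail hst.symm⟩
    · obtain ⟨h4, h5⟩ := h3
      refine ⟨h4, ?_⟩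
      by_contra h6
      rw [Bool.not_eq_false] at h6
      apply h5
      have hst : Step (lift ω) s (s + l) (s + i, y0 + j) (s + (i + 1 : ℕ), y0 + j) := by
        refine ⟨s + i, y0 + j, by omega, by omega, Or.inl ⟨h6, Or.inl ⟨rfl, ?_⟩⟩⟩
        push_cast
        rw [add_assoc]
      exact ⟨fun h => h.tail hst, fun h => h.tail hst.symm⟩
  refine (Pr_mono h0 h1 hsub).trans ((Pr_exists_le h0 h1 _ _).trans ?_)
  rw [Finset.sum_sigma]
  refine Finset.sum_le_sum fun i _ => ?_
  calc ∑ C ∈ chains (i, 0, true) (min i H), Pr p (fun ω : ZMod a × ZMod b × Bool → Bool =>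
        C.Nodup ∧ ∀ e ∈ C, InR l H e ∧ ω (tix a s y0 e) = false)
      ≤ ∑ _C ∈ chains (i, 0, true) (min i H), (1 - p) ^ (min i H + 1) :=
        Finset.sum_le_sum fun C hC => chain_prob h0 h1 hl hH s y0 hC
    _ = (chains (i, 0, true) (min i H)).card * (1 - p) ^ (min i H + 1) := by
        rw [Finset.sum_const, nsmul_eq_mul]
    _ ≤ 6 ^ (min i H) * (1 - p) ^ (min i H + 1) := by
        have : 0 ≤ 1 - p := by linarith
        refine mul_le_mul_of_nonneg_right ?_ (by positivity)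
        exact_mod_cast card_chains _ _

end Pool.Agent.R961
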