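import Mathlib

open FirstOrder Filter

namespace Pool.Agent.R961.Tri

/-! ## Languages and structures -/

/-- function symbols: one binary symbol `+`. -/
inductive Fn : ℕ → Type
  | add : Fn 2

/-- relation symbols of `(ℤ,+,X)`: one unary symbol. -/
inductive RlX : ℕ → Type
  | mem : RlX 1

/-- relation symbols of `(ℤ,<,+,k^ℕ)`. -/
inductive RlP : ℕ → Type
  | lt : RlP 2
  | pow : RlP 1

/-- the language of `(ℤ,+,X)` -/
def LX : FirstOrder.Language.{0, 0} := ⟨Fn, RlX⟩

/-- the language of `(ℤ,<,+,k^ℕ)` -/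
def LP : FirstOrder.Language.{0, 0} := ⟨Fn, RlP⟩

/-- the structure `(ℤ,+,X)` -/
@[reducible] def strX (X : Set ℤ) : LX.Structure ℤ where
  funMap := fun {_} f x => match f with
    | .add => x 0 + x 1
  RelMap := fun {_} r x => match r with
    | .mem => x 0 ∈ X

/-- the structure `(ℤ,<,+,k^ℕ)` -/
@[reducible] def strP (k : ℕ) : LP.Structure ℤ where
  funMap := fun {_} f x => match f with
    | .add => x 0 + x 1
  RelMap := fun {_} r x => match r with
    | .lt => x 0 < x 1
    | .pow => ∃ j : ℕ, x 0 = (k : ℤ) ^ j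

/-- definability with parameters in a structure on `ℤ`. -/
def Defines {L : FirstOrder.Language.{0, 0}} (S : L.Structure ℤ) {n : ℕ} (s : Set (Fin n → ℤ)) : Prop :=
  @Set.Definable ℤ Set.univ L S (Fin n) s

/-- two structures on `ℤ` define the same sets. -/
def SameDefinableSets {L L' : FirstOrder.Language.{0, 0}} (S : L.Structure ℤ) (S' : L'.Structure ℤ) : Prop :=
  ∀ (n : ℕ) (s : Set (Fin n → ℤ)), Defines S s ↔ Defines S' s

/-- the formula `φ(x;y)` has the order property in the structure `S` on `ℤ`. -/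
def HasOrderProperty {L : FirstOrder.Language.{0, 0}} (S : L.Structure ℤ) {m n : ℕ}
    (φ : L.Formula (Fin m ⊕ Fin n)) : Prop :=
  ∀ N : ℕ, ∃ (a : Fin N → Fin m → ℤ) (b : Fin N → Fin n → ℤ), ∀ i j : Fin N,
    (letI := S; φ.Realize (Sum.elim (a i) (b j))) ↔ i < j

/-- stability: no formula has the order property. -/
def IsStable {L : FirstOrder.Language.{0, 0}} (S : L.Structure ℤ) : Prop :=
  ∀ (m n : ℕ) (φ : L.Formula (Fin m ⊕ Fin n)), ¬ HasOrderProperty S φ

/-- `V_k(n)`: the largest power of `k` dividing `n` for `n ≠ 0`, and `V_k(0) = 1`. -/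
noncomputable def V (k : ℕ) (n : ℤ) : ℤ :=
  if n = 0 then 1 else (k : ℤ) ^ multiplicity (k : ℤ) n

/-- the graph of `V_k` as a subset of `ℤ²`. -/
def graphV (k : ℕ) : Set (Fin 2 → ℤ) := {v | v 1 = V k (v 0)}

/-- the set `k^ℕ` as a subset of `ℤ¹`. -/
def powSet (k : ℕ) : Set (Fin 1 → ℤ) := {v | ∃ j : ℕ, v 0 = (k : ℤ) ^ j}

/-- the set of nonnegative integers as a subset of `ℤ¹`. -/
def nonnegSet : Set (Fin 1 → ℤ) := {v | 0 ≤ v 0}

/-- The integers whose `k`-adic valuation is finite and even. -/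
def evenVal (k : ℕ) : Set ℤ :=
  {n | ∃ j : ℕ, (k : ℤ) ^ (2 * j) ∣ n ∧ ¬ (k : ℤ) ^ (2 * j + 1) ∣ n}

/-! ## Arithmetic of `evenVal` -/

lemma evenVal_add {k : ℕ} {x z : ℤ} {N : ℕ} (hx : ¬ (k : ℤ) ^ N ∣ x) (hz : (k : ℤ) ^ N ∣ z) :
    x + z ∈ evenVal k ↔ x ∈ evenVal k := by
  have key : ∀ (a b : ℤ), ¬ (k : ℤ) ^ N ∣ a → (k : ℤ) ^ N ∣ b → a ∈ evenVal k →
      a + b ∈ evenVal k := by
    rintro a b ha hb ⟨j, h1, h2⟩
    have hjN : 2 * j < N := by
      by_contra h
      exact ha ((pow_dvd_pow _ (not_lt.mp h)).trans h1)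
    have hb1 : (k : ℤ) ^ (2 * j) ∣ b := (pow_dvd_pow _ hjN.le).trans hb
    have hb2 : (k : ℤ) ^ (2 * j + 1) ∣ b := (pow_dvd_pow _ hjN).trans hb
    refine ⟨j, dvd_add h1 hb1, fun h => h2 ?_⟩
    exact (dvd_add_left hb2).mp h
  constructor
  · intro h
    have h' : ¬ (k : ℤ) ^ N ∣ x + z := fun h => hx ((dvd_add_left hz).mp h)
    have := key (x + z) (-z) h' (hz.neg_right) h
    simpa using this
  · exact key x z hx hz

/-! ## The homomorphism -/

/-- the sequences divisible by `k^(n+j)` (eventually along `U`) for every `j`. -/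
def DH (k : ℕ) (U : Ultrafilter ℕ) : AddSubgroup (ℕ → ℤ) where
  carrier := {x | ∀ j : ℕ, ∀ᶠ n in U, (k : ℤ) ^ (n + j) ∣ x n}
  zero_mem' := fun j => Eventually.of_forall fun n => by simp
  add_mem' := fun {x y} hx hy j => by
    filter_upwards [hx j, hy j] with n h1 h2
    exact dvd_add h1 h2
  neg_mem' := fun {x} hx j => by
    filter_upwards [hx j] with n h1
    exact (dvd_neg).mpr h1

/-- constant sequences -/
def constHom : ℤ →+ (ℕ → ℤ) where
  toFun c := fun _ => c
  map_zero' := rfl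
  map_add' _ _ := rfl

/-- the subgroup of sequences killed by the homomorphism -/
def PP (k : ℕ) (U : Ultrafilter ℕ) : AddSubgroup (ℕ → ℤ) := DH k U ⊔ constHom.range

lemma smul_pow_mem {k : ℕ} (hk : 2 ≤ k) {U : Ultrafilter ℕ} (hU : (U : Filter ℕ) ≤ atTop)
    {m : ℤ} (h : m • (fun n : ℕ => (k : ℤ) ^ n) ∈ PP k U) : m = 0 := by
  obtain ⟨w, hw, c', ⟨c, rfl⟩, hsum⟩ := AddSubgroup.mem_sup.mp h
  have hw' : ∀ n, w n = m * (k : ℤ) ^ n - c := by
    intro n
    have := congrFun hsum n
    simp only [Pi.add_apply, Pi.smul_apply, smul_eq_mul, constHom, AddMonoidHom.coe_mk,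
      ZeroHom.coe_mk] at this
    linarith
  have hk1 : (1 : ℤ) < k := by exact_mod_cast hk
  -- c = 0
  have hc : c = 0 := by
    by_contra hc
    have h1 := hw 0
    have h2 : ∀ᶠ n : ℕ in (U : Filter ℕ), c.natAbs < k ^ n := by
      apply hU
      filter_upwards [eventually_ge_atTop (c.natAbs)] with n hn
      calc c.natAbs ≤ n := hn
        _ < k ^ n := Nat.lt_pow_self (by omega)
    obtain ⟨n, hn1, hn2⟩ := (h1.and h2).exists
    rw [hw' n, add_zero] at hn1
    have h3 : (k : ℤ) ^ n ∣ c := by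
      have : (k : ℤ) ^ n ∣ m * (k : ℤ) ^ n := dvd_mul_left _ _
      have h4 := dvd_sub this hn1
      simpa using h4
    have h5 := Int.natAbs_dvd_natAbs.mpr h3
    rw [Int.natAbs_pow, Int.natAbs_natCast] at h5
    have h6 := Nat.le_of_dvd (Int.natAbs_pos.mpr hc) h5
    omega
  by_contra hm
  have h1 := hw (m.natAbs)
  obtain ⟨n, hn⟩ := h1.exists
  rw [hw' n, hc, sub_zero, pow_add, mul_comm m] at hn
  have h7 : (k : ℤ) ^ m.natAbs ∣ m :=
    (mul_dvd_mul_iff_left (pow_ne_zero n (by omega))).mp hn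
  have h5 := Int.natAbs_dvd_natAbs.mpr h7
  rw [Int.natAbs_pow, Int.natAbs_natCast] at h5
  have h6 := Nat.le_of_dvd (Int.natAbs_pos.mpr hm) h5
  have : m.natAbs < k ^ m.natAbs := Nat.lt_pow_self (by omega)
  omega

lemma exists_hom {k : ℕ} (hk : 2 ≤ k) {U : Ultrafilter ℕ} (hU : (U : Filter ℕ) ≤ atTop) :
    ∃ f : (ℕ → ℤ) →+ ℚ, (∀ x ∈ PP k U, f x = 0) ∧ f (fun n : ℕ => (k : ℤ) ^ n) = -1 := by
  let A := (ℕ → ℤ) ⧸ PP k U
  let q : (ℕ → ℤ) →+ A := QuotientAddGroup.mk' (PP k U)
  let a : ℕ → ℤ := fun n : ℕ => (k : ℤ) ^ n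
  let i : ℤ →+ A := (zmultiplesHom A) (q a)
  have hi : Function.Injective i := by
    rw [injective_iff_map_eq_zero]
    intro m hm
    have h1 : q (m • a) = 0 := by
      rw [map_zsmul]
      simpa [i] using hm
    have h2 : m • a ∈ PP k U := (QuotientAddGroup.eq_zero_iff _).mp h1
    exact smul_pow_mem hk hU h2
  let g : ℤ →+ ℚ := (zmultiplesHom ℚ) (-1)
  obtain ⟨h, hh⟩ := (Module.Baer.of_divisible ℚ).extension_property_addMonoidHom i hi g
  refine ⟨h.comp q, ?_, ?_⟩
  · intro x hx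
    have : q x = 0 := (QuotientAddGroup.eq_zero_iff _).mpr hx
    simp [this]
  · have h1 : h (i 1) = g 1 := by rw [← hh]; rfl
    simp only [i, g, zmultiplesHom_apply, one_smul] at h1
    exact h1

/-- `ι(r)_n = k^(2n) ⌊r n!⌋` -/
noncomputable def iota (k : ℕ) (r : ℚ) (n : ℕ) : ℤ := (k : ℤ) ^ (2 * n) * ⌊r * (n.factorial : ℚ)⌋

lemma floor_fact {r : ℚ} {n : ℕ} (h : r.den ≤ n) :
    ((⌊r * (n.factorial : ℚ)⌋ : ℤ) : ℚ) = r * (n.factorial : ℚ) := by
  obtain ⟨c, hc⟩ := Nat.dvd_factorial r.den_pos h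
  have : r * (n.factorial : ℚ) = ((r.num * (c : ℤ) : ℤ) : ℚ) := by
    rw [hc]
    push_cast
    have h1 : (r.den : ℚ) ≠ 0 := by exact_mod_cast r.den_nz
    have h2 : r * (r.den : ℚ) = r.num := Rat.mul_den_eq_num r
    rw [← mul_assoc, h2]
  rw [this, Int.floor_intCast]

lemma iota_add {k : ℕ} (r s : ℚ) : ∀ᶠ n in atTop, iota k (r + s) n = iota k r n + iota k s n := by
  filter_upwards [eventually_ge_atTop (r.den), eventually_ge_atTop (s.den),
    eventually_ge_atTop ((r + s).den)] with n h1 h2 h3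
  unfold iota
  rw [← mul_add]
  congr 1
  have : ((⌊(r + s) * (n.factorial : ℚ)⌋ : ℤ) : ℚ) =
      ((⌊r * (n.factorial : ℚ)⌋ + ⌊s * (n.factorial : ℚ)⌋ : ℤ) : ℚ) := by
    push_cast
    rw [floor_fact h1, floor_fact h2, floor_fact h3, add_mul]
  exact_mod_cast this

lemma iota_mem (k : ℕ) (U : Ultrafilter ℕ) (hU : (U : Filter ℕ) ≤ atTop) (r : ℚ) :
    iota k r ∈ DH k U := by
  intro j
  apply hU
  filter_upwards [eventually_ge_atTop j] with n hn
  exact (pow_dvd_pow _ (by omega)).trans (dvd_mul_right _ _)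

/-! ## The automorphism of the ultrapower -/

section auto

variable (k : ℕ) (U : Ultrafilter ℕ) (f : (ℕ → ℤ) →+ ℚ)

/-- the ultrapower of `ℤ` -/
abbrev UP : Type := (U : Filter ℕ).Product (fun _ : ℕ => ℤ)

/-- `x ↦ x + ε ι(f x)` on sequences -/
noncomputable def tw (ε : ℤ) (x : ℕ → ℤ) : ℕ → ℤ := fun n => x n + ε * iota k (f x) n

variable {k U f}

lemma f_congr (hf : ∀ x ∈ PP k U, f x = 0) {x y : ℕ → ℤ} (h : ∀ᶠ n in U, x n = y n) :
    f x = f y := by
  have : f (x - y) = 0 := by
    apply hf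
    apply (le_sup_left : DH k U ≤ PP k U)
    intro j
    filter_upwards [h] with n hn
    simp [hn]
  rw [map_sub] at this
  linarith

variable (k U f) in
/-- the twisted map on the ultrapower -/
noncomputable def sig (hf : ∀ x ∈ PP k U, f x = 0) (ε : ℤ) : UP U → UP U :=
  Quotient.map (tw k f ε) (by
    intro x y h
    have h' : ∀ᶠ n in U, x n = y n := h
    have hxy := f_congr hf h'
    show ∀ᶠ n in U, tw k f ε x n = tw k f ε y n
    filter_upwards [h'] with n hn
    simp only [tw, hn, hxy])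

lemma tw_tw (hU : (U : Filter ℕ) ≤ atTop) (hf : ∀ x ∈ PP k U, f x = 0) (ε : ℤ) (x : ℕ → ℤ) :
    tw k f (-ε) (tw k f ε x) = x := by
  have h1 : tw k f ε x = x + ε • iota k (f x) := by
    ext n; simp [tw]
  have h2 : f (tw k f ε x) = f x := by
    rw [h1, map_add, map_zsmul, hf _ ((le_sup_left : DH k U ≤ PP k U) (iota_mem k U hU _))]
    simp
  ext n
  simp only [tw] at h2 ⊢
  rw [h2]
  ring


lemma sig_sig (hU : (U : Filter ℕ) ≤ atTop) (hf : ∀ x ∈ PP k U, f x = 0) (ε : ℤ) (x : UP U) :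
    sig k U f hf (-ε) (sig k U f hf ε x) = x := by
  induction x using Quotient.inductionOn with
  | h x =>
    show Quotient.mk _ (tw k f (-ε) (tw k f ε x)) = Quotient.mk _ x
    rw [tw_tw hU hf]

variable (k U f) in
/-- the twist as an equivalence -/
noncomputable def sigEquiv (hU : (U : Filter ℕ) ≤ atTop) (hf : ∀ x ∈ PP k U, f x = 0) :
    UP U ≃ UP U where
  toFun := sig k U f hf 1
  invFun := sig k U f hf (-1)
  left_inv := sig_sig hU hf 1
  right_inv := fun x => by simpa using sig_sig hU hf (-1) x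

lemma tw_add (hU : (U : Filter ℕ) ≤ atTop) (x y : ℕ → ℤ) :
    ∀ᶠ n in U, tw k f 1 (x + y) n = tw k f 1 x n + tw k f 1 y n := by
  filter_upwards [hU (iota_add (k := k) (f x) (f y))] with n hn
  simp only [tw, map_add, hn, Pi.add_apply]
  ring

lemma tw_mem (hU : (U : Filter ℕ) ≤ atTop) (hf : ∀ x ∈ PP k U, f x = 0) (x : ℕ → ℤ) :
    (∀ᶠ n in U, tw k f 1 x n ∈ evenVal k) ↔ (∀ᶠ n in U, x n ∈ evenVal k) := by
  by_cases h0 : f x = 0
  · have : ∀ n, tw k f 1 x n = x n := by
      intro n; simp [tw, h0, iota]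
    simp only [this]
  · have hx : x ∉ DH k U := fun h => h0 (hf x ((le_sup_left : DH k U ≤ PP k U) h))
    have : ∃ j : ℕ, ∀ᶠ n in U, ¬ (k : ℤ) ^ (n + j) ∣ x n := by
      by_contra hcon
      push Not at hcon
      apply hx
      intro j
      exact hcon j
    obtain ⟨j, hj⟩ := this
    have hge : ∀ᶠ n in (U : Filter ℕ), j ≤ n := hU (eventually_ge_atTop j)
    apply eventually_congr
    filter_upwards [hj, hge] with n h1 h2
    apply evenVal_add h1
    exact ((pow_dvd_pow _ (by omega)).trans (dvd_mul_right _ _)).mul_left _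

end auto

section nondef

open Language

variable {k : ℕ} {U : Ultrafilter ℕ} {f : (ℕ → ℤ) →+ ℚ}

lemma exists_rep_fun {n : ℕ} (x : Fin n → UP U) :
    ∃ x' : Fin n → (ℕ → ℤ), x = fun i => ((x' i : ℕ → ℤ) : UP U) := by
  choose x' hx' using fun i => Quotient.exists_rep (x i)
  exact ⟨x', funext fun i => (hx' i).symm⟩

/-- the twist is an automorphism of the ultrapower of `(ℤ,+,evenVal k)`. -/
noncomputable def sigL (k : ℕ) (U : Ultrafilter ℕ) (f : (ℕ → ℤ) →+ ℚ)
    (hU : (U : Filter ℕ) ≤ atTop) (hf : ∀ x ∈ PP k U, f x = 0) :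
    letI := strX (evenVal k)
    UP U ≃[LX] UP U :=
  letI := strX (evenVal k)
  { sigEquiv k U f hU hf with
    map_fun' := by
      intro n g x
      obtain ⟨x', rfl⟩ := exists_rep_fun x
      cases g with
      | add =>
        have h1 := Ultraproduct.funMap_cast (L := LX) (M := fun _ : ℕ => ℤ) (u := U) Fn.add x'
        have h2 := Ultraproduct.funMap_cast (L := LX) (M := fun _ : ℕ => ℤ) (u := U) Fn.add
          (fun i => tw k f 1 (x' i))
        refine (congrArg (sigEquiv k U f hU hf) h1).trans (Eq.trans ?_ h2.symm)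
        apply Quotient.sound
        exact tw_add hU (x' 0) (x' 1)
    map_rel' := by
      intro n r x
      obtain ⟨x', rfl⟩ := exists_rep_fun x
      cases r with
      | mem =>
        exact tw_mem hU hf (x' 0) }

lemma def_transfer (hU : (U : Filter ℕ) ≤ atTop) (hf : ∀ x ∈ PP k U, f x = 0)
    {S : Set (Fin 1 → ℤ)} (hS : Defines (strX (evenVal k)) S) (a : ℕ → ℤ)
    (ha : ∀ᶠ n in U, (fun _ => a n) ∈ S) : ∀ᶠ n in U, (fun _ => tw k f 1 a n) ∈ S := by
  let _ := strX (evenVal k)
  unfold Defines at hS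
  rw [Set.definable_iff_exists_formula_sum] at hS
  obtain ⟨φ, rfl⟩ := hS
  let x : ((Set.univ : Set ℤ) ⊕ Fin 1) → (ℕ → ℤ) := Sum.elim (fun c _ => (c : ℤ)) (fun _ => a)
  let y : ((Set.univ : Set ℤ) ⊕ Fin 1) → (ℕ → ℤ) :=
    Sum.elim (fun c _ => (c : ℤ)) (fun _ => tw k f 1 a)
  have hx := Ultraproduct.realize_formula_cast (u := U) (M := fun _ : ℕ => ℤ) φ x
  have hy := Ultraproduct.realize_formula_cast (u := U) (M := fun _ : ℕ => ℤ) φ y
  have e : (⇑(sigL k U f hU hf)) ∘ (fun i => ((x i : ℕ → ℤ) : UP U)) =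
      fun i => ((y i : ℕ → ℤ) : UP U) := by
    funext i
    rcases i with c | i
    · apply Quotient.sound
      have h0 : f (fun _ => (c : ℤ)) = 0 :=
        hf _ ((le_sup_right : constHom.range ≤ PP k U) ⟨(c : ℤ), rfl⟩)
      show ∀ᶠ n in U, tw k f 1 (fun _ => (c : ℤ)) n = (c : ℤ)
      refine Eventually.of_forall fun n => ?_
      simp [tw, h0, iota]
    · rfl
  have hr := StrongHomClass.realize_formula (sigL k U f hU hf) φ
    (v := fun i => ((x i : ℕ → ℤ) : UP U))
  have hr2 : (φ.Realize fun i => ((y i : ℕ → ℤ) : UP U)) ↔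
      (φ.Realize fun i => ((x i : ℕ → ℤ) : UP U)) := by
    rw [← e]; exact hr
  have h1 : ∀ n, (fun i => x i n) = Sum.elim (fun c : (Set.univ : Set ℤ) => (c : ℤ)) (fun _ => a n) := by
    intro n; funext i; rcases i with c | i <;> rfl
  have h2 : ∀ n, (fun i => y i n) =
      Sum.elim (fun c : (Set.univ : Set ℤ) => (c : ℤ)) (fun _ => tw k f 1 a n) := by
    intro n; funext i; rcases i with c | i <;> rfl
  have hx' : ∀ᶠ n in U, φ.Realize (fun i => x i n) := by
    filter_upwards [ha] with n hn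
    rw [h1]; exact hn
  have := hy.mp (hr2.mpr (hx.mpr hx'))
  filter_upwards [this] with n hn
  rw [h2] at hn
  exact hn

lemma not_defines_nonneg (hk : 2 ≤ k) : ¬ Defines (strX (evenVal k)) nonnegSet := by
  intro h
  have hU : ((hyperfilter ℕ : Ultrafilter ℕ) : Filter ℕ) ≤ atTop := Nat.hyperfilter_le_atTop
  obtain ⟨f, hf, hfa⟩ := exists_hom hk hU
  have h1 := def_transfer hU hf h (fun n => (k : ℤ) ^ n)
    (Eventually.of_forall fun n => by simp only [nonnegSet, Set.mem_ofPred_eq]; positivity)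
  have h2 : ∀ᶠ n in ((hyperfilter ℕ : Ultrafilter ℕ) : Filter ℕ), 1 ≤ n :=
    hU (eventually_ge_atTop 1)
  obtain ⟨n, hn1, hn2⟩ := (h1.and h2).exists
  simp only [nonnegSet, Set.mem_ofPred_eq, tw, hfa, iota] at hn1
  have h3 : ⌊(-1 : ℚ) * (n.factorial : ℚ)⌋ = -(n.factorial : ℤ) := by
    have : (-1 : ℚ) * (n.factorial : ℚ) = ((-(n.factorial : ℤ) : ℤ) : ℚ) := by push_cast; ring
    rw [this, Int.floor_intCast]
  rw [h3] at hn1
  have h4 : (1 : ℤ) ≤ n.factorial := by exact_mod_cast Nat.factorial_pos n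
  have hk' : (2 : ℤ) ≤ k := by exact_mod_cast hk
  have h5 : (2 : ℤ) ≤ (k : ℤ) ^ n := by
    calc (2 : ℤ) ≤ k := hk'
      _ = (k : ℤ) ^ 1 := (pow_one _).symm
      _ ≤ (k : ℤ) ^ n := pow_le_pow_right₀ (by omega) hn2
  have h6 : (k : ℤ) ^ (2 * n) = (k : ℤ) ^ n * (k : ℤ) ^ n := by rw [two_mul, pow_add]
  rw [h6] at hn1
  nlinarith [mul_le_mul h5 h4 (by norm_num) (by positivity), mul_self_nonneg ((k : ℤ) ^ n)]

lemma not_defines_pow (hk : 2 ≤ k) : ¬ Defines (strX (evenVal k)) (powSet k) := by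
  intro h
  have hU : ((hyperfilter ℕ : Ultrafilter ℕ) : Filter ℕ) ≤ atTop := Nat.hyperfilter_le_atTop
  obtain ⟨f, hf, hfa⟩ := exists_hom hk hU
  have h1 := def_transfer hU hf h (fun n => (k : ℤ) ^ n)
    (Eventually.of_forall fun n => ⟨n, rfl⟩)
  have h2 : ∀ᶠ n in ((hyperfilter ℕ : Ultrafilter ℕ) : Filter ℕ), 1 ≤ n :=
    hU (eventually_ge_atTop 1)
  obtain ⟨n, ⟨j, hj⟩, hn2⟩ := (h1.and h2).exists
  have hn1 : 0 ≤ tw k f 1 (fun n => (k : ℤ) ^ n) n := by
    have : tw k f 1 (fun n => (k : ℤ) ^ n) n = (k : ℤ) ^ j := hj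
    rw [this]; positivity
  simp only [tw, hfa, iota] at hn1
  have h3 : ⌊(-1 : ℚ) * (n.factorial : ℚ)⌋ = -(n.factorial : ℤ) := by
    have : (-1 : ℚ) * (n.factorial : ℚ) = ((-(n.factorial : ℤ) : ℤ) : ℚ) := by push_cast; ring
    rw [this, Int.floor_intCast]
  rw [h3] at hn1
  have h4 : (1 : ℤ) ≤ n.factorial := by exact_mod_cast Nat.factorial_pos n
  have hk' : (2 : ℤ) ≤ k := by exact_mod_cast hk
  have h5 : (2 : ℤ) ≤ (k : ℤ) ^ n := by
    calc (2 : ℤ) ≤ k := hk'
      _ = (k : ℤ) ^ 1 := (pow_one _).symm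
      _ ≤ (k : ℤ) ^ n := pow_le_pow_right₀ (by omega) hn2
  have h6 : (k : ℤ) ^ (2 * n) = (k : ℤ) ^ n * (k : ℤ) ^ n := by rw [two_mul, pow_add]
  rw [h6] at hn1
  nlinarith [mul_le_mul h5 h4 (by norm_num) (by positivity), mul_self_nonneg ((k : ℤ) ^ n)]

lemma powSet_defined (k : ℕ) : Defines (strP k) (powSet k) := by
  let _ := strP k
  unfold Defines
  refine Set.Definable.mono (A := ∅) ?_ (Set.empty_subset _)
  rw [Set.empty_definable_iff]
  refine ⟨Relations.formula (L := LP) (α := Fin 1) RlP.pow (fun _ => Term.var 0), ?_⟩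
  ext v
  exact Iff.rfl

/-- alternative (2) fails. -/
lemma not_same (hk : 2 ≤ k) : ¬ SameDefinableSets (strX (evenVal k)) (strP k) := fun h =>
  not_defines_pow hk ((h 1 (powSet k)).mpr (powSet_defined k))

lemma V_pow (hk : 2 ≤ k) (j : ℕ) : V k ((k : ℤ) ^ j) = (k : ℤ) ^ j := by
  have hk' : (2 : ℤ) ≤ k := by exact_mod_cast hk
  have h0 : (k : ℤ) ^ j ≠ 0 := pow_ne_zero _ (by omega)
  unfold V
  rw [if_neg h0, multiplicity_pow_self (by omega) (by
    rw [Int.isUnit_iff]; omega)]

lemma V_is_pow (k : ℕ) (n : ℤ) : ∃ j : ℕ, V k n = (k : ℤ) ^ j := by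
  unfold V
  split_ifs
  · exact ⟨0, by simp⟩
  · exact ⟨_, rfl⟩

/-- alternative (3) fails. -/
lemma not_defines_V (hk : 2 ≤ k) : ¬ Defines (strX (evenVal k)) (graphV k) := by
  intro h
  apply not_defines_pow hk
  let _ := strX (evenVal k)
  unfold Defines at h ⊢
  have := Set.Definable.image_comp (L := LX) h (fun _ : Fin 1 => (1 : Fin 2))
  convert! this using 1
  ext v
  simp only [powSet, graphV, Set.mem_ofPred_eq, Set.mem_image]
  constructor
  · rintro ⟨j, hj⟩
    refine ⟨![(k : ℤ) ^ j, (k : ℤ) ^ j], ?_, ?_⟩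
    · simp [V_pow hk]
    · ext i
      fin_cases i
      simp [hj]
  · rintro ⟨x, hx, rfl⟩
    obtain ⟨j, hj⟩ := V_is_pow k (x 0)
    exact ⟨j, by simp [hx, hj]⟩

end nondef

/-! ## Instability -/

lemma evenVal_iff {k : ℕ} {m : ℕ} {n : ℤ} (h1 : (k : ℤ) ^ m ∣ n) (h2 : ¬ (k : ℤ) ^ (m + 1) ∣ n) :
    n ∈ evenVal k ↔ Even m := by
  constructor
  · rintro ⟨j, h3, h4⟩
    have h5 : 2 * j ≤ m := by
      by_contra h
      exact h2 ((pow_dvd_pow _ (by omega)).trans h3)
    have h6 : m ≤ 2 * j := by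
      by_contra h
      exact h4 ((pow_dvd_pow _ (by omega)).trans h1)
    exact ⟨j, by omega⟩
  · rintro ⟨j, hj⟩
    have : m = 2 * j := by omega
    subst this
    exact ⟨j, h1, h2⟩

/-- repunits -/
def gg (k m : ℕ) : ℤ := ∑ l ∈ Finset.range m, (k : ℤ) ^ l

lemma gg_diff (k : ℕ) {m m' : ℕ} (h : m < m') : ∃ s : ℤ, gg k m' - gg k m = (k : ℤ) ^ m * (1 + k * s) := by
  induction m', h using Nat.le_induction with
  | base =>
    refine ⟨0, ?_⟩
    simp [gg, Finset.sum_range_succ]
  | succ m' hm ih =>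
    obtain ⟨s, hs⟩ := ih
    refine ⟨s + (k : ℤ) ^ (m' - m - 1), ?_⟩
    have : gg k (m' + 1) = gg k m' + (k : ℤ) ^ m' := by simp [gg, Finset.sum_range_succ]
    rw [this]
    have h2 : (k : ℤ) ^ m' = (k : ℤ) ^ m * (k * (k : ℤ) ^ (m' - m - 1)) := by
      rw [← pow_succ', ← pow_add]; congr 1; omega
    linear_combination hs + h2

lemma not_dvd_aux {k : ℕ} (hk : 2 ≤ k) (m : ℕ) (s : ℤ) :
    ¬ (k : ℤ) ^ (m + 1) ∣ (k : ℤ) ^ m * (1 + k * s) := by
  intro h
  have hk' : (2 : ℤ) ≤ k := by exact_mod_cast hk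
  rw [pow_succ] at h
  have h1 := (mul_dvd_mul_iff_left (pow_ne_zero m (by omega : (k : ℤ) ≠ 0))).mp h
  have h2 : (k : ℤ) ∣ 1 := (dvd_add_left (dvd_mul_right _ _)).mp h1
  have := Int.le_of_dvd one_pos h2
  omega

open Language in
/-- the formula `X(y - x)` -/
def phi : LX.Formula (Fin 1 ⊕ Fin 1) :=
  ((Term.bdEqual (Term.func (L := LX) (l := 2) Fn.add
      ![Term.var (Sum.inr 0), Term.var (Sum.inl (Sum.inl 0))])
      (Term.var (Sum.inl (Sum.inr 0)))) ⊓
    (Relations.boundedFormula (L := LX) (n := 1) RlX.mem ![Term.var (Sum.inr 0)])).ex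

open Language in
lemma phi_realize (X : Set ℤ) (a b : Fin 1 → ℤ) :
    (letI := strX X; phi.Realize (Sum.elim a b)) ↔ b 0 - a 0 ∈ X := by
  let _ := strX X
  show phi.Realize (Sum.elim a b) ↔ _
  unfold phi
  rw [Formula.Realize, BoundedFormula.realize_ex]
  simp only [BoundedFormula.realize_inf, BoundedFormula.realize_bdEqual, Term.realize_var]
  constructor
  · rintro ⟨z, h1, h2⟩
    have h1' : z + a 0 = b 0 := h1
    have h2' : z ∈ X := h2
    have : b 0 - a 0 = z := by linarith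
    rwa [this]
  · intro h
    refine ⟨b 0 - a 0, ?_, ?_⟩
    · show b 0 - a 0 + a 0 = b 0
      ring
    · exact h

/-- alternative (1) fails. -/
lemma not_stable {k : ℕ} (hk : 2 ≤ k) : ¬ IsStable (strX (evenVal k)) := by
  intro h
  apply h 1 1 phi
  intro N
  refine ⟨fun i _ => gg k (2 * i + 2), fun j _ => gg k (2 * j + 1), fun i j => ?_⟩
  rw [phi_realize]
  by_cases hij : i < j
  · have hlt : 2 * (i : ℕ) + 2 < 2 * (j : ℕ) + 1 := by have : (i : ℕ) < j := hij; omega
    obtain ⟨s, hs⟩ := gg_diff k hlt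
    rw [hs, evenVal_iff (dvd_mul_right _ _) (not_dvd_aux hk _ _)]
    exact iff_of_true ⟨i + 1, by omega⟩ hij
  · have hlt : 2 * (j : ℕ) + 1 < 2 * (i : ℕ) + 2 := by
      have : ¬ (i : ℕ) < j := hij
      omega
    obtain ⟨s, hs⟩ := gg_diff k hlt
    have hs' : gg k (2 * j + 1) - gg k (2 * i + 2) = -((k : ℤ) ^ (2 * (j : ℕ) + 1) * (1 + k * s)) := by
      rw [← hs]; ring
    rw [hs', evenVal_iff ((dvd_neg).mpr (dvd_mul_right _ _))
      (fun h => not_dvd_aux hk _ _ ((dvd_neg).mp h))]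
    refine iff_of_false ?_ hij
    rintro ⟨r, hr⟩
    omega

/-! ## The automaton -/

/-- the letter of a digit; the alphabet is `Option (Fin k)`, `none` being the minus sign. -/
def letter (k d : ℕ) : Option (Fin k) := if h : d < k then some ⟨d, h⟩ else none

/-- the word of the integer `n`: base `k`, most significant digit first, with a leading minus sign
if `n < 0`; the word of `0` is `0`. -/
def word (k : ℕ) (n : ℤ) : List (Option (Fin k)) :=
  if n = 0 then [letter k 0]
  else (if n < 0 then [none] else []) ++ ((Nat.digits k n.natAbs).reverse.map (letter k))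

/-- `X ⊆ ℤ` is recognized by a finite automaton: the set of words of the elements of `X` is
accepted by a deterministic finite automaton. -/
def Recognized (k : ℕ) (X : Set ℤ) : Prop :=
  ∃ (σ : Type) (_ : Fintype σ) (M : DFA (Option (Fin k)) σ),
    M.accepts = {w | ∃ n ∈ X, word k n = w}

/-- states -/
inductive St
  | start | minus | even | odd | dead

instance : Fintype St where
  elems := ⟨[St.start, St.minus, St.even, St.odd, St.dead], by simp⟩
  complete := by intro s; cases s <;> simp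

/-- transitions -/
def step (k : ℕ) : St → Option (Fin k) → St
  | .start, none => .minus
  | .start, some d => if d.val = 0 then .dead else .even
  | .minus, none => .dead
  | .minus, some d => if d.val = 0 then .dead else .even
  | .even, none => .dead
  | .even, some d => if d.val = 0 then .odd else .even
  | .odd, none => .dead
  | .odd, some _ => .even
  | .dead, _ => .dead

/-- the automaton -/
def aut (k : ℕ) : DFA (Option (Fin k)) St where
  step := step k
  start := .start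
  accept := {.even}

/-- append the digit `d` to the integer `q`. -/
def snoc (k : ℕ) (q : ℤ) (d : ℕ) : ℤ := if q < 0 then k * q - d else k * q + d

lemma word_snoc {k : ℕ} (hk : 2 ≤ k) {q : ℤ} (hq : q ≠ 0) {d : ℕ} (hd : d < k) :
    word k (snoc k q d) = word k q ++ [letter k d] := by
  have hk' : (2 : ℤ) ≤ k := by exact_mod_cast hk
  have hdk : (d : ℤ) < k := by exact_mod_cast hd
  have hab : (snoc k q d).natAbs = d + k * q.natAbs := by
    unfold snoc
    rcases lt_or_gt_of_ne hq with h | h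
    · rw [if_pos h]
      have h1 : (k : ℤ) * q - d = -((d + k * q.natAbs : ℕ) : ℤ) := by
        push_cast
        rw [abs_of_neg h]; ring
      rw [h1, Int.natAbs_neg, Int.natAbs_natCast]
    · rw [if_neg (by omega)]
      have h1 : (k : ℤ) * q + d = ((d + k * q.natAbs : ℕ) : ℤ) := by
        push_cast
        rw [abs_of_pos h]; ring
      rw [h1, Int.natAbs_natCast]
  have hsgn : snoc k q d < 0 ↔ q < 0 := by
    unfold snoc
    split_ifs with h
    · refine iff_of_true ?_ h
      nlinarith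
    · refine iff_of_false ?_ h
      have : 0 < q := by omega
      nlinarith
  have hne : snoc k q d ≠ 0 := by
    intro h
    have h2 : 0 < q.natAbs := Int.natAbs_pos.mpr hq
    rw [h] at hab
    simp only [Int.natAbs_zero] at hab
    have : 0 < k * q.natAbs := Nat.mul_pos (by omega) h2
    omega
  unfold word
  rw [if_neg hne, if_neg hq, hab, Nat.digits_add k (by omega) d q.natAbs hd
    (Or.inr (by have := Int.natAbs_pos.mpr hq; omega))]
  simp only [hsgn, List.reverse_cons, List.map_append, List.map_cons, List.map_nil,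
    List.append_assoc]

lemma mem_mul_iff {k : ℕ} (hk : 2 ≤ k) {q : ℤ} (hq : q ≠ 0) :
    (k : ℤ) * q ∈ evenVal k ↔ q ∉ evenVal k := by
  have hk' : (2 : ℤ) ≤ k := by exact_mod_cast hk
  have hfin : FiniteMultiplicity (k : ℤ) q :=
    Int.finiteMultiplicity_iff.mpr ⟨by rw [Int.natAbs_natCast]; omega, hq⟩
  obtain ⟨m, h1, h2⟩ : ∃ m : ℕ, (k : ℤ) ^ m ∣ q ∧ ¬ (k : ℤ) ^ (m + 1) ∣ q :=
    ⟨multiplicity (k : ℤ) q, pow_multiplicity_dvd _ _,
      hfin.not_pow_dvd_of_multiplicity_lt (by omega)⟩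
  have h3 : (k : ℤ) ^ (m + 1) ∣ k * q := by
    rw [pow_succ']; exact mul_dvd_mul_left _ h1
  have h4 : ¬ (k : ℤ) ^ (m + 1 + 1) ∣ k * q := by
    rw [pow_succ' _ (m + 1)]
    intro h
    exact h2 ((mul_dvd_mul_iff_left (by omega : (k : ℤ) ≠ 0)).mp h)
  rw [evenVal_iff h3 h4, evenVal_iff h1 h2]
  exact Nat.even_add_one

lemma mem_snoc_of_ne {k : ℕ} {q : ℤ} {d : ℕ} (hd : d < k) (hd0 : d ≠ 0) :
    snoc k q d ∈ evenVal k := by
  have key : ¬ (k : ℤ) ∣ snoc k q d := by
    intro h
    have h1 : (k : ℤ) ∣ (d : ℤ) := by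
      unfold snoc at h
      split_ifs at h
      · have := dvd_sub (dvd_mul_right (k : ℤ) q) h
        simpa using this
      · exact (dvd_add_right (dvd_mul_right (k : ℤ) q)).mp h
    have h2 : k ∣ d := by exact_mod_cast h1
    exact hd0 (Nat.eq_zero_of_dvd_of_lt h2 hd)
  exact ⟨0, by simp, by simpa using key⟩

lemma exists_snoc {k : ℕ} (hk : 2 ≤ k) {n : ℤ} (hn : n ≠ 0) :
    ∃ (q : ℤ) (d : ℕ), d < k ∧ q.natAbs < n.natAbs ∧
      ((q ≠ 0 ∧ n = snoc k q d) ∨
        (d ≠ 0 ∧ (word k n = [letter k d] ∨ word k n = [none, letter k d]) ∧ n ∈ evenVal k)) := by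
  have hpos : 0 < n.natAbs := Int.natAbs_pos.mpr hn
  have hmod : n.natAbs % k < k := Nat.mod_lt _ (by omega)
  have hdm := Nat.div_add_mod n.natAbs k
  have hlt : n.natAbs / k < n.natAbs := Nat.div_lt_self hpos hk
  by_cases hq0 : n.natAbs / k = 0
  · refine ⟨0, n.natAbs % k, hmod, by simpa using hpos, Or.inr ?_⟩
    rw [hq0, mul_zero, zero_add] at hdm
    rw [hdm]
    have hltk : n.natAbs < k := by rw [← hdm]; exact hmod
    refine ⟨hpos.ne', ?_, ?_⟩
    · unfold word
      rw [if_neg hn, Nat.digits_of_lt k _ hpos.ne' hltk]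
      split_ifs
      · right; simp
      · left; simp
    · refine ⟨0, by simp, ?_⟩
      intro h
      have h5 := Int.natAbs_dvd_natAbs.mpr h
      simp only [mul_zero, zero_add, pow_one, Int.natAbs_natCast] at h5
      exact hpos.ne' (Nat.eq_zero_of_dvd_of_lt h5 hltk)
  · rcases lt_or_gt_of_ne hn with h | h
    · refine ⟨-((n.natAbs / k : ℕ) : ℤ), n.natAbs % k, hmod, ?_, Or.inl ⟨?_, ?_⟩⟩
      · rw [Int.natAbs_neg, Int.natAbs_natCast]; exact hlt
      · intro h0
        apply hq0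
        have : ((n.natAbs / k : ℕ) : ℤ) = 0 := by linarith
        exact_mod_cast this
      · unfold snoc
        have hneg : -((n.natAbs / k : ℕ) : ℤ) < 0 := by
          have : 0 < n.natAbs / k := Nat.pos_of_ne_zero hq0
          have : (0 : ℤ) < ((n.natAbs / k : ℕ) : ℤ) := by exact_mod_cast this
          omega
        rw [if_pos hneg]
        have h1 : ((k * (n.natAbs / k) + n.natAbs % k : ℕ) : ℤ) = (n.natAbs : ℤ) := by rw [hdm]
        have h2 : (n.natAbs : ℤ) = -n := by omega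
        push_cast at h1 h2 ⊢
        linarith
    · refine ⟨((n.natAbs / k : ℕ) : ℤ), n.natAbs % k, hmod, ?_, Or.inl ⟨?_, ?_⟩⟩
      · rw [Int.natAbs_natCast]; exact hlt
      · intro h0
        apply hq0
        exact_mod_cast h0
      · unfold snoc
        rw [if_neg (not_lt.mpr (Int.natCast_nonneg _))]
        have h1 : ((k * (n.natAbs / k) + n.natAbs % k : ℕ) : ℤ) = (n.natAbs : ℤ) := by rw [hdm]
        have h2 : (n.natAbs : ℤ) = n := by omega
        push_cast at h1 h2 ⊢
        linarith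

lemma letter_val {k d : ℕ} (hd : d < k) : letter k d = some ⟨d, hd⟩ := by
  unfold letter; rw [dif_pos hd]

lemma eval_word {k : ℕ} (hk : 2 ≤ k) : ∀ (N : ℕ) (n : ℤ), n.natAbs = N → n ≠ 0 →
    (n ∈ evenVal k → (aut k).eval (word k n) = St.even) ∧
    (n ∉ evenVal k → (aut k).eval (word k n) = St.odd) := by
  intro N
  induction N using Nat.strong_induction_on with
  | _ N ih =>
    intro n hN hn
    obtain ⟨q, d, hd, hlt, h⟩ := exists_snoc hk hn
    rcases h with ⟨hq, rfl⟩ | ⟨hd0, hw, hm⟩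
    · rw [word_snoc hk hq hd, DFA.eval_append_singleton, letter_val hd]
      obtain ⟨ih1, ih2⟩ := ih q.natAbs (by omega) q rfl hq
      by_cases hd0 : d = 0
      · subst hd0
        have hs : snoc k q 0 = k * q := by unfold snoc; split_ifs <;> simp
        rw [hs, mem_mul_iff hk hq]
        constructor
        · intro h
          rw [ih2 h]; rfl
        · intro h
          rw [not_not] at h
          rw [ih1 h]
          simp [aut, step]
      · refine ⟨fun _ => ?_, fun h => absurd (mem_snoc_of_ne hd hd0) h⟩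
        by_cases hqm : q ∈ evenVal k
        · rw [ih1 hqm]; simp [aut, step, hd0]
        · rw [ih2 hqm]; rfl
    · refine ⟨fun _ => ?_, fun h => absurd hm h⟩
      rcases hw with hw | hw
      · rw [hw, DFA.eval_singleton, letter_val hd]
        simp [aut, step, hd0]
      · have : ([none, letter k d] : List (Option (Fin k))) = [none] ++ [letter k d] := rfl
        rw [hw, this, DFA.eval_append_singleton, DFA.eval_singleton, letter_val hd]
        simp [aut, step, hd0]

lemma word_of_eval {k : ℕ} (hk : 2 ≤ k) (w : List (Option (Fin k))) :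
    ((aut k).eval w = St.start → w = []) ∧ ((aut k).eval w = St.minus → w = [none]) ∧
    ((aut k).eval w = St.even ∨ (aut k).eval w = St.odd → ∃ n : ℤ, n ≠ 0 ∧ word k n = w) := by
  induction w using List.reverseRecOn with
  | nil =>
    refine ⟨fun _ => rfl, ?_, ?_⟩
    · intro h; exact absurd h (by rw [DFA.eval_nil]; simp [aut])
    · intro h; rw [DFA.eval_nil] at h; simp [aut] at h
  | append_singleton w c ih =>
    obtain ⟨ih1, ih2, ih3⟩ := ih
    rw [DFA.eval_append_singleton]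
    show (step k ((aut k).eval w) c = St.start → _) ∧ (step k ((aut k).eval w) c = St.minus → _) ∧
      (step k ((aut k).eval w) c = St.even ∨ step k ((aut k).eval w) c = St.odd → _)
    have hword1 : ∀ d : Fin k, d.val ≠ 0 → word k (d.val : ℤ) = [some d] := by
      intro d hd
      unfold word
      rw [if_neg (by exact_mod_cast hd), if_neg (by omega), Int.natAbs_natCast,
        Nat.digits_of_lt k _ hd d.isLt]
      simp [letter_val d.isLt]
    have hword2 : ∀ d : Fin k, d.val ≠ 0 → word k (-(d.val : ℤ)) = [none, some d] := by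
      intro d hd
      unfold word
      have hdp : (0 : ℤ) < d.val := by exact_mod_cast Nat.pos_of_ne_zero hd
      rw [if_neg (by omega), if_pos (by omega), Int.natAbs_neg, Int.natAbs_natCast,
        Nat.digits_of_lt k _ hd d.isLt]
      simp [letter_val d.isLt]
    have hsn : ∀ d : Fin k, (∃ n : ℤ, n ≠ 0 ∧ word k n = w) →
        ∃ n : ℤ, n ≠ 0 ∧ word k n = w ++ [some d] := by
      rintro d ⟨n, hn, rfl⟩
      refine ⟨snoc k n d.val, ?_, ?_⟩
      · have hk' : (2 : ℤ) ≤ k := by exact_mod_cast hk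
        have hdp : (0 : ℤ) ≤ d.val := by positivity
        unfold snoc
        split_ifs with h
        · have : (k : ℤ) * n < 0 := by nlinarith
          omega
        · have h1 : 0 < n := by omega
          have : 0 < (k : ℤ) * n := by positivity
          omega
      · rw [word_snoc hk hn d.isLt, letter_val d.isLt]
    cases hs : (aut k).eval w with
    | start =>
      have hw := ih1 hs
      subst hw
      cases c with
      | none => simp [step]
      | some d =>
        by_cases hd : d.val = 0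
        · simp [step, hd]
        · simp only [step, hd, if_false]
          refine ⟨by simp, by simp, fun _ => ⟨d.val, by exact_mod_cast hd, ?_⟩⟩
          rw [hword1 d hd]; rfl
    | minus =>
      have hw := ih2 hs
      subst hw
      cases c with
      | none => simp [step]
      | some d =>
        by_cases hd : d.val = 0
        · simp [step, hd]
        · simp only [step, hd, if_false]
          refine ⟨by simp, by simp, fun _ => ⟨-(d.val : ℤ), ?_, ?_⟩⟩
          · have : (d.val : ℤ) ≠ 0 := by exact_mod_cast hd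
            omega
          · rw [hword2 d hd]; rfl
    | even =>
      cases c with
      | none => simp [step]
      | some d =>
        have h3 := hsn d (ih3 (Or.inl hs))
        by_cases hd : d.val = 0
        · simp only [step, hd, if_true]
          exact ⟨by simp, by simp, fun _ => h3⟩
        · simp only [step, hd, if_false]
          exact ⟨by simp, by simp, fun _ => h3⟩
    | odd =>
      cases c with
      | none => simp [step]
      | some d =>
        have h3 := hsn d (ih3 (Or.inr hs))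
        simp only [step]
        exact ⟨by simp, by simp, fun _ => h3⟩
    | dead => simp [step]

lemma recognized {k : ℕ} (hk : 2 ≤ k) : Recognized k (evenVal k) := by
  refine ⟨St, inferInstance, aut k, ?_⟩
  ext w
  rw [DFA.mem_accepts]
  constructor
  · intro h
    have h' : (aut k).eval w = St.even := h
    obtain ⟨n, hn, rfl⟩ := (word_of_eval hk w).2.2 (Or.inl h')
    refine ⟨n, ?_, rfl⟩
    by_contra hne
    have := (eval_word hk _ n rfl hn).2 hne
    rw [this] at h'
    cases h'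
  · rintro ⟨n, hn, rfl⟩
    have hn0 : n ≠ 0 := by
      rintro rfl
      obtain ⟨j, _, h2⟩ := hn
      exact h2 (dvd_zero _)
    exact (eval_word hk _ n rfl hn0).1 hn

end Pool.Agent.R961.Tri
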